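import Mathlib

set_option autoImplicit false
set_option linter.unusedVariables false
set_option linter.unusedSectionVars false

open scoped InnerProductSpace Topology ENNReal
open Filter

noncomputable section

namespace Pool.Agent.Helper192.GI

/-- `T` has finite rank -/
def FR {X Y : Type*} [NormedAddCommGroup X] [NormedSpace ℂ X] [NormedAddCommGroup Y] [NormedSpace ℂ Y]
    (T : X →L[ℂ] Y) : Prop :=
  FiniteDimensional ℂ (LinearMap.range (T : X →ₗ[ℂ] Y))

/-- `T` has rank at most `k` -/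
def Rk {X Y : Type*} [AddCommGroup X] [Module ℂ X] [AddCommGroup Y] [Module ℂ Y]
    (T : X →ₗ[ℂ] Y) (k : ℕ) : Prop :=
  LinearMap.rank T ≤ (k : Cardinal)

/-- the Hilbert space sum of countably many copies of `X` -/
abbrev L2 (X : Type) [NormedAddCommGroup X] : Type := lp (fun _ : ℕ => X) 2

section ops

variable {X : Type} [NormedAddCommGroup X] [InnerProductSpace ℂ X] [CompleteSpace X]

omit [InnerProductSpace ℂ X] [CompleteSpace X] in
theorem summable_sq (v : L2 X) : Summable fun n => ‖v n‖ ^ 2 := by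
  have h := lp.memℓp v
  rw [memℓp_gen_iff (by norm_num)] at h
  simpa using h

omit [InnerProductSpace ℂ X] [CompleteSpace X] in
theorem mem_of {f : ℕ → X} (h : Summable fun n => ‖f n‖ ^ 2) : Memℓp f 2 := by
  rw [memℓp_gen_iff (by norm_num)]
  simpa using h

omit [InnerProductSpace ℂ X] [CompleteSpace X] in
theorem norm_sq (v : L2 X) : ‖v‖ ^ 2 = ∑' n, ‖v n‖ ^ 2 := by
  have h := lp.norm_rpow_eq_tsum (p := 2) (by norm_num) v
  simpa using h

/-- diagonal operator with a bounded sequence of entries -/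
def dg (x : ℕ → X →L[ℂ] X) (C : ℝ) (hC : ∀ i, ‖x i‖ ≤ C) : L2 X →L[ℂ] L2 X :=
  LinearMap.mkContinuous
    { toFun := fun v => ⟨fun i => x i (v i), mem_of (by
        have h0 : 0 ≤ C := (norm_nonneg _).trans (hC 0)
        refine Summable.of_nonneg_of_le (fun _ => by positivity) (fun i => ?_) ((summable_sq v).mul_left (C ^ 2))
        rw [← mul_pow]
        exact pow_le_pow_left₀ (norm_nonneg _) (((x i).le_opNorm _).trans (mul_le_mul_of_nonneg_right (hC i) (norm_nonneg _))) 2)⟩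
      map_add' := fun v w => by
        ext i
        exact map_add (x i) (v i) (w i)
      map_smul' := fun c v => by
        ext i
        exact map_smul (x i) c (v i) }
    C (fun v => by
      have h0 : 0 ≤ C := (norm_nonneg _).trans (hC 0)
      refine le_of_sq_le_sq ?_ (mul_nonneg h0 (norm_nonneg _))
      rw [mul_pow, norm_sq, norm_sq, ← tsum_mul_left]
      refine Summable.tsum_le_tsum (fun i => ?_) ?_ ((summable_sq v).mul_left (C ^ 2))
      · rw [← mul_pow]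
        exact pow_le_pow_left₀ (norm_nonneg _) (((x i).le_opNorm _).trans (mul_le_mul_of_nonneg_right (hC i) (norm_nonneg _))) 2
      · exact summable_sq (X := X) _)

@[simp] theorem dg_apply (x : ℕ → X →L[ℂ] X) (C : ℝ) (hC : ∀ i, ‖x i‖ ≤ C) (v : L2 X) (n : ℕ) :
    dg x C hC v n = x n (v n) := rfl

/-- ampliation -/
def amp (y : X →L[ℂ] X) : L2 X →L[ℂ] L2 X := dg (fun _ => y) ‖y‖ (fun _ => le_rfl)

@[simp] theorem amp_apply (y : X →L[ℂ] X) (v : L2 X) (n : ℕ) : amp y v n = y (v n) := rfl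

/-- ampliation as a homomorphism -/
def ampHom : (X →L[ℂ] X) →ₐ[ℂ] (L2 X →L[ℂ] L2 X) :=
  AlgHom.ofLinearMap
    { toFun := amp
      map_add' := fun y z => by ext v n; rfl
      map_smul' := fun c y => by ext v n; rfl }
    (by ext v n; rfl) (fun y z => by ext v n; rfl)

@[simp] theorem ampHom_apply (y : X →L[ℂ] X) : ampHom y = amp y := rfl

/-- block inclusion -/
def inc (n : ℕ) : X →L[ℂ] L2 X := (lp.singleContinuousLinearMap ℂ (fun _ : ℕ => X) 2 n)

/-- block evaluation -/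
def ev (n : ℕ) : L2 X →L[ℂ] X :=
  LinearMap.mkContinuous
    { toFun := fun v => v n
      map_add' := fun _ _ => rfl
      map_smul' := fun _ _ => rfl } 1 (fun v => by
        rw [one_mul]
        exact lp.norm_apply_le_norm (by norm_num) v n)

omit [CompleteSpace X] in
@[simp] theorem ev_apply (n : ℕ) (v : L2 X) : ev n v = v n := rfl

/-- the function `n ↦ v (f⁻¹ n)`, zero outside the range of `f` -/
def pull (f : PEquiv ℕ ℕ) (v : ℕ → X) (n : ℕ) : X :=
  match f.symm n with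
  | some j => v j
  | none => 0

end ops

section fr

variable {X Y Z : Type*} [NormedAddCommGroup X] [NormedSpace ℂ X] [NormedAddCommGroup Y] [NormedSpace ℂ Y]
  [NormedAddCommGroup Z] [NormedSpace ℂ Z]

theorem FR.of_le {A : X →L[ℂ] Y} (S : Submodule ℂ Y) [FiniteDimensional ℂ S] (h : ∀ x, A x ∈ S) : FR A := by
  have h1 : LinearMap.range (A : X →ₗ[ℂ] Y) ≤ S := by
    rintro _ ⟨x, rfl⟩
    exact h x
  exact Submodule.finiteDimensional_of_le h1

theorem FR.zero : FR (0 : X →L[ℂ] Y) := FR.of_le ⊥ (fun _ => rfl)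

theorem FR.add {A B : X →L[ℂ] Y} (hA : FR A) (hB : FR B) : FR (A + B) := by
  haveI : FiniteDimensional ℂ (LinearMap.range (A : X →ₗ[ℂ] Y)) := hA
  haveI : FiniteDimensional ℂ (LinearMap.range (B : X →ₗ[ℂ] Y)) := hB
  refine FR.of_le (LinearMap.range (A : X →ₗ[ℂ] Y) ⊔ LinearMap.range (B : X →ₗ[ℂ] Y)) (fun x => ?_)
  exact Submodule.add_mem_sup ⟨x, rfl⟩ ⟨x, rfl⟩

theorem FR.smul {A : X →L[ℂ] Y} (c : ℂ) (hA : FR A) : FR (c • A) := by
  haveI : FiniteDimensional ℂ (LinearMap.range (A : X →ₗ[ℂ] Y)) := hA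
  exact FR.of_le (LinearMap.range (A : X →ₗ[ℂ] Y)) (fun x => Submodule.smul_mem _ c ⟨x, rfl⟩)

theorem FR.neg {A : X →L[ℂ] Y} (hA : FR A) : FR (-A) := by
  have := hA.smul (-1)
  rwa [neg_one_smul] at this

theorem FR.sub {A B : X →L[ℂ] Y} (hA : FR A) (hB : FR B) : FR (A - B) := by
  rw [sub_eq_add_neg]
  exact hA.add hB.neg

theorem FR.comp_left {A : X →L[ℂ] Y} (hA : FR A) (B : Y →L[ℂ] Z) : FR (B.comp A) := by
  haveI : FiniteDimensional ℂ (LinearMap.range (A : X →ₗ[ℂ] Y)) := hA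
  refine FR.of_le ((LinearMap.range (A : X →ₗ[ℂ] Y)).map (B : Y →ₗ[ℂ] Z)) (fun x => ?_)
  exact ⟨A x, ⟨x, rfl⟩, rfl⟩

theorem FR.comp_right {A : Y →L[ℂ] Z} (hA : FR A) (B : X →L[ℂ] Y) : FR (A.comp B) := by
  haveI : FiniteDimensional ℂ (LinearMap.range (A : Y →ₗ[ℂ] Z)) := hA
  exact FR.of_le (LinearMap.range (A : Y →ₗ[ℂ] Z)) (fun x => ⟨B x, rfl⟩)

theorem FR.mul_left {A : X →L[ℂ] X} (hA : FR A) (B : X →L[ℂ] X) : FR (B * A) := hA.comp_left B

theorem FR.mul_right {A : X →L[ℂ] X} (hA : FR A) (B : X →L[ℂ] X) : FR (A * B) := hA.comp_right B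

/-- the relation `A ≡ B` modulo finite rank is transitive -/
theorem FR.trans {A B C : X →L[ℂ] Y} (h : FR (A - B)) (h' : FR (B - C)) : FR (A - C) := by
  have := h.add h'
  rwa [sub_add_sub_cancel] at this

theorem FR.symm {A B : X →L[ℂ] Y} (h : FR (A - B)) : FR (B - A) := by
  have := h.neg
  rwa [neg_sub] at this

theorem fr_iff {A : X →L[ℂ] Y} : FR A ↔ ∃ k : ℕ, Rk (A : X →ₗ[ℂ] Y) k := by
  constructor
  · intro h
    haveI : FiniteDimensional ℂ (LinearMap.range (A : X →ₗ[ℂ] Y)) := h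
    exact ⟨Module.finrank ℂ (LinearMap.range (A : X →ₗ[ℂ] Y)), by
      unfold Rk LinearMap.rank
      rw [Module.finrank_eq_rank]⟩
  · rintro ⟨k, hk⟩
    exact Module.rank_lt_aleph0_iff.1 (lt_of_le_of_lt hk (Cardinal.natCast_lt_aleph0))

end fr

section rk

variable {X Y Z : Type} [AddCommGroup X] [Module ℂ X] [AddCommGroup Y] [Module ℂ Y] [AddCommGroup Z] [Module ℂ Z]

theorem Rk.mono {A : X →ₗ[ℂ] Y} {m n : ℕ} (h : Rk A m) (hmn : m ≤ n) : Rk A n :=
  le_trans h (by exact_mod_cast hmn)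

theorem Rk.add {A B : X →ₗ[ℂ] Y} {m n : ℕ} (hA : Rk A m) (hB : Rk B n) : Rk (A + B) (m + n) := by
  unfold Rk at *
  rw [Nat.cast_add]
  exact (LinearMap.rank_add_le A B).trans (add_le_add hA hB)

theorem Rk.neg {A : X →ₗ[ℂ] Y} {m : ℕ} (hA : Rk A m) : Rk (-A) m := by
  unfold Rk at *
  have h : LinearMap.range (-A) = LinearMap.range A := by
    ext y
    constructor
    · rintro ⟨x, rfl⟩
      exact ⟨-x, by simp⟩
    · rintro ⟨x, rfl⟩
      exact ⟨-x, by simp⟩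
  unfold LinearMap.rank at *
  rwa [h]

theorem Rk.sub {A B : X →ₗ[ℂ] Y} {m n : ℕ} (hA : Rk A m) (hB : Rk B n) : Rk (A - B) (m + n) := by
  rw [sub_eq_add_neg]
  exact hA.add hB.neg

theorem Rk.comp_left {A : X →ₗ[ℂ] Y} {m : ℕ} (hA : Rk A m) (B : Y →ₗ[ℂ] Z) : Rk (B ∘ₗ A) m :=
  (LinearMap.rank_comp_le_right A B).trans hA

theorem Rk.comp_right {A : Y →ₗ[ℂ] Z} {m : ℕ} (hA : Rk A m) (B : X →ₗ[ℂ] Y) : Rk (A ∘ₗ B) m :=
  (LinearMap.rank_comp_le_left B A).trans hA

end rk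

/-- near automorphisms: linear lifts of automorphisms of `B(G)/F(G)` -/
structure NA {G : Type} [NormedAddCommGroup G] [NormedSpace ℂ G]
    (τ : (G →L[ℂ] G) →ₗ[ℂ] (G →L[ℂ] G)) : Prop where
  mul : ∀ X Y, FR (τ (X * Y) - τ X * τ Y)
  one : FR (τ 1 - 1)
  fr : ∀ X, FR X ↔ FR (τ X)
  surj : ∀ A, ∃ X, FR (A - τ X)

/-- gauge -/
def Gam {G : Type} [NormedAddCommGroup G] [NormedSpace ℂ G] (Y0 Y1 T : G →L[ℂ] G) (k : ℕ) : Prop :=
  Rk ((T * Y0 - Y0 * T : G →L[ℂ] G) : G →ₗ[ℂ] G) k ∧ Rk ((T * Y1 - Y1 * T : G →L[ℂ] G) : G →ₗ[ℂ] G) k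

end Pool.Agent.Helper192.GI
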