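import Mathlib
import Pool.Agent.Helper192.GI.Base

set_option autoImplicit false
set_option linter.unusedVariables false
set_option linter.unusedSectionVars false

open scoped InnerProductSpace Topology ENNReal
open Filter

noncomputable section

namespace Pool.Agent.Helper192.GI

section V

variable {X : Type} [NormedAddCommGroup X] [InnerProductSpace ℂ X] [CompleteSpace X]

-- J1
theorem pull_sum_le (f : PEquiv ℕ ℕ) (v : L2 X) (s : Finset ℕ) :
    ∑ n ∈ s, ‖pull f v n‖ ^ 2 ≤ ∑' n, ‖v n‖ ^ 2 := by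
  classical
  have h1 : ∑ n ∈ s, ‖pull f v n‖ ^ 2 =
      ∑ n ∈ s.filter (fun n => (f.symm n).isSome), ‖pull f v n‖ ^ 2 := by
    rw [Finset.sum_filter_of_ne]
    intro n _ hn
    by_contra hc
    apply hn
    have h2 : f.symm n = none := by
      cases h : f.symm n with
      | none => rfl
      | some j => exact absurd (by rw [h]; rfl) hc
    unfold pull
    rw [h2]
    simp
  have h2 : ∑ n ∈ s.filter (fun n => (f.symm n).isSome), ‖pull f v n‖ ^ 2 =
      ∑ n ∈ s.filter (fun n => (f.symm n).isSome), ‖v ((f.symm n).getD 0)‖ ^ 2 := by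
    refine Finset.sum_congr rfl (fun n hn => ?_)
    have h3 := (Finset.mem_filter.1 hn).2
    obtain ⟨j, hj⟩ := Option.isSome_iff_exists.1 h3
    unfold pull
    rw [hj]
    rfl
  have hinj : Set.InjOn (fun n => (f.symm n).getD 0)
      (s.filter (fun n => (f.symm n).isSome) : Finset ℕ) := by
    intro a ha b hb hab
    have ha' := (Finset.mem_filter.1 ha).2
    have hb' := (Finset.mem_filter.1 hb).2
    obtain ⟨j, hj⟩ := Option.isSome_iff_exists.1 ha'
    obtain ⟨k, hk⟩ := Option.isSome_iff_exists.1 hb'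
    simp only [hj, hk, Option.getD_some] at hab
    subst hab
    exact PEquiv.inj f.symm (b := j) hj hk
  have h3 : ∑ n ∈ s.filter (fun n => (f.symm n).isSome), ‖v ((f.symm n).getD 0)‖ ^ 2 =
      ∑ m ∈ (s.filter (fun n => (f.symm n).isSome)).image (fun n => (f.symm n).getD 0),
        ‖v m‖ ^ 2 := by
    rw [Finset.sum_image hinj]
  rw [h1, h2, h3]
  exact (summable_sq v).sum_le_tsum _ (fun _ _ => by positivity)

theorem pull_summable (f : PEquiv ℕ ℕ) (v : L2 X) : Summable fun n => ‖pull f v n‖ ^ 2 :=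
  summable_of_sum_le (fun _ => by positivity) (pull_sum_le f v)

theorem exists_V (f : PEquiv ℕ ℕ) : ∃ W : L2 X →L[ℂ] L2 X, (∀ v n, W v n = pull f v n) ∧ ‖W‖ ≤ 1 := by
  let W : L2 X →L[ℂ] L2 X := LinearMap.mkContinuous
    { toFun := fun v => ⟨fun n => pull f v n, mem_of (pull_summable f v)⟩
      map_add' := fun v w => by
        ext n
        change pull f (v + w : L2 X) n = pull f v n + pull f w n
        unfold pull
        cases f.symm n with
        | none => simp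
        | some j => rfl
      map_smul' := fun c v => by
        ext n
        change pull f (c • v : L2 X) n = c • pull f v n
        unfold pull
        cases f.symm n with
        | none => simp
        | some j => rfl } 1 (fun v => by
      rw [one_mul]
      refine le_of_sq_le_sq ?_ (norm_nonneg _)
      rw [norm_sq, norm_sq]
      exact (pull_summable f v).tsum_le_of_sum_le (pull_sum_le f v))
  exact ⟨W, fun v n => rfl, LinearMap.mkContinuous_norm_le _ zero_le_one _⟩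

def V (f : PEquiv ℕ ℕ) : L2 X →L[ℂ] L2 X := (exists_V f).choose

theorem V_apply (f : PEquiv ℕ ℕ) (v : L2 X) (n : ℕ) : V f v n = pull f v n := (exists_V f).choose_spec.1 v n

theorem V_norm (f : PEquiv ℕ ℕ) : ‖(V f : L2 X →L[ℂ] L2 X)‖ ≤ 1 := (exists_V f).choose_spec.2

theorem V_trans (f g : PEquiv ℕ ℕ) : (V (f.trans g) : L2 X →L[ℂ] L2 X) = V g * V f := by
  ext v n
  rw [ContinuousLinearMap.mul_apply, V_apply, V_apply]
  unfold pull
  have h : (f.trans g).symm n = (g.symm n).bind f.symm := rfl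
  rw [h]
  cases hg : g.symm n with
  | none => rfl
  | some j =>
    show (match f.symm j with | some j => v j | none => 0) = (V f v) j
    rw [V_apply]
    rfl

theorem V_refl : (V (PEquiv.refl ℕ) : L2 X →L[ℂ] L2 X) = 1 := by
  ext v n
  rw [V_apply]
  rfl

theorem V_bot : (V ⊥ : L2 X →L[ℂ] L2 X) = 0 := by
  ext v n
  rw [V_apply]
  rfl

theorem V_amp (f : PEquiv ℕ ℕ) (y : X →L[ℂ] X) : (V f : L2 X →L[ℂ] L2 X) * amp y = amp y * V f := by
  ext v n
  rw [ContinuousLinearMap.mul_apply, ContinuousLinearMap.mul_apply, V_apply, amp_apply, V_apply]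
  unfold pull
  cases f.symm n with
  | none => simp
  | some j => rfl

end V

-- J2
def uuP (n : ℕ) : PEquiv ℕ ℕ where
  toFun m := some (Nat.pair n m)
  invFun k := if k.unpair.1 = n then some k.unpair.2 else none
  inv a b := by
    by_cases h : b.unpair.1 = n
    · rw [if_pos h]
      simp only [Option.mem_def, Option.some.injEq]
      constructor
      · intro h2
        rw [← h, ← h2, Nat.pair_unpair]
      · intro h2
        rw [← h2, Nat.unpair_pair]
    · rw [if_neg h]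
      simp only [Option.mem_def, Option.some.injEq]
      constructor
      · intro h2
        simp at h2
      · intro h2
        exfalso
        apply h
        rw [← h2, Nat.unpair_pair]

theorem uuP_apply (n m : ℕ) : uuP n m = some (Nat.pair n m) := rfl

theorem uuP_symm_apply (n k : ℕ) :
    (uuP n).symm k = if k.unpair.1 = n then some k.unpair.2 else none := rfl

def FFP (f : ℕ → PEquiv ℕ ℕ) : PEquiv ℕ ℕ where
  toFun k := (f k.unpair.1 k.unpair.2).map (fun j => Nat.pair k.unpair.1 j)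
  invFun k := ((f k.unpair.1).symm k.unpair.2).map (fun j => Nat.pair k.unpair.1 j)
  inv a b := by
    simp only [Option.mem_def, Option.map_eq_some_iff]
    constructor
    · rintro ⟨j, hj, rfl⟩
      refine ⟨b.unpair.2, ?_, ?_⟩
      · rw [Nat.unpair_pair]
        exact (f b.unpair.1).eq_some_iff.1 hj
      · rw [Nat.unpair_pair]
        exact Nat.pair_unpair b
    · rintro ⟨j, hj, rfl⟩
      refine ⟨a.unpair.2, ?_, ?_⟩
      · rw [Nat.unpair_pair]
        exact (f a.unpair.1).eq_some_iff.2 hj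
      · rw [Nat.unpair_pair]
        exact Nat.pair_unpair a

theorem FFP_apply (f : ℕ → PEquiv ℕ ℕ) (k : ℕ) :
    FFP f k = (f k.unpair.1 k.unpair.2).map (fun j => Nat.pair k.unpair.1 j) := rfl

theorem exists_uu : ∃ uu : ℕ → PEquiv ℕ ℕ, (∀ n, (uu n).trans (uu n).symm = PEquiv.refl ℕ) ∧
    (∀ m n, m ≠ n → (uu n).trans (uu m).symm = ⊥) ∧
    ∀ f : ℕ → PEquiv ℕ ℕ, ∃ F : PEquiv ℕ ℕ, ∀ n, ((uu n).trans F).trans (uu n).symm = f n := by
  refine ⟨uuP, ?_, ?_, ?_⟩
  · intro n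
    apply PEquiv.ext
    intro m
    show ((uuP n) m).bind (uuP n).symm = some m
    rw [uuP_apply, Option.bind_some, uuP_symm_apply, Nat.unpair_pair]
    simp
  · intro m n hmn
    apply PEquiv.ext
    intro k
    show ((uuP n) k).bind (uuP m).symm = none
    rw [uuP_apply, Option.bind_some, uuP_symm_apply, Nat.unpair_pair]
    rw [if_neg]
    exact fun h => hmn h.symm
  · intro f
    refine ⟨FFP f, ?_⟩
    intro n
    apply PEquiv.ext
    intro m
    show ((((uuP n) m).bind (FFP f))).bind (uuP n).symm = f n m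
    rw [uuP_apply, Option.bind_some, FFP_apply, Nat.unpair_pair]
    cases h : f n m with
    | none => rfl
    | some j =>
      show (uuP n).symm (Nat.pair n j) = some j
      rw [uuP_symm_apply, Nat.unpair_pair]
      simp

-- J3
theorem q8978_reindex {Y : Type} [NormedAddCommGroup Y] [InnerProductSpace ℂ Y] [CompleteSpace Y]
    {ι κ : Type} (b : HilbertBasis ι ℂ Y) (e : ι ≃ κ) : Nonempty (HilbertBasis κ ℂ Y) := by
  refine ⟨HilbertBasis.mk (v := b ∘ e.symm) (b.orthonormal.comp _ e.symm.injective) ?_⟩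
  rw [e.symm.surjective.range_comp b, b.dense_span]

theorem q8978_L2 {X : Type} [NormedAddCommGroup X] [InnerProductSpace ℂ X] [CompleteSpace X]
    (b : HilbertBasis ℕ ℂ X) : Nonempty (HilbertBasis ℕ ℂ (L2 X)) := by
  classical
  obtain ⟨v, hv⟩ : ∃ v : ℕ × ℕ → L2 X, v = fun p => lp.single 2 p.1 (b p.2) := ⟨_, rfl⟩
  have hin : ∀ (m i : ℕ) (f : L2 X), inner ℂ (v (m, i)) f = inner ℂ (b i) (f m) := by
    intro m i f
    rw [hv]
    exact lp.inner_single_left (𝕜 := ℂ) m (b i) f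
  have hon : Orthonormal ℂ v := by
    rw [orthonormal_iff_ite]
    rintro ⟨m, i⟩ ⟨n, j⟩
    rw [hin]
    have hb := orthonormal_iff_ite.1 b.orthonormal
    have h1 : (v (n, j)) m = if m = n then b j else 0 := by
      rw [hv]
      show (lp.single 2 n (b j) : L2 X) m = _
      rw [lp.coeFn_single]
      by_cases h : m = n
      · subst h
        rw [Pi.single_eq_same, if_pos rfl]
      · rw [Pi.single_eq_of_ne h, if_neg h]
    rw [h1]
    by_cases h : m = n
    · subst h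
      rw [if_pos rfl, hb i j]
      by_cases hij : i = j
      · subst hij
        simp
      · rw [if_neg hij, if_neg]
        intro h2
        exact hij (Prod.ext_iff.1 h2).2
    · rw [if_neg h, inner_zero_right, if_neg]
      intro h2
      exact h (Prod.ext_iff.1 h2).1
  have hbot : (Submodule.span ℂ (Set.range v))ᗮ = ⊥ := by
    rw [Submodule.eq_bot_iff]
    intro f hf
    have h1 : ∀ m i : ℕ, inner ℂ (b i) (f m) = 0 := by
      intro m i
      rw [← hin]
      exact (Submodule.mem_orthogonal _ _).1 hf _ (Submodule.subset_span ⟨(m, i), rfl⟩)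
    have h2 : ∀ m, f m = 0 := by
      intro m
      apply b.repr.injective
      rw [map_zero]
      ext i
      rw [b.repr_apply_apply, h1 m i]
      rfl
    ext m
    rw [h2 m]
    rfl
  exact q8978_reindex (HilbertBasis.mkOfOrthogonalEqBot hon hbot) Nat.pairEquiv

theorem q8978_X {X : Type} [NormedAddCommGroup X] [InnerProductSpace ℂ X] [CompleteSpace X]
    [TopologicalSpace.SeparableSpace X] (hX : ¬ FiniteDimensional ℂ X) :
    Nonempty (HilbertBasis ℕ ℂ X) := by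
  obtain ⟨w, b, hb⟩ := exists_hilbertBasis ℂ X
  have hcount : w.Countable := by
    have hdis : (w : Set X).PairwiseDisjoint (fun x => Metric.ball x (1 / 2)) := by
      intro x hx y hy hxy
      apply Metric.ball_disjoint_ball
      have hon := b.orthonormal
      have h1 : ‖x‖ = 1 := by
        have := hon.1 ⟨x, hx⟩
        rwa [hb] at this
      have h2 : ‖y‖ = 1 := by
        have := hon.1 ⟨y, hy⟩
        rwa [hb] at this
      have h3 : inner ℂ x y = 0 := by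
        have := hon.2 (i := ⟨x, hx⟩) (j := ⟨y, hy⟩) (by
          intro h
          exact hxy (Subtype.ext_iff.1 h))
        rwa [hb] at this
      have h4 : ‖x - y‖ ^ 2 = 2 := by
        rw [norm_sub_sq (𝕜 := ℂ), h1, h2, h3]
        norm_num
      rw [dist_eq_norm]
      nlinarith [norm_nonneg (x - y)]
    exact hdis.countable_of_isOpen (fun _ _ => Metric.isOpen_ball)
      (fun x _ => ⟨x, Metric.mem_ball_self (by norm_num)⟩)
  have hinf : w.Infinite := by
    intro hfin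
    apply hX
    have h1 : Set.range b = w := by
      rw [hb]
      exact Subtype.range_coe
    have h2 := b.dense_span
    rw [h1] at h2
    have : FiniteDimensional ℂ (Submodule.span ℂ w) := FiniteDimensional.span_of_finite ℂ hfin
    have h3 : (Submodule.span ℂ w).topologicalClosure = Submodule.span ℂ w :=
      (Submodule.closed_of_finiteDimensional _).submodule_topologicalClosure_eq
    rw [h3] at h2
    rw [h2] at this
    exact Module.Finite.equiv (Submodule.topEquiv (R := ℂ) (M := X))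
  have : Countable w := hcount.to_subtype
  have : Infinite w := hinf.to_subtype
  obtain ⟨e⟩ : Nonempty (w ≃ ℕ) := nonempty_equiv_of_countable
  exact q8978_reindex b e

theorem exists_iso {X : Type} [NormedAddCommGroup X] [InnerProductSpace ℂ X] [CompleteSpace X]
    [TopologicalSpace.SeparableSpace X] (hX : ¬ FiniteDimensional ℂ X) :
    Nonempty (X ≃ₗᵢ[ℂ] L2 X) ∧ Nonempty (X ≃ₗᵢ[ℂ] L2 (L2 X)) := by
  obtain ⟨b⟩ := q8978_X hX
  obtain ⟨b1⟩ := q8978_L2 b
  obtain ⟨b2⟩ := q8978_L2 b1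
  exact ⟨⟨b.repr.trans b1.repr.symm⟩, ⟨b.repr.trans b2.repr.symm⟩⟩

-- J4
theorem bergman {E : Type} [NormedAddCommGroup E] [InnerProductSpace ℂ E] [CompleteSpace E]
    (κ : E ≃ₗᵢ[ℂ] L2 E) (P : ℕ → (E →L[ℂ] E) → Prop) (hmono : ∀ m n y, m ≤ n → P m y → P n y)
    (hex : ∀ y, ∃ n, P n y) (hmul : ∀ m n y z, P m y → P n z → P (m + n) (y * z)) :
    ∃ n, ∀ y, ‖y‖ ≤ 1 → P n y := by
  by_contra h
  push Not at h
  let κc : E →L[ℂ] L2 E := (κ.toContinuousLinearEquiv : E →L[ℂ] L2 E)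
  let κs : L2 E →L[ℂ] E := (κ.symm.toContinuousLinearEquiv : L2 E →L[ℂ] E)
  have hks : ∀ v, κc (κs v) = v := fun v => κ.apply_symm_apply v
  let s : ℕ → (E →L[ℂ] E) := fun n => κs.comp (inc n)
  let s' : ℕ → (E →L[ℂ] E) := fun n => (ev n).comp κc
  choose a ha using fun n => hex (s n)
  choose b hb using fun n => hex (s' n)
  choose y hy1 hy2 using fun n => h (b n + n + a n)
  let X : E →L[ℂ] E := κs.comp ((dg y 1 hy1).comp κc)
  obtain ⟨m, hm⟩ := hex X
  have hym : y m = s' m * X * s m := by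
    ext v
    show y m v = ev m (κc (κs (dg y 1 hy1 (κc (κs (inc m v))))))
    rw [hks, hks, ev_apply, dg_apply]
    congr 1
    show v = (lp.single (E := fun _ : ℕ => E) 2 m v) m
    rw [lp.single_apply_self]
  apply hy2 m
  rw [hym]
  exact hmul _ _ _ _ (hmul _ _ _ _ (hb m) hm) (ha m)

-- J5
theorem bergmanP (P : ℕ → PEquiv ℕ ℕ → Prop) (hmono : ∀ m n f, m ≤ n → P m f → P n f)
    (hex : ∀ f, ∃ n, P n f) (hmul : ∀ m n f g, P m f → P n g → P (m + n) (f.trans g)) :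
    ∃ n, ∀ f, P n f := by
  obtain ⟨uu, -, -, hF⟩ := exists_uu
  by_contra hcon
  push Not at hcon
  choose a ha using fun n => hex (uu n)
  choose b hb using fun n => hex (uu n).symm
  choose f hf using fun n => hcon (a n + n + b n)
  obtain ⟨F, hF⟩ := hF f
  obtain ⟨M, hM⟩ := hex F
  have h1 := hmul _ _ _ _ (hmul _ _ _ _ (ha M) hM) (hb M)
  rw [hF M] at h1
  exact hf M h1

-- J6
theorem gauge_prod_rank {G : Type} [AddCommGroup G] [Module ℂ G] (F : G →ₗ[ℂ] G) :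
    LinearMap.rank F + LinearMap.rank F ≤ LinearMap.rank (F.prodMap F) := by
  unfold LinearMap.rank
  rw [← rank_prod']
  let g : (LinearMap.range F × LinearMap.range F) →ₗ[ℂ] LinearMap.range (F.prodMap F) :=
    LinearMap.codRestrict _
      (((LinearMap.range F).subtype).prodMap ((LinearMap.range F).subtype)) (by
        rintro ⟨⟨_, ⟨x, rfl⟩⟩, ⟨_, ⟨y, rfl⟩⟩⟩
        exact ⟨(x, y), rfl⟩)
  refine LinearMap.rank_le_of_injective g ?_
  rintro ⟨a, b⟩ ⟨a', b'⟩ h
  have h' := congrArg Subtype.val h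
  have h1 : (a : G) = a' := congrArg Prod.fst h'
  have h2 : (b : G) = b' := congrArg Prod.snd h'
  ext
  · exact h1
  · exact h2

theorem gauge_prod_rk {G : Type} [AddCommGroup G] [Module ℂ G] (A B : G →ₗ[ℂ] G) {m n : ℕ}
    (hA : Rk A m) (hB : Rk B n) : Rk (A.prod B) (m + n) := by
  have h : A.prod B = (LinearMap.inl ℂ G G) ∘ₗ A + (LinearMap.inr ℂ G G) ∘ₗ B := by
    ext x <;> simp
  rw [h]
  exact (hA.comp_left _).add (hB.comp_left _)

theorem gauge {G : Type} [NormedAddCommGroup G] [NormedSpace ℂ G] (Y0 Y1 X0 X1 : G →L[ℂ] G)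
    (h00 : FR (Y0 * X0 - 1)) (h01 : FR (Y0 * X1)) (h10 : FR (Y1 * X0)) (h11 : FR (Y1 * X1 - 1)) :
    ∃ c : ℕ, ∀ F : G →L[ℂ] G, FR F → ∀ k, Gam Y0 Y1 F k → Rk (F : G →ₗ[ℂ] G) (2 * k + c) := by
  obtain ⟨c00, hc00⟩ := fr_iff.1 h00
  obtain ⟨c01, hc01⟩ := fr_iff.1 h01
  obtain ⟨c10, hc10⟩ := fr_iff.1 h10
  obtain ⟨c11, hc11⟩ := fr_iff.1 h11
  refine ⟨(c00 + c10) + (c01 + c11), fun F hF k hk => ?_⟩
  obtain ⟨hk0, hk1⟩ := hk
  let Yc : G →ₗ[ℂ] G × G := (Y0 : G →ₗ[ℂ] G).prod (Y1 : G →ₗ[ℂ] G)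
  let Xc : G × G →ₗ[ℂ] G := (X0 : G →ₗ[ℂ] G).coprod (X1 : G →ₗ[ℂ] G)
  let F' : G →ₗ[ℂ] G := (F : G →ₗ[ℂ] G)
  let F2 : G × G →ₗ[ℂ] G × G := F'.prodMap F'
  let E : G × G →ₗ[ℂ] G × G :=
    (((Y0 * X0 - 1 : G →L[ℂ] G) : G →ₗ[ℂ] G).prod ((Y1 * X0 : G →L[ℂ] G) : G →ₗ[ℂ] G)) ∘ₗ
      (LinearMap.fst ℂ G G) +
    (((Y0 * X1 : G →L[ℂ] G) : G →ₗ[ℂ] G).prod ((Y1 * X1 - 1 : G →L[ℂ] G) : G →ₗ[ℂ] G)) ∘ₗ
      (LinearMap.snd ℂ G G)
  have hE : Rk E ((c00 + c10) + (c01 + c11)) :=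
    ((gauge_prod_rk _ _ hc00 hc10).comp_right _).add ((gauge_prod_rk _ _ hc01 hc11).comp_right _)
  let D : G →ₗ[ℂ] G × G :=
    ((F * Y0 - Y0 * F : G →L[ℂ] G) : G →ₗ[ℂ] G).prod ((F * Y1 - Y1 * F : G →L[ℂ] G) : G →ₗ[ℂ] G)
  have hD : Rk D (k + k) := gauge_prod_rk _ _ hk0 hk1
  obtain ⟨r, hr⟩ : ∃ r : ℕ, LinearMap.rank F' = (r : Cardinal) := by
    obtain ⟨m, hm⟩ := fr_iff.1 hF
    exact Cardinal.lt_aleph0.1 (lt_of_le_of_lt hm Cardinal.natCast_lt_aleph0)
  have hFr : Rk F' r := le_of_eq hr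
  have e1 : F2 = (Yc ∘ₗ F' + D) ∘ₗ Xc - F2 ∘ₗ E := by
    apply LinearMap.ext
    rintro ⟨a, b⟩
    refine Prod.ext ?_ ?_
    · show F a = (Y0 (F (X0 a + X1 b)) + (F (Y0 (X0 a + X1 b)) - Y0 (F (X0 a + X1 b)))) -
        F ((Y0 (X0 a) - a) + Y0 (X1 b))
      simp only [map_add, map_sub]
      abel
    · show F b = (Y1 (F (X0 a + X1 b)) + (F (Y1 (X0 a + X1 b)) - Y1 (F (X0 a + X1 b)))) -
        F (Y1 (X0 a) + (Y1 (X1 b) - b))
      simp only [map_add, map_sub]
      abel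
  have h2 : Rk F2 ((r + (k + k)) + ((c00 + c10) + (c01 + c11))) := by
    rw [e1]
    exact (((hFr.comp_left _).add hD).comp_right _).sub (hE.comp_left _)
  have h3 : LinearMap.rank F' + LinearMap.rank F' ≤
      (((r + (k + k)) + ((c00 + c10) + (c01 + c11)) : ℕ) : Cardinal) :=
    (gauge_prod_rank F').trans h2
  rw [hr] at h3
  have h4 : r + r ≤ (r + (k + k)) + ((c00 + c10) + (c01 + c11)) := by exact_mod_cast h3
  have h5 : r ≤ 2 * k + ((c00 + c10) + (c01 + c11)) := by omega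
  exact hFr.mono h5

-- J7
theorem wot_lim {X G : Type} [NormedAddCommGroup X] [NormedSpace ℂ X] [NormedAddCommGroup G]
    [InnerProductSpace ℂ G] [CompleteSpace G] (A : ℕ → X →L[ℂ] G) (C : ℝ) (hA : ∀ n, ‖A n‖ ≤ C) :
    ∃ B : X →L[ℂ] G, ‖B‖ ≤ C ∧ ∀ x g, Tendsto (fun n => ⟪g, A n x⟫_ℂ) (hyperfilter ℕ : Filter ℕ) (𝓝 ⟪g, B x⟫_ℂ) := by
  have hC : 0 ≤ C := (norm_nonneg _).trans (hA 0)
  have hb : ∀ x g n, ‖⟪A n x, g⟫_ℂ‖ ≤ C * ‖x‖ * ‖g‖ := by
    intro x g n
    refine (norm_inner_le_norm _ _).trans ?_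
    exact mul_le_mul_of_nonneg_right (((A n).le_opNorm x).trans
      (mul_le_mul_of_nonneg_right (hA n) (norm_nonneg _))) (norm_nonneg _)
  have hex : ∀ x g, ∃ z : ℂ, ‖z‖ ≤ C * ‖x‖ * ‖g‖ ∧
      Tendsto (fun n => ⟪A n x, g⟫_ℂ) (hyperfilter ℕ : Filter ℕ) (𝓝 z) := by
    intro x g
    have hcpt : IsCompact (Metric.closedBall (0 : ℂ) (C * ‖x‖ * ‖g‖)) := isCompact_closedBall _ _
    obtain ⟨z, hz, hlim⟩ := hcpt.ultrafilter_le_nhds ((hyperfilter ℕ).map (fun n => ⟪A n x, g⟫_ℂ))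
      (by
        rw [le_principal_iff]
        refine mem_map.2 (univ_mem' (fun n => ?_))
        simpa [Metric.mem_closedBall, dist_zero_right] using hb x g n)
    exact ⟨z, by simpa [Metric.mem_closedBall, dist_zero_right] using hz, hlim⟩
  choose β hβ1 hβ2 using hex
  let ℓ : X → (G →L[ℂ] ℂ) := fun x => LinearMap.mkContinuous
    { toFun := fun g => β x g
      map_add' := fun g h => by
        refine tendsto_nhds_unique (hβ2 x (g + h)) ?_
        refine ((hβ2 x g).add (hβ2 x h)).congr (fun n => ?_)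
        rw [inner_add_right]
      map_smul' := fun c g => by
        refine tendsto_nhds_unique (hβ2 x (c • g)) ?_
        refine ((hβ2 x g).const_mul c).congr (fun n => ?_)
        rw [inner_smul_right] } (C * ‖x‖) (fun g => hβ1 x g)
  have hℓ : ∀ x, ‖ℓ x‖ ≤ C * ‖x‖ := fun x =>
    LinearMap.mkContinuous_norm_le _ (mul_nonneg hC (norm_nonneg _)) _
  let B0 : X → G := fun x => (InnerProductSpace.toDual ℂ G).symm (ℓ x)
  have hB0 : ∀ x g, ⟪B0 x, g⟫_ℂ = β x g := fun x g => by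
    simp only [B0]
    rw [InnerProductSpace.toDual_symm_apply]
    rfl
  let B : X →L[ℂ] G := LinearMap.mkContinuous
    { toFun := B0
      map_add' := fun x y => by
        refine ext_inner_right ℂ (fun g => ?_)
        rw [inner_add_left, hB0, hB0, hB0]
        refine tendsto_nhds_unique (hβ2 (x + y) g) ?_
        refine ((hβ2 x g).add (hβ2 y g)).congr (fun n => ?_)
        rw [map_add, inner_add_left]
      map_smul' := fun c x => by
        refine ext_inner_right ℂ (fun g => ?_)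
        rw [RingHom.id_apply, inner_smul_left, hB0, hB0]
        refine tendsto_nhds_unique (hβ2 (c • x) g) ?_
        refine ((hβ2 x g).const_mul _).congr (fun n => ?_)
        rw [map_smul, inner_smul_left] } C (fun x => by
      show ‖(InnerProductSpace.toDual ℂ G).symm (ℓ x)‖ ≤ C * ‖x‖
      rw [LinearIsometryEquiv.norm_map]
      exact hℓ x)
  refine ⟨B, LinearMap.mkContinuous_norm_le _ hC _, fun x g => ?_⟩
  have h1 : ⟪g, B x⟫_ℂ = (starRingEnd ℂ) (β x g) := by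
    rw [← hB0 x g, inner_conj_symm]
    rfl
  rw [h1]
  have h2 := (Complex.continuous_conj.tendsto (β x g)).comp (hβ2 x g)
  refine h2.congr (fun n => ?_)
  simp only [Function.comp]
  rw [inner_conj_symm]

-- J8
theorem rk_lim {X G : Type} [AddCommGroup X] [Module ℂ X] [NormedAddCommGroup G] [InnerProductSpace ℂ G]
    (A : ℕ → X →ₗ[ℂ] G) (B : X →ₗ[ℂ] G) (r : ℕ)
    (hAB : ∀ x g, Tendsto (fun n => ⟪g, A n x⟫_ℂ) (hyperfilter ℕ : Filter ℕ) (𝓝 ⟪g, B x⟫_ℂ))
    (h : ∀ᶠ n in (hyperfilter ℕ : Filter ℕ), Rk (A n) r) : Rk B r := by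
  by_contra hB
  have h1 : (r : Cardinal) < Module.rank ℂ (LinearMap.range B) := not_le.1 hB
  have h2 : ((r + 1 : ℕ) : Cardinal) ≤ Module.rank ℂ (LinearMap.range B) := by
    rw [Nat.cast_add_one]
    exact Cardinal.natCast_add_one_le_iff.2 h1
  obtain ⟨v, hv⟩ := Module.le_rank_iff.1 h2
  have hx : ∀ i, ∃ x, B x = (v i : G) := fun i => (v i).2
  choose x hx using hx
  have hLI : LinearIndependent ℂ (fun i => B (x i)) := by
    have h3 := hv.map' (LinearMap.range B).subtype (Submodule.ker_subtype _)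
    have h4 : (fun i => B (x i)) = ⇑(LinearMap.range B).subtype ∘ v := by
      funext i
      exact hx i
    rw [h4]
    exact h3
  have hdet : (Matrix.gram ℂ (fun i => B (x i))).det ≠ 0 :=
    Matrix.det_gram_ne_zero_iff_linearIndependent.2 hLI
  have hlim : Tendsto (fun n => (Matrix.of fun i j => ⟪B (x i), A n (x j)⟫_ℂ :
      Matrix (Fin (r + 1)) (Fin (r + 1)) ℂ)) (hyperfilter ℕ : Filter ℕ)
      (𝓝 (Matrix.gram ℂ (fun i => B (x i)))) := by
    refine tendsto_pi_nhds.2 (fun i => ?_)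
    refine tendsto_pi_nhds.2 (fun j => ?_)
    exact hAB (x j) (B (x i))
  have hlim2 : Tendsto (fun n => (Matrix.of fun i j => ⟪B (x i), A n (x j)⟫_ℂ :
      Matrix (Fin (r + 1)) (Fin (r + 1)) ℂ).det) (hyperfilter ℕ : Filter ℕ)
      (𝓝 (Matrix.gram ℂ (fun i => B (x i))).det) :=
    ((continuous_id.matrix_det).tendsto _).comp hlim
  have hev := hlim2.eventually_ne hdet
  obtain ⟨n, hn1, hn2⟩ := (hev.and h).exists
  have hLn : LinearIndependent ℂ (fun i => A n (x i)) := by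
    rw [Fintype.linearIndependent_iff]
    intro c hc
    have h3 : Matrix.mulVec (Matrix.of fun i j => ⟪B (x i), A n (x j)⟫_ℂ :
        Matrix (Fin (r + 1)) (Fin (r + 1)) ℂ) c = 0 := by
      funext i
      simp only [Matrix.mulVec, dotProduct, Matrix.of_apply, Pi.zero_apply]
      have h4 : ⟪B (x i), ∑ j, c j • A n (x j)⟫_ℂ = 0 := by rw [hc, inner_zero_right]
      rw [inner_sum] at h4
      rw [← h4]
      refine Finset.sum_congr rfl (fun j _ => ?_)
      rw [inner_smul_right, mul_comm]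
    have h5 := Matrix.eq_zero_of_mulVec_eq_zero hn1 h3
    intro i
    rw [h5]
    rfl
  have hLn' : LinearIndependent ℂ (fun i => (⟨A n (x i), ⟨x i, rfl⟩⟩ : LinearMap.range (A n))) := by
    apply LinearIndependent.of_comp (LinearMap.range (A n)).subtype
    exact hLn
  have h6 : ((r + 1 : ℕ) : Cardinal) ≤ Module.rank ℂ (LinearMap.range (A n)) :=
    Module.le_rank_iff.2 ⟨_, hLn'⟩
  have h7 : Module.rank ℂ (LinearMap.range (A n)) ≤ (r : Cardinal) := hn2
  have h8 := h6.trans h7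
  have h9 : r + 1 ≤ r := by exact_mod_cast h8
  omega

-- J9 (needs J4, J5, J6 ..)
theorem amp_mul' {X : Type} [NormedAddCommGroup X] [InnerProductSpace ℂ X] [CompleteSpace X]
    (y z : X →L[ℂ] X) : amp (y * z) = amp y * amp z := by
  have := (ampHom (X := X)).map_mul y z
  simpa using this

theorem amp_one' {X : Type} [NormedAddCommGroup X] [InnerProductSpace ℂ X] [CompleteSpace X] :
    amp (1 : X →L[ℂ] X) = 1 := by
  have := (ampHom (X := X)).map_one
  simpa using this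

theorem amp_zero' {X : Type} [NormedAddCommGroup X] [InnerProductSpace ℂ X] [CompleteSpace X] :
    amp (0 : X →L[ℂ] X) = 0 := by
  have := (ampHom (X := X)).map_zero
  simpa using this

/-- liftable with bound `n` -/
def LP {G : Type} [NormedAddCommGroup G] [NormedSpace ℂ G]
    (τ : (G →L[ℂ] G) →ₗ[ℂ] (G →L[ℂ] G)) (Y0 Y1 : G →L[ℂ] G) (n : ℕ) (z : G →L[ℂ] G) : Prop :=
  ∃ T : G →L[ℂ] G, FR (T - τ z) ∧ ‖T‖ ≤ 2 ^ n ∧ Gam Y0 Y1 T n

theorem LP.mono {G : Type} [NormedAddCommGroup G] [NormedSpace ℂ G]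
    {τ : (G →L[ℂ] G) →ₗ[ℂ] (G →L[ℂ] G)} {Y0 Y1 : G →L[ℂ] G} {m n : ℕ} {z : G →L[ℂ] G}
    (hmn : m ≤ n) (h : LP τ Y0 Y1 m z) : LP τ Y0 Y1 n z := by
  obtain ⟨T, h1, h2, h3, h4⟩ := h
  exact ⟨T, h1, h2.trans (pow_le_pow_right₀ (by norm_num) hmn), h3.mono hmn, h4.mono hmn⟩

theorem gam_mul_aux {G : Type} [NormedAddCommGroup G] [NormedSpace ℂ G] {Y T T' : G →L[ℂ] G}
    {m n : ℕ} (h : Rk ((T * Y - Y * T : G →L[ℂ] G) : G →ₗ[ℂ] G) m)
    (h' : Rk ((T' * Y - Y * T' : G →L[ℂ] G) : G →ₗ[ℂ] G) n) :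
    Rk ((T * T' * Y - Y * (T * T') : G →L[ℂ] G) : G →ₗ[ℂ] G) (m + n) := by
  have e : ((T * T' * Y - Y * (T * T') : G →L[ℂ] G) : G →ₗ[ℂ] G) =
      ((T * Y - Y * T : G →L[ℂ] G) : G →ₗ[ℂ] G) ∘ₗ (T' : G →ₗ[ℂ] G) +
      (T : G →ₗ[ℂ] G) ∘ₗ ((T' * Y - Y * T' : G →L[ℂ] G) : G →ₗ[ℂ] G) := by
    have e1 : T * T' * Y - Y * (T * T') = (T * Y - Y * T) * T' + T * (T' * Y - Y * T') := by
      noncomm_ring
    rw [e1]
    rfl
  rw [e]
  exact (h.comp_right _).add (h'.comp_left _)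

theorem LP.mul {G : Type} [NormedAddCommGroup G] [NormedSpace ℂ G]
    {τ : (G →L[ℂ] G) →ₗ[ℂ] (G →L[ℂ] G)} (hτ : NA τ) {Y0 Y1 : G →L[ℂ] G} {m n : ℕ}
    {y z : G →L[ℂ] G} (h : LP τ Y0 Y1 m y) (h' : LP τ Y0 Y1 n z) : LP τ Y0 Y1 (m + n) (y * z) := by
  obtain ⟨T, h1, h2, h3, h4⟩ := h
  obtain ⟨T', h1', h2', h3', h4'⟩ := h'
  refine ⟨T * T', ?_, ?_, gam_mul_aux h3 h3', gam_mul_aux h4 h4'⟩
  · have e : T * T' - τ y * τ z = T * (T' - τ z) + (T - τ y) * τ z := by noncomm_ring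
    have e1 : FR (T * T' - τ y * τ z) := by
      rw [e]
      exact (h1'.mul_left T).add (h1.mul_right (τ z))
    exact e1.trans (hτ.mul y z).symm
  · rw [pow_add]
    exact (norm_mul_le _ _).trans (mul_le_mul h2 h2' (norm_nonneg _) (by positivity))

theorem LP.ex {G : Type} [NormedAddCommGroup G] [NormedSpace ℂ G]
    {τ : (G →L[ℂ] G) →ₗ[ℂ] (G →L[ℂ] G)} (hτ : NA τ) {y0 y1 z : G →L[ℂ] G}
    (h0 : z * y0 = y0 * z) (h1 : z * y1 = y1 * z) : ∃ n, LP τ (τ y0) (τ y1) n z := by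
  have key : ∀ w : G →L[ℂ] G, z * w = w * z → FR (τ z * τ w - τ w * τ z) := by
    intro w hw
    have a1 := hτ.mul z w
    have a2 := hτ.mul w z
    rw [hw] at a1
    exact a1.symm.trans a2
  obtain ⟨k0, hk0⟩ := fr_iff.1 (key y0 h0)
  obtain ⟨k1, hk1⟩ := fr_iff.1 (key y1 h1)
  obtain ⟨k2, hk2⟩ := pow_unbounded_of_one_lt ‖τ z‖ (one_lt_two (α := ℝ))
  refine ⟨max k0 (max k1 k2), τ z, ?_, ?_, ?_, ?_⟩
  · rw [sub_self]; exact FR.zero
  · exact hk2.le.trans (pow_le_pow_right₀ (by norm_num) (by omega))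
  · exact hk0.mono (by omega)
  · exact hk1.mono (by omega)

/-- bounded gauge and bounded norm lifts -/
theorem lifts_bdd {E : Type} [NormedAddCommGroup E] [InnerProductSpace ℂ E] [CompleteSpace E]
    (κ : E ≃ₗᵢ[ℂ] L2 E) (τ : (L2 (L2 E) →L[ℂ] L2 (L2 E)) →ₗ[ℂ] (L2 (L2 E) →L[ℂ] L2 (L2 E))) (hτ : NA τ) :
    ∃ (Y0 Y1 : L2 (L2 E) →L[ℂ] L2 (L2 E)) (c k : ℕ),
      (∀ F : L2 (L2 E) →L[ℂ] L2 (L2 E), FR F → ∀ k, Gam Y0 Y1 F k →
        Rk (F : L2 (L2 E) →ₗ[ℂ] L2 (L2 E)) (2 * k + c)) ∧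
      (∀ y : E →L[ℂ] E, ‖y‖ ≤ 1 → ∃ T : L2 (L2 E) →L[ℂ] L2 (L2 E), FR (T - τ (amp (amp y))) ∧
        ‖T‖ ≤ 2 ^ k ∧ Gam Y0 Y1 T k) ∧
      (∀ f : PEquiv ℕ ℕ, ∃ T : L2 (L2 E) →L[ℂ] L2 (L2 E), FR (T - τ (V f)) ∧
        ‖T‖ ≤ 2 ^ k ∧ Gam Y0 Y1 T k) := by
  obtain ⟨uu, hu1, hu2, -⟩ := exists_uu
  -- inner operators
  let x : ℕ → (L2 E →L[ℂ] L2 E) := fun i => V (uu i)
  let y : ℕ → (L2 E →L[ℂ] L2 E) := fun i => V (uu i).symm
  have hyx : ∀ i, y i * x i = 1 := by
    intro i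
    show (V (uu i).symm : L2 E →L[ℂ] L2 E) * V (uu i) = 1
    rw [← V_trans, hu1, V_refl]
  have hyx' : ∀ i j, i ≠ j → y i * x j = 0 := by
    intro i j hij
    show (V (uu i).symm : L2 E →L[ℂ] L2 E) * V (uu j) = 0
    rw [← V_trans, hu2 i j hij, V_bot]
  have hd : ∀ i, FR (τ (amp (y i)) * τ (amp (x i)) - 1) := by
    intro i
    have a1 := hτ.mul (amp (y i)) (amp (x i))
    rw [← amp_mul', hyx, amp_one'] at a1
    exact a1.symm.trans hτ.one
  have ho : ∀ i j, i ≠ j → FR (τ (amp (y i)) * τ (amp (x j))) := by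
    intro i j hij
    have a1 := hτ.mul (amp (y i)) (amp (x j))
    rw [← amp_mul', hyx' i j hij, amp_zero', map_zero, zero_sub] at a1
    have a2 := a1.neg
    rwa [neg_neg] at a2
  obtain ⟨c, hc⟩ := gauge (τ (amp (y 0))) (τ (amp (y 1))) (τ (amp (x 0))) (τ (amp (x 1)))
    (hd 0) (ho 0 1 (by decide)) (ho 1 0 (by decide)) (hd 1)
  obtain ⟨n1, hn1⟩ := bergman κ (fun n z => LP τ (τ (amp (y 0))) (τ (amp (y 1))) n (amp (amp z)))
    (fun m n z hmn h => LP.mono hmn h)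
    (fun z => by
      have hcomm : ∀ i, amp (amp z) * amp (y i) = amp (y i) * amp (amp z) := by
        intro i
        rw [← amp_mul', ← amp_mul']
        congr 1
        exact (V_amp (uu i).symm z).symm
      exact LP.ex hτ (hcomm 0) (hcomm 1))
    (fun m n z w h h' => by
      have := LP.mul hτ h h'
      rwa [← amp_mul', ← amp_mul'] at this)
  obtain ⟨n2, hn2⟩ := bergmanP (fun n f => LP τ (τ (amp (y 0))) (τ (amp (y 1))) n (V f))
    (fun m n z hmn h => LP.mono hmn h)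
    (fun f => LP.ex hτ (V_amp f (y 0)) (V_amp f (y 1)))
    (fun m n f g h h' => by
      have := LP.mul hτ h' h
      rwa [← V_trans, add_comm] at this)
  refine ⟨τ (amp (y 0)), τ (amp (y 1)), c, max n1 n2, hc, ?_, ?_⟩
  · intro z hz
    exact LP.mono (le_max_left _ _) (hn1 z hz)
  · intro f
    exact LP.mono (le_max_right _ _) (hn2 f)

-- J10
theorem gam_mul {G : Type} [NormedAddCommGroup G] [NormedSpace ℂ G] {Y0 Y1 A B : G →L[ℂ] G}
    {m n : ℕ} (hA : Gam Y0 Y1 A m) (hB : Gam Y0 Y1 B n) : Gam Y0 Y1 (A * B) (m + n) := by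
  have key : ∀ Y : G →L[ℂ] G, Rk ((A * Y - Y * A : G →L[ℂ] G) : G →ₗ[ℂ] G) m →
      Rk ((B * Y - Y * B : G →L[ℂ] G) : G →ₗ[ℂ] G) n →
      Rk ((A * B * Y - Y * (A * B) : G →L[ℂ] G) : G →ₗ[ℂ] G) (m + n) := by
    intro Y h1 h2
    have e : (A * B * Y - Y * (A * B) : G →L[ℂ] G) = (A * Y - Y * A) * B + A * (B * Y - Y * B) := by
      noncomm_ring
    rw [e]
    exact (h1.comp_right (B : G →ₗ[ℂ] G)).add (h2.comp_left (A : G →ₗ[ℂ] G))
  exact ⟨key Y0 hA.1 hB.1, key Y1 hA.2 hB.2⟩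

theorem gam_sub {G : Type} [NormedAddCommGroup G] [NormedSpace ℂ G] {Y0 Y1 A B : G →L[ℂ] G}
    {m n : ℕ} (hA : Gam Y0 Y1 A m) (hB : Gam Y0 Y1 B n) : Gam Y0 Y1 (A - B) (m + n) := by
  have key : ∀ Y : G →L[ℂ] G, Rk ((A * Y - Y * A : G →L[ℂ] G) : G →ₗ[ℂ] G) m →
      Rk ((B * Y - Y * B : G →L[ℂ] G) : G →ₗ[ℂ] G) n →
      Rk (((A - B) * Y - Y * (A - B) : G →L[ℂ] G) : G →ₗ[ℂ] G) (m + n) := by
    intro Y h1 h2
    have e : ((A - B) * Y - Y * (A - B) : G →L[ℂ] G) = (A * Y - Y * A) - (B * Y - Y * B) := by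
      noncomm_ring
    rw [e]
    exact h1.sub h2
  exact ⟨key Y0 hA.1 hB.1, key Y1 hA.2 hB.2⟩

theorem gam_one {G : Type} [NormedAddCommGroup G] [NormedSpace ℂ G] (Y0 Y1 : G →L[ℂ] G) :
    Gam Y0 Y1 1 0 := by
  have key : ∀ Y : G →L[ℂ] G, Rk (((1 : G →L[ℂ] G) * Y - Y * 1 : G →L[ℂ] G) : G →ₗ[ℂ] G) 0 := by
    intro Y
    rw [one_mul, mul_one, sub_self]
    show LinearMap.rank (0 : G →ₗ[ℂ] G) ≤ ((0 : ℕ) : Cardinal)
    rw [LinearMap.rank_zero]
    exact zero_le
  exact ⟨key Y0, key Y1⟩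

theorem rk_smul {X Y : Type} [AddCommGroup X] [Module ℂ X] [AddCommGroup Y] [Module ℂ Y]
    {A : X →ₗ[ℂ] Y} {m : ℕ} (c : ℂ) (hA : Rk A m) : Rk (c • A) m :=
  hA.comp_left (c • LinearMap.id)

theorem rk_zero {X Y : Type} [AddCommGroup X] [Module ℂ X] [AddCommGroup Y] [Module ℂ Y]
    (m : ℕ) : Rk (0 : X →ₗ[ℂ] Y) m := by
  show LinearMap.rank (0 : X →ₗ[ℂ] Y) ≤ (m : Cardinal)
  rw [LinearMap.rank_zero]
  exact zero_le

theorem exists_RT {E : Type} [NormedAddCommGroup E] [InnerProductSpace ℂ E] [CompleteSpace E]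
    (κ : E ≃ₗᵢ[ℂ] L2 E) (τ : (L2 (L2 E) →L[ℂ] L2 (L2 E)) →ₗ[ℂ] (L2 (L2 E) →L[ℂ] L2 (L2 E))) (hτ : NA τ) :
    ∃ (r : ℕ) (C : ℝ) (R T : ℕ → L2 (L2 E) →L[ℂ] L2 (L2 E)),
      (∀ n, ‖R n‖ ≤ C) ∧ (∀ n, ‖T n‖ ≤ C) ∧
      (∀ x g, Tendsto (fun n => ⟪g, R n x⟫_ℂ) (hyperfilter ℕ : Filter ℕ) (𝓝 0)) ∧
      (∀ n, Rk ((T n * R n - 1 : L2 (L2 E) →L[ℂ] L2 (L2 E)) : L2 (L2 E) →ₗ[ℂ] L2 (L2 E)) r) ∧
      (∀ y : E →L[ℂ] E, ∃ L : L2 (L2 E) →L[ℂ] L2 (L2 E), FR (L - τ (amp (amp y))) ∧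
        ∀ n, Rk ((L * R n - R n * L : L2 (L2 E) →L[ℂ] L2 (L2 E)) : L2 (L2 E) →ₗ[ℂ] L2 (L2 E)) r) := by
  obtain ⟨Y0, Y1, c, k, hg, hamp, hV⟩ := lifts_bdd κ τ hτ
  obtain ⟨uu, hu1, hu2, -⟩ := exists_uu
  choose S hS1 hS2 hS3 using fun n => hV (uu n)
  choose T hT1 hT2 hT3 using fun n => hV (uu n).symm
  -- products of lifts
  have hprod : ∀ A B a b : L2 (L2 E) →L[ℂ] L2 (L2 E), FR (A - τ a) → FR (B - τ b) →
      FR (A * B - τ (a * b)) := by
    intro A B a b h1 h2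
    have e : A * B - τ (a * b) = (A - τ a) * B + τ a * (B - τ b) - (τ (a * b) - τ a * τ b) := by
      noncomm_ring
    rw [e]
    exact ((h1.mul_right B).add (h2.mul_left (τ a))).sub (hτ.mul a b)
  have hTS1 : ∀ n, Rk ((T n * S n - 1 : L2 (L2 E) →L[ℂ] L2 (L2 E)) : L2 (L2 E) →ₗ[ℂ] L2 (L2 E))
      (4 * k + c) := by
    intro n
    have h1 := hprod _ _ _ _ (hT1 n) (hS1 n)
    rw [← V_trans, hu1, V_refl] at h1
    have h2 : FR (T n * S n - 1) := h1.trans hτ.one
    have h3 := gam_sub (gam_mul (hT3 n) (hS3 n)) (gam_one Y0 Y1)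
    exact (hg _ h2 _ h3).mono (by omega)
  have hTS0 : ∀ m n, m ≠ n →
      Rk ((T m * S n : L2 (L2 E) →L[ℂ] L2 (L2 E)) : L2 (L2 E) →ₗ[ℂ] L2 (L2 E)) (4 * k + c) := by
    intro m n hmn
    have h1 := hprod _ _ _ _ (hT1 m) (hS1 n)
    rw [← V_trans, hu2 m n hmn, V_bot, map_zero, sub_zero] at h1
    exact (hg _ h1 _ (gam_mul (hT3 m) (hS3 n))).mono (by omega)
  obtain ⟨Si, hSi1, hSi2⟩ := wot_lim S (2 ^ k) hS2
  have hTSi : ∀ m, Rk ((T m * Si : L2 (L2 E) →L[ℂ] L2 (L2 E)) : L2 (L2 E) →ₗ[ℂ] L2 (L2 E))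
      (4 * k + c) := by
    intro m
    refine rk_lim (fun n => ((T m * S n : L2 (L2 E) →L[ℂ] L2 (L2 E)) : L2 (L2 E) →ₗ[ℂ] L2 (L2 E)))
      _ _ ?_ ?_
    · intro x g
      have h1 := hSi2 x (ContinuousLinearMap.adjoint (T m) g)
      have h2 : (fun n => ⟪ContinuousLinearMap.adjoint (T m) g, S n x⟫_ℂ) =
          fun n => ⟪g, T m (S n x)⟫_ℂ := by
        funext n
        rw [ContinuousLinearMap.adjoint_inner_left]
      rw [h2, ContinuousLinearMap.adjoint_inner_left] at h1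
      exact h1
    · have h1 : ∀ᶠ n in (hyperfilter ℕ : Filter ℕ), n ≠ m := by
        have h2 : ({m}ᶜ : Set ℕ) ∈ (hyperfilter ℕ : Filter ℕ) :=
          mem_hyperfilter_of_finite_compl (by simp)
        filter_upwards [h2] with n hn
        exact hn
      filter_upwards [h1] with n hn
      exact hTS0 m n (Ne.symm hn)
  refine ⟨2 * (8 * k + c), 2 * 2 ^ k, fun n => S n - Si, T, ?_, ?_, ?_, ?_, ?_⟩
  · intro n
    refine (norm_sub_le _ _).trans ?_
    have := hS2 n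
    linarith
  · intro n
    have h0 : (0:ℝ) < 2 ^ k := by positivity
    have := hT2 n
    linarith
  · intro x g
    have h1 := (hSi2 x g).sub (tendsto_const_nhds (x := ⟪g, Si x⟫_ℂ))
    rw [sub_self] at h1
    refine h1.congr fun n => ?_
    rw [sub_apply, inner_sub_right]
  · intro n
    have e : T n * (S n - Si) - 1 = (T n * S n - 1) - T n * Si := by noncomm_ring
    show Rk ((T n * (S n - Si) - 1 : L2 (L2 E) →L[ℂ] L2 (L2 E)) : L2 (L2 E) →ₗ[ℂ] L2 (L2 E)) _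
    rw [e]
    exact ((hTS1 n).sub (hTSi n)).mono (by omega)
  · -- unit ball
    have hball : ∀ y : E →L[ℂ] E, ‖y‖ ≤ 1 → ∃ L : L2 (L2 E) →L[ℂ] L2 (L2 E),
        FR (L - τ (amp (amp y))) ∧ ∀ n, Rk ((L * (S n - Si) - (S n - Si) * L :
          L2 (L2 E) →L[ℂ] L2 (L2 E)) : L2 (L2 E) →ₗ[ℂ] L2 (L2 E)) (2 * (8 * k + c)) := by
      intro y hy
      obtain ⟨L, hL1, hL2, hL3⟩ := hamp y hy
      have hc : ∀ n, Rk ((L * S n - S n * L : L2 (L2 E) →L[ℂ] L2 (L2 E)) :
          L2 (L2 E) →ₗ[ℂ] L2 (L2 E)) (8 * k + c) := by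
        intro n
        have h1 := hprod _ _ _ _ hL1 (hS1 n)
        have h2 := hprod _ _ _ _ (hS1 n) hL1
        rw [V_amp] at h2
        have h3 : FR (L * S n - S n * L) := h1.trans h2.symm
        have h4 := gam_sub (gam_mul hL3 (hS3 n)) (gam_mul (hS3 n) hL3)
        exact (hg _ h3 _ h4).mono (by omega)
      have hci : Rk ((L * Si - Si * L : L2 (L2 E) →L[ℂ] L2 (L2 E)) :
          L2 (L2 E) →ₗ[ℂ] L2 (L2 E)) (8 * k + c) := by
        refine rk_lim (fun n => ((L * S n - S n * L : L2 (L2 E) →L[ℂ] L2 (L2 E)) :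
          L2 (L2 E) →ₗ[ℂ] L2 (L2 E))) _ _ ?_ (Eventually.of_forall hc)
        intro x g
        have h1 := (hSi2 x (ContinuousLinearMap.adjoint L g)).sub (hSi2 (L x) g)
        have h2 : (fun n => ⟪ContinuousLinearMap.adjoint L g, S n x⟫_ℂ - ⟪g, S n (L x)⟫_ℂ) =
            fun n => ⟪g, L (S n x) - S n (L x)⟫_ℂ := by
          funext n
          rw [ContinuousLinearMap.adjoint_inner_left, inner_sub_right]
        rw [h2, ContinuousLinearMap.adjoint_inner_left, ← inner_sub_right] at h1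
        exact h1
      refine ⟨L, hL1, fun n => ?_⟩
      have e : L * (S n - Si) - (S n - Si) * L = (L * S n - S n * L) - (L * Si - Si * L) := by
        noncomm_ring
      rw [e]
      exact ((hc n).sub hci).mono (by omega)
    intro y
    rcases eq_or_ne y 0 with hy | hy
    · subst hy
      refine ⟨0, ?_, fun n => ?_⟩
      · have e : (amp (amp (0 : E →L[ℂ] E)) : L2 (L2 E) →L[ℂ] L2 (L2 E)) = 0 := by
          ext v n m
          rfl
        rw [e, map_zero, sub_self]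
        exact FR.zero
      · rw [zero_mul, mul_zero, sub_self]
        exact rk_zero _
    · have hyn : 0 < ‖y‖ := norm_pos_iff.2 hy
      obtain ⟨L, hL1, hL2⟩ := hball (((‖y‖ : ℝ) : ℂ)⁻¹ • y) (by
        rw [norm_smul, norm_inv, Complex.norm_real, norm_norm, inv_mul_cancel₀ hyn.ne'])
      refine ⟨((‖y‖ : ℝ) : ℂ) • L, ?_, fun n => ?_⟩
      · have hne : ((‖y‖ : ℝ) : ℂ) ≠ 0 := by exact_mod_cast hyn.ne'
        have e : (amp (amp y) : L2 (L2 E) →L[ℂ] L2 (L2 E)) =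
            ((‖y‖ : ℝ) : ℂ) • amp (amp (((‖y‖ : ℝ) : ℂ)⁻¹ • y)) := by
          ext v n m
          show y (v n m) = ((‖y‖ : ℝ) : ℂ) • (((‖y‖ : ℝ) : ℂ)⁻¹ • y (v n m))
          rw [smul_smul, mul_inv_cancel₀ hne, one_smul]
        rw [e, map_smul, ← smul_sub]
        exact hL1.smul _
      · have e : ((‖y‖ : ℝ) : ℂ) • L * (S n - Si) - (S n - Si) * (((‖y‖ : ℝ) : ℂ) • L) =
            ((‖y‖ : ℝ) : ℂ) • (L * (S n - Si) - (S n - Si) * L) := by
          rw [smul_mul_assoc, mul_smul_comm, smul_sub]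
        show Rk ((((‖y‖ : ℝ) : ℂ) • L * (S n - Si) - (S n - Si) * (((‖y‖ : ℝ) : ℂ) • L) :
          L2 (L2 E) →L[ℂ] L2 (L2 E)) : L2 (L2 E) →ₗ[ℂ] L2 (L2 E)) _
        rw [e]
        exact rk_smul _ (hL2 n)

-- J11
theorem h441_quot (Z : Type) [AddCommGroup Z] [Module ℂ Z] (p : Seminorm ℂ Z) :
    ∃ (HH : Type) (_ : NormedAddCommGroup HH) (_ : NormedSpace ℂ HH) (c : Z →ₗ[ℂ] HH),
      Function.Surjective c ∧ ∀ z, ‖c z‖ = p z := by
  letI i1 : SeminormedAddCommGroup Z := p.toAddGroupSeminorm.toSeminormedAddCommGroup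
  letI i2 : NormedSpace ℂ Z :=
    { (inferInstance : Module ℂ Z) with
      norm_smul_le := fun a b => (map_smul_eq_mul p a b).le }
  exact ⟨SeparationQuotient Z, inferInstance, inferInstance,
    (SeparationQuotient.mkCLM ℂ Z : Z →ₗ[ℂ] SeparationQuotient Z),
    SeparationQuotient.surjective_mk, fun z => SeparationQuotient.norm_mk z⟩


theorem exists_HH (G : Type) [NormedAddCommGroup G] [NormedSpace ℂ G] :
    ∃ (HH : Type) (_ : NormedAddCommGroup HH) (_ : NormedSpace ℂ HH) (c : lp (fun _ : ℕ => G) ∞ →ₗ[ℂ] HH),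
      Function.Surjective c ∧ ∀ z, Tendsto (fun n => ‖z n‖) (hyperfilter ℕ : Filter ℕ) (𝓝 ‖c z‖) := by
  have hlim : ∀ z : lp (fun _ : ℕ => G) ∞, ∃ m : ℝ,
      Tendsto (fun n => ‖z n‖) (hyperfilter ℕ : Filter ℕ) (𝓝 m) := by
    intro z
    obtain ⟨m, _, hm⟩ := (isCompact_Icc (a := (0 : ℝ)) (b := ‖z‖)).ultrafilter_le_nhds
      ((hyperfilter ℕ).map (fun n => ‖z n‖)) (by
        rw [le_principal_iff]
        refine Filter.Eventually.of_forall (f := (hyperfilter ℕ : Filter ℕ)) fun n => ?_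
        exact ⟨norm_nonneg _, lp.norm_apply_le_norm (by simp) z n⟩)
    exact ⟨m, hm⟩
  choose f hf using hlim
  let p : Seminorm ℂ (lp (fun _ : ℕ => G) ∞) := Seminorm.of f
    (fun x y => le_of_tendsto_of_tendsto' (hf (x + y)) ((hf x).add (hf y)) (fun n => norm_add_le _ _))
    (fun a x => tendsto_nhds_unique (hf (a • x))
      (((hf x).const_mul ‖a‖).congr (fun n => (norm_smul a (x n)).symm)))
  obtain ⟨HH, i1, i2, c, hc, hcn⟩ := h441_quot _ p
  refine ⟨HH, i1, i2, c, hc, fun z => ?_⟩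
  rw [hcn]
  exact hf z

section HH

variable {G HH : Type} [NormedAddCommGroup G] [NormedSpace ℂ G] [NormedAddCommGroup HH] [NormedSpace ℂ HH]

-- J12
/-- a bounded sequence stays bounded after applying `T` -/
theorem pi0_memℓp (T : G →L[ℂ] G) (z : lp (fun _ : ℕ => G) ∞) :
    Memℓp (fun n => T (z n)) (∞ : ℝ≥0∞) := by
  refine memℓp_infty ⟨‖T‖ * ‖z‖, ?_⟩
  rintro _ ⟨n, rfl⟩
  exact (T.le_opNorm _).trans
    (mul_le_mul_of_nonneg_left (lp.norm_apply_le_norm (by simp) z n) (norm_nonneg _))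

/-- pointwise application of `T` -/
def pi0MT (T : G →L[ℂ] G) (z : lp (fun _ : ℕ => G) ∞) : lp (fun _ : ℕ => G) ∞ :=
  ⟨fun n => T (z n), pi0_memℓp T z⟩

theorem pi0MT_apply (T : G →L[ℂ] G) (z : lp (fun _ : ℕ => G) ∞) (n : ℕ) :
    pi0MT T z n = T (z n) := rfl

theorem pi0MT_bound (c : lp (fun _ : ℕ => G) ∞ →ₗ[ℂ] HH)
    (hn : ∀ z, Tendsto (fun n => ‖z n‖) (hyperfilter ℕ : Filter ℕ) (𝓝 ‖c z‖))
    (T : G →L[ℂ] G) (z : lp (fun _ : ℕ => G) ∞) : ‖c (pi0MT T z)‖ ≤ ‖T‖ * ‖c z‖ := by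
  refine le_of_tendsto_of_tendsto (hn (pi0MT T z)) ((hn z).const_mul ‖T‖)
    (Eventually.of_forall fun n => ?_)
  exact T.le_opNorm _

theorem pi0MT_sub (T : G →L[ℂ] G) (z z' : lp (fun _ : ℕ => G) ∞) :
    pi0MT T (z - z') = pi0MT T z - pi0MT T z' := by
  ext n
  exact map_sub T (z n) (z' n)

theorem pi0MT_congr (c : lp (fun _ : ℕ => G) ∞ →ₗ[ℂ] HH)
    (hn : ∀ z, Tendsto (fun n => ‖z n‖) (hyperfilter ℕ : Filter ℕ) (𝓝 ‖c z‖))
    (T : G →L[ℂ] G) (z z' : lp (fun _ : ℕ => G) ∞) (h : c z = c z') :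
    c (pi0MT T z) = c (pi0MT T z') := by
  have h1 := pi0MT_bound c hn T (z - z')
  rw [pi0MT_sub, map_sub, map_sub, h, sub_self, norm_zero, mul_zero] at h1
  exact sub_eq_zero.mp (norm_le_zero_iff.mp h1)

/-- the operator induced on the quotient -/
def pi0Op (c : lp (fun _ : ℕ => G) ∞ →ₗ[ℂ] HH) (hc : Function.Surjective c)
    (hn : ∀ z, Tendsto (fun n => ‖z n‖) (hyperfilter ℕ : Filter ℕ) (𝓝 ‖c z‖))
    (T : G →L[ℂ] G) : HH →L[ℂ] HH :=
  LinearMap.mkContinuous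
    { toFun := fun x => c (pi0MT T (Function.surjInv hc x))
      map_add' := fun x y => by
        rw [← map_add]
        have : pi0MT T (Function.surjInv hc x) + pi0MT T (Function.surjInv hc y)
            = pi0MT T (Function.surjInv hc x + Function.surjInv hc y) := by
          ext n
          exact (map_add T _ _).symm
        rw [this]
        apply pi0MT_congr c hn
        rw [map_add, Function.surjInv_eq hc, Function.surjInv_eq hc, Function.surjInv_eq hc]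
      map_smul' := fun a x => by
        rw [RingHom.id_apply, ← map_smul]
        have : a • pi0MT T (Function.surjInv hc x) = pi0MT T (a • Function.surjInv hc x) := by
          ext n
          exact (map_smul T a _).symm
        rw [this]
        apply pi0MT_congr c hn
        rw [map_smul, Function.surjInv_eq hc, Function.surjInv_eq hc] }
    ‖T‖ (fun x => by
      have h := pi0MT_bound c hn T (Function.surjInv hc x)
      rw [Function.surjInv_eq hc] at h
      exact h)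

theorem pi0Op_apply (c : lp (fun _ : ℕ => G) ∞ →ₗ[ℂ] HH) (hc : Function.Surjective c)
    (hn : ∀ z, Tendsto (fun n => ‖z n‖) (hyperfilter ℕ : Filter ℕ) (𝓝 ‖c z‖))
    (T : G →L[ℂ] G) (z : lp (fun _ : ℕ => G) ∞) :
    pi0Op c hc hn T (c z) = c (pi0MT T z) := by
  change c (pi0MT T (Function.surjInv hc (c z))) = c (pi0MT T z)
  apply pi0MT_congr c hn
  rw [Function.surjInv_eq hc]

theorem exists_pi0 (c : lp (fun _ : ℕ => G) ∞ →ₗ[ℂ] HH) (hc : Function.Surjective c)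
    (hn : ∀ z, Tendsto (fun n => ‖z n‖) (hyperfilter ℕ : Filter ℕ) (𝓝 ‖c z‖)) :
    ∃ π0 : (G →L[ℂ] G) →ₐ[ℂ] (HH →L[ℂ] HH), ∀ (T : G →L[ℂ] G) (z w : lp (fun _ : ℕ => G) ∞),
      (∀ n, w n = T (z n)) → π0 T (c z) = c w := by
  refine ⟨AlgHom.ofLinearMap
    { toFun := fun T => pi0Op c hc hn T
      map_add' := fun S T => by
        ext x
        obtain ⟨z, rfl⟩ := hc x
        rw [ContinuousLinearMap.add_apply, pi0Op_apply, pi0Op_apply, pi0Op_apply, ← map_add]
        congr 1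
      map_smul' := fun a T => by
        ext x
        obtain ⟨z, rfl⟩ := hc x
        rw [RingHom.id_apply, ContinuousLinearMap.smul_apply, pi0Op_apply, pi0Op_apply, ← map_smul]
        congr 1 }
    ?_ ?_, ?_⟩
  · ext x
    obtain ⟨z, rfl⟩ := hc x
    change pi0Op c hc hn 1 (c z) = c z
    rw [pi0Op_apply]
    congr 1
  · intro S T
    ext x
    obtain ⟨z, rfl⟩ := hc x
    change pi0Op c hc hn (S * T) (c z) = pi0Op c hc hn S (pi0Op c hc hn T (c z))
    rw [pi0Op_apply, pi0Op_apply, pi0Op_apply]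
    congr 1
  · intro T z w h
    change pi0Op c hc hn T (c z) = c w
    rw [pi0Op_apply]
    congr 1
    ext n
    exact (h n).symm

-- J13
/-- the bounded sequence of the values -/
def seqOf {X G : Type} [NormedAddCommGroup G] [NormedSpace ℂ G] [NormedAddCommGroup X] [NormedSpace ℂ X]
    (A : ℕ → X →L[ℂ] G) (C : ℝ) (hA : ∀ n, ‖A n‖ ≤ C) (x : X) : lp (fun _ : ℕ => G) ∞ :=
  ⟨fun n => A n x, memℓp_infty ⟨C * ‖x‖, by
    rintro _ ⟨n, rfl⟩
    exact ((A n).le_opNorm x).trans (mul_le_mul_of_nonneg_right (hA n) (norm_nonneg _))⟩⟩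

theorem exists_seqmap {X : Type} [NormedAddCommGroup X] [NormedSpace ℂ X]
    (c : lp (fun _ : ℕ => G) ∞ →ₗ[ℂ] HH)
    (hn : ∀ z, Tendsto (fun n => ‖z n‖) (hyperfilter ℕ : Filter ℕ) (𝓝 ‖c z‖))
    (A : ℕ → X →L[ℂ] G) (C : ℝ) (hA : ∀ n, ‖A n‖ ≤ C) :
    ∃ W : X →L[ℂ] HH, ∀ (x : X) (z : lp (fun _ : ℕ => G) ∞), (∀ n, z n = A n x) → W x = c z := by
  refine ⟨LinearMap.mkContinuous
    { toFun := fun x => c (seqOf A C hA x)
      map_add' := fun x y => by
        rw [← map_add]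
        congr 1
        ext n
        exact map_add (A n) x y
      map_smul' := fun a x => by
        rw [RingHom.id_apply, ← map_smul]
        congr 1
        ext n
        exact map_smul (A n) a x } C ?_, ?_⟩
  · intro x
    refine le_of_tendsto (hn (seqOf A C hA x)) (Filter.Eventually.of_forall fun n => ?_)
    exact ((A n).le_opNorm x).trans (mul_le_mul_of_nonneg_right (hA n) (norm_nonneg _))
  · intro x z hz
    show c (seqOf A C hA x) = c z
    congr 1
    ext n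
    exact (hz n).symm

end HH

section HH2

variable {G HH : Type} [NormedAddCommGroup G] [InnerProductSpace ℂ G] [CompleteSpace G] [NormedAddCommGroup HH]
  [NormedSpace ℂ HH]

-- J14
/-- evaluation on bounded sequences -/
def comapEv (n : ℕ) : lp (fun _ : ℕ => G) ∞ →L[ℂ] G :=
  LinearMap.mkContinuous
    { toFun := fun v => v n
      map_add' := fun _ _ => rfl
      map_smul' := fun _ _ => rfl } 1 (fun v => by
        rw [one_mul]
        exact lp.norm_apply_le_norm (by norm_num) v n)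

omit [CompleteSpace G] in
theorem comapEv_norm (n : ℕ) : ‖(comapEv n : lp (fun _ : ℕ => G) ∞ →L[ℂ] G)‖ ≤ 1 :=
  LinearMap.mkContinuous_norm_le _ zero_le_one _

omit [CompleteSpace G] in
theorem comapEv_apply (n : ℕ) (v : lp (fun _ : ℕ => G) ∞) : comapEv n v = v n := rfl

theorem comap_bound (c : lp (fun _ : ℕ => G) ∞ →ₗ[ℂ] HH)
    (hn : ∀ z, Tendsto (fun n => ‖z n‖) (hyperfilter ℕ : Filter ℕ) (𝓝 ‖c z‖))
    (T : ℕ → G →L[ℂ] G) (C : ℝ) (hT : ∀ n, ‖T n‖ ≤ C) (z : lp (fun _ : ℕ => G) ∞) (b : G)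
    (hb : Tendsto (fun n => ⟪b, T n (z n)⟫_ℂ) (hyperfilter ℕ : Filter ℕ) (𝓝 ⟪b, b⟫_ℂ)) :
    ‖b‖ ≤ C * ‖c z‖ := by
  have h1 : Tendsto (fun n => ‖⟪b, T n (z n)⟫_ℂ‖) (hyperfilter ℕ : Filter ℕ) (𝓝 ‖⟪b, b⟫_ℂ‖) :=
    hb.norm
  have h2 : Tendsto (fun n => ‖b‖ * (C * ‖z n‖)) (hyperfilter ℕ : Filter ℕ)
      (𝓝 (‖b‖ * (C * ‖c z‖))) := ((hn z).const_mul C).const_mul ‖b‖
  have h3 : ‖⟪b, b⟫_ℂ‖ ≤ ‖b‖ * (C * ‖c z‖) := by
    refine le_of_tendsto_of_tendsto h1 h2 (Eventually.of_forall fun n => ?_)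
    refine (norm_inner_le_norm _ _).trans (mul_le_mul_of_nonneg_left ?_ (norm_nonneg _))
    exact ((T n).le_opNorm _).trans (mul_le_mul_of_nonneg_right (hT n) (norm_nonneg _))
  rw [inner_self_eq_norm_sq_to_K] at h3
  have h4 : ‖((‖b‖ : ℂ)) ^ 2‖ = ‖b‖ * ‖b‖ := by
    rw [norm_pow, Complex.norm_real, norm_norm, sq]
  have h5 : ‖b‖ * ‖b‖ ≤ ‖b‖ * (C * ‖c z‖) := by
    rw [← h4]; exact h3
  rcases eq_or_lt_of_le (norm_nonneg b) with h6 | h6
  · rw [← h6]
    have hC : 0 ≤ C := (norm_nonneg _).trans (hT 0)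
    positivity
  · exact le_of_mul_le_mul_left h5 h6

theorem exists_comap (c : lp (fun _ : ℕ => G) ∞ →ₗ[ℂ] HH) (hc : Function.Surjective c)
    (hn : ∀ z, Tendsto (fun n => ‖z n‖) (hyperfilter ℕ : Filter ℕ) (𝓝 ‖c z‖))
    (T : ℕ → G →L[ℂ] G) (C : ℝ) (hT : ∀ n, ‖T n‖ ≤ C) :
    ∃ W : HH →L[ℂ] G, ∀ (z : lp (fun _ : ℕ => G) ∞) (g : G),
      Tendsto (fun n => ⟪g, T n (z n)⟫_ℂ) (hyperfilter ℕ : Filter ℕ) (𝓝 ⟪g, W (c z)⟫_ℂ) := by
  have hC : 0 ≤ C := (norm_nonneg _).trans (hT 0)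
  obtain ⟨B, hB1, hB2⟩ := wot_lim (fun n => (T n).comp (comapEv n)) C (fun n => by
    refine (ContinuousLinearMap.opNorm_comp_le _ _).trans ?_
    calc ‖T n‖ * ‖(comapEv n : lp (fun _ : ℕ => G) ∞ →L[ℂ] G)‖ ≤ C * 1 :=
          mul_le_mul (hT n) (comapEv_norm n) (by positivity) hC
      _ = C := mul_one C)
  have hB3 : ∀ z : lp (fun _ : ℕ => G) ∞, ‖B z‖ ≤ C * ‖c z‖ := fun z =>
    comap_bound c hn T C hT z (B z) (hB2 z (B z))
  have hB4 : ∀ z z' : lp (fun _ : ℕ => G) ∞, c z = c z' → B z = B z' := by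
    intro z z' h
    have h1 := hB3 (z - z')
    rw [map_sub c, h, sub_self, norm_zero, mul_zero, map_sub] at h1
    exact sub_eq_zero.1 (norm_le_zero_iff.1 h1)
  have hs : ∀ h, c (Function.surjInv hc h) = h := Function.surjInv_eq hc
  refine ⟨LinearMap.mkContinuous
    { toFun := fun h => B (Function.surjInv hc h)
      map_add' := fun h h' => by
        rw [← map_add]
        exact hB4 _ _ (by rw [map_add, hs, hs, hs])
      map_smul' := fun a h => by
        rw [RingHom.id_apply, ← map_smul]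
        exact hB4 _ _ (by rw [map_smul, hs, hs]) } C (fun h => by
        have := hB3 (Function.surjInv hc h)
        rw [hs] at this
        exact this), ?_⟩
  intro z g
  have h1 : B (Function.surjInv hc (c z)) = B z := hB4 _ _ (hs _)
  have h2 := hB2 z g
  rw [← h1] at h2
  exact h2

-- J15
omit [CompleteSpace G] in
theorem seqmap_rk_coef {X : Type} [NormedAddCommGroup X] [NormedSpace ℂ X]
    (A : X →L[ℂ] G) (r : ℕ) (hr : Rk (A : X →ₗ[ℂ] G) r) (x : Fin (r + 1) → X) :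
    ∃ a : Fin (r + 1) → ℂ, ‖a‖ = 1 ∧ ∑ i, a i • A (x i) = 0 := by
  classical
  have h1 : ¬ LinearIndependent ℂ (fun i => (⟨A (x i), ⟨x i, rfl⟩⟩ : LinearMap.range (A : X →ₗ[ℂ] G))) := by
    intro hli
    have h2 : ((r + 1 : ℕ) : Cardinal) ≤ Module.rank ℂ (LinearMap.range (A : X →ₗ[ℂ] G)) :=
      Module.le_rank_iff.2 ⟨_, hli⟩
    have h3 := h2.trans hr
    have h4 : r + 1 ≤ r := by exact_mod_cast h3
    omega
  rw [Fintype.not_linearIndependent_iff] at h1
  obtain ⟨g, hg, i, hi⟩ := h1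
  have hg0 : g ≠ 0 := fun h => hi (congrFun h i)
  have hn : ‖g‖ ≠ 0 := norm_ne_zero_iff.2 hg0
  refine ⟨((‖g‖⁻¹ : ℝ) : ℂ) • g, ?_, ?_⟩
  · rw [norm_smul, Complex.norm_real, norm_inv, norm_norm, inv_mul_cancel₀ hn]
  · have hg' : ∑ i, g i • A (x i) = 0 := by
      have := congrArg Subtype.val hg
      simpa using this
    have : ∑ i, (((‖g‖⁻¹ : ℝ) : ℂ) • g) i • A (x i) = ((‖g‖⁻¹ : ℝ) : ℂ) • ∑ i, g i • A (x i) := by
      rw [Finset.smul_sum]
      refine Finset.sum_congr rfl fun j _ => ?_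
      rw [Pi.smul_apply, smul_assoc]
    rw [this, hg', smul_zero]

theorem seqmap_rk {X : Type} [NormedAddCommGroup X] [NormedSpace ℂ X]
    (c : lp (fun _ : ℕ => G) ∞ →ₗ[ℂ] HH)
    (hn : ∀ z, Tendsto (fun n => ‖z n‖) (hyperfilter ℕ : Filter ℕ) (𝓝 ‖c z‖))
    (A : ℕ → X →L[ℂ] G) (C : ℝ) (hA : ∀ n, ‖A n‖ ≤ C) (r : ℕ) (hr : ∀ n, Rk (A n : X →ₗ[ℂ] G) r)
    (W : X →L[ℂ] HH) (hW : ∀ (x : X) (z : lp (fun _ : ℕ => G) ∞), (∀ n, z n = A n x) → W x = c z) :
    Rk (W : X →ₗ[ℂ] HH) r := by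
  classical
  by_contra hcon
  unfold Rk LinearMap.rank at hcon
  push Not at hcon
  have h1 : ((r + 1 : ℕ) : Cardinal) ≤ Module.rank ℂ (LinearMap.range (W : X →ₗ[ℂ] HH)) := by
    rw [Nat.cast_add, Nat.cast_one]
    exact Cardinal.natCast_add_one_le_iff.2 hcon
  obtain ⟨v, hv⟩ := Module.le_rank_iff.1 h1
  have hx : ∀ i, ∃ x : X, W x = (v i : HH) := fun i => (v i).2
  choose x hx using hx
  have hcoef := fun n => seqmap_rk_coef (A n) r (hr n) x
  choose a ha1 ha2 using hcoef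
  obtain ⟨α, hα, hlim⟩ := (isCompact_sphere (0 : Fin (r + 1) → ℂ) 1).ultrafilter_le_nhds'
    ((hyperfilter ℕ).map a) (by
      rw [Ultrafilter.mem_map]
      refine Filter.univ_mem' fun n => ?_
      change a n ∈ Metric.sphere (0 : Fin (r + 1) → ℂ) 1
      rw [mem_sphere_zero_iff_norm]
      exact ha1 n)
  have hlim' : Tendsto a (hyperfilter ℕ : Filter ℕ) (𝓝 α) := hlim
  have hα1 : ‖α‖ = 1 := mem_sphere_zero_iff_norm.1 hα
  have hC0 : 0 ≤ C := (norm_nonneg _).trans (hA 0)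
  -- the bounded sequences
  have hz : ∀ i, ∃ z : lp (fun _ : ℕ => G) ∞, ∀ n, z n = A n (x i) := by
    intro i
    refine ⟨⟨fun n => A n (x i), ?_⟩, fun n => rfl⟩
    refine memℓp_infty ⟨C * ‖x i‖, ?_⟩
    rintro _ ⟨n, rfl⟩
    exact ((A n).le_opNorm _).trans (mul_le_mul_of_nonneg_right (hA n) (norm_nonneg _))
  choose z hz using hz
  have hWc : ∀ i, (v i : HH) = c (z i) := fun i => (hx i).symm.trans (hW _ _ (hz i))
  have hsum : c (∑ i, α i • z i) = ∑ i, α i • (v i : HH) := by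
    rw [map_sum]
    refine Finset.sum_congr rfl fun i _ => ?_
    rw [map_smul, hWc]
  have hval : ∀ n, (∑ i, α i • z i : lp (fun _ : ℕ => G) ∞) n = ∑ i, (α i - a n i) • A n (x i) := by
    intro n
    have h2 : ∑ i, (α i - a n i) • A n (x i) = ∑ i, α i • A n (x i) := by
      simp only [sub_smul, Finset.sum_sub_distrib]
      rw [ha2 n, sub_zero]
    rw [h2, lp.coeFn_sum, Finset.sum_apply]
    refine Finset.sum_congr rfl fun i _ => ?_
    rw [lp.coeFn_smul, Pi.smul_apply, hz]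
  have hto : Tendsto (fun n => ‖(∑ i, α i • z i : lp (fun _ : ℕ => G) ∞) n‖)
      (hyperfilter ℕ : Filter ℕ) (𝓝 0) := by
    have hb : Tendsto (fun n => ∑ i, ‖α i - a n i‖ * (C * ‖x i‖)) (hyperfilter ℕ : Filter ℕ) (𝓝 0) := by
      have h3 : (0 : ℝ) = ∑ i : Fin (r + 1), 0 * (C * ‖x i‖) := by simp
      rw [h3]
      refine tendsto_finsetSum _ fun i _ => Tendsto.mul_const _ ?_
      have h4 : Tendsto (fun n => a n i) (hyperfilter ℕ : Filter ℕ) (𝓝 (α i)) :=
        (tendsto_pi_nhds.1 hlim') i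
      have h5 := (tendsto_const_nhds (x := α i)).sub h4
      rw [sub_self] at h5
      have h6 := h5.norm
      rwa [norm_zero] at h6
    refine squeeze_zero (fun n => norm_nonneg _) (fun n => ?_) hb
    rw [hval n]
    refine (norm_sum_le _ _).trans (Finset.sum_le_sum fun i _ => ?_)
    rw [norm_smul]
    refine mul_le_mul_of_nonneg_left ?_ (norm_nonneg _)
    exact ((A n).le_opNorm _).trans (mul_le_mul_of_nonneg_right (hA n) (norm_nonneg _))
  have h0 : ‖c (∑ i, α i • z i)‖ = 0 := tendsto_nhds_unique (hn _) hto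
  rw [norm_eq_zero, hsum] at h0
  have h7 : ∑ i, α i • v i = 0 := by
    apply Subtype.ext
    rw [AddSubmonoidClass.coe_finsetSum]
    simpa using h0
  have h8 : α = 0 := funext fun i => (Fintype.linearIndependent_iff.1 hv) α h7 i
  rw [h8, norm_zero] at hα1
  exact zero_ne_one hα1

end HH2

-- J16 (needs J11-J15)
theorem aux_norm_zero {G : Type} [NormedAddCommGroup G] [InnerProductSpace ℂ G] [CompleteSpace G]
    (F : G →L[ℂ] G) (hF : FR F) (u : ℕ → G)
    (hu : ∀ g, Tendsto (fun n => ⟪g, u n⟫_ℂ) (hyperfilter ℕ : Filter ℕ) (𝓝 0)) :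
    Tendsto (fun n => ‖F (u n)‖) (hyperfilter ℕ : Filter ℕ) (𝓝 0) := by
  have : FiniteDimensional ℂ (LinearMap.range (F : G →ₗ[ℂ] G)) := hF
  let S := LinearMap.range (F : G →ₗ[ℂ] G)
  let b := stdOrthonormalBasis ℂ S
  have hmem : ∀ n, F (u n) ∈ S := fun n => ⟨u n, rfl⟩
  have hsq : ∀ n, ‖F (u n)‖ ^ 2 = ∑ i, ‖⟪(b i : G), F (u n)⟫_ℂ‖ ^ 2 := by
    intro n
    have h := b.sum_sq_norm_inner_right ⟨F (u n), hmem n⟩
    exact h.symm
  have h1 : Tendsto (fun n => ‖F (u n)‖ ^ 2) (hyperfilter ℕ : Filter ℕ) (𝓝 0) := by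
    simp_rw [hsq]
    have h2 : ∀ i ∈ (Finset.univ : Finset (Fin (Module.finrank ℂ S))),
        Tendsto (fun n => ‖⟪(b i : G), F (u n)⟫_ℂ‖ ^ 2) (hyperfilter ℕ : Filter ℕ) (𝓝 0) := by
      intro i _
      have h3 := hu (ContinuousLinearMap.adjoint F (b i : G))
      simp_rw [ContinuousLinearMap.adjoint_inner_left] at h3
      have h4 := (h3.norm).pow 2
      simpa using h4
    have h5 := tendsto_finset_sum _ h2
    simpa using h5
  have h6 := (Real.continuous_sqrt.tendsto 0).comp h1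
  simp only [Real.sqrt_zero] at h6
  refine h6.congr (fun n => ?_)
  simp [Real.sqrt_sq (norm_nonneg _)]

theorem rk_subtype {X Y : Type} [AddCommGroup X] [Module ℂ X] [AddCommGroup Y] [Module ℂ Y]
    (K : Submodule ℂ Y) (D : X →ₗ[ℂ] K) (r : ℕ) (h : Rk (K.subtype ∘ₗ D) r) : Rk D r := by
  unfold Rk LinearMap.rank at *
  rw [LinearMap.range_comp] at h
  rwa [← LinearEquiv.rank_eq (Submodule.equivMapOfInjective K.subtype K.injective_subtype
    (LinearMap.range D))] at h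

theorem exists_rep0 {𝔸 G : Type} [Ring 𝔸] [Algebra ℂ 𝔸] [NormedAddCommGroup G] [InnerProductSpace ℂ G] [CompleteSpace G]
    (τ : 𝔸 →ₗ[ℂ] (G →L[ℂ] G)) (hmul : ∀ y z, FR (τ (y * z) - τ y * τ z)) (hone : FR (τ 1 - 1))
    (r : ℕ) (C : ℝ) (R T : ℕ → G →L[ℂ] G) (hR : ∀ n, ‖R n‖ ≤ C) (hT : ∀ n, ‖T n‖ ≤ C)
    (hR0 : ∀ x g, Tendsto (fun n => ⟪g, R n x⟫_ℂ) (hyperfilter ℕ : Filter ℕ) (𝓝 0))
    (hTR : ∀ n, Rk ((T n * R n - 1 : G →L[ℂ] G) : G →ₗ[ℂ] G) r)
    (hL : ∀ y : 𝔸, ∃ L : G →L[ℂ] G, FR (L - τ y) ∧ ∀ n, Rk ((L * R n - R n * L : G →L[ℂ] G) : G →ₗ[ℂ] G) r) :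
    ∃ (K : Type) (_ : NormedAddCommGroup K) (_ : NormedSpace ℂ K) (π : 𝔸 →ₐ[ℂ] (K →L[ℂ] K))
      (W : G →L[ℂ] K) (W' : K →L[ℂ] G), FR (W'.comp W - 1) ∧
      ∀ y, ∃ L : G →L[ℂ] G, FR (L - τ y) ∧ Rk (((π y).comp W - W.comp L : G →L[ℂ] K) : G →ₗ[ℂ] K) r := by
  have hC0 : 0 ≤ C := (norm_nonneg _).trans (hR 0)
  obtain ⟨HH, i1, i2, c, hc, hn⟩ := exists_HH G
  obtain ⟨π0, hπ0⟩ := exists_pi0 c hc hn
  obtain ⟨W0, hW0⟩ := exists_seqmap c hn R C hR
  obtain ⟨W0', hW0'⟩ := exists_comap c hc hn T C hT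
  have mkb : ∀ (f : ℕ → G) (B : ℝ), (∀ n, ‖f n‖ ≤ B) → ∃ z : lp (fun _ : ℕ => G) ∞, ∀ n, z n = f n := by
    intro f B hB
    exact ⟨⟨f, memℓp_infty ⟨B, by rintro _ ⟨n, rfl⟩; exact hB n⟩⟩, fun n => rfl⟩
  have hRx : ∀ n x, ‖R n x‖ ≤ C * ‖x‖ := fun n x =>
    ((R n).le_opNorm x).trans (mul_le_mul_of_nonneg_right (hR n) (norm_nonneg _))
  let K : Submodule ℂ HH :=
    { carrier := {h | ∀ F : G →L[ℂ] G, FR F → π0 F h = 0}
      add_mem' := by
        intro a b ha hb F hF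
        rw [map_add, ha F hF, hb F hF, add_zero]
      zero_mem' := by
        intro F _
        exact map_zero _
      smul_mem' := by
        intro s a ha F hF
        rw [map_smul, ha F hF, smul_zero] }
  have memK : ∀ h, h ∈ K ↔ ∀ F : G →L[ℂ] G, FR F → π0 F h = 0 := fun h => Iff.rfl
  have hWK : ∀ x, W0 x ∈ K := by
    intro x F hF
    obtain ⟨z, hz⟩ := mkb (fun n => R n x) (C * ‖x‖) (fun n => hRx n x)
    rw [hW0 x z hz]
    obtain ⟨w, hw⟩ := mkb (fun n => F (R n x)) (‖F‖ * (C * ‖x‖)) (fun n =>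
      (F.le_opNorm _).trans (mul_le_mul_of_nonneg_left (hRx n x) (norm_nonneg _)))
    rw [hπ0 F z w (fun n => by rw [hw n, hz n])]
    have h1 := hn w
    have h2 := aux_norm_zero F hF (fun n => R n x) (hR0 x)
    have h3 : (fun n => ‖w n‖) = fun n => ‖F (R n x)‖ := by
      funext n; rw [hw n]
    rw [h3] at h1
    exact norm_eq_zero.mp (tendsto_nhds_unique h1 h2)
  have hpi : ∀ y, ∀ h ∈ K, π0 (τ y) h ∈ K := by
    intro y h hh F hF
    have e : π0 F (π0 (τ y) h) = π0 (F * τ y) h := by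
      rw [map_mul]; rfl
    rw [e]
    exact hh _ (hF.mul_right _)
  let πf : 𝔸 → (K →L[ℂ] K) := fun y =>
    ((π0 (τ y)).comp K.subtypeL).codRestrict K (fun h => hpi y h h.2)
  have πf_coe : ∀ y (h : K), ((πf y h : K) : HH) = π0 (τ y) (h : HH) := fun y h => rfl
  let π : 𝔸 →ₐ[ℂ] (K →L[ℂ] K) := AlgHom.ofLinearMap
    { toFun := πf
      map_add' := by
        intro y z
        ext h
        show π0 (τ (y + z)) (h : HH) = π0 (τ y) (h : HH) + π0 (τ z) (h : HH)
        rw [map_add, map_add]; rfl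
      map_smul' := by
        intro s y
        ext h
        show π0 (τ (s • y)) (h : HH) = s • π0 (τ y) (h : HH)
        rw [map_smul, map_smul]; rfl }
    (by
      ext h
      show π0 (τ 1) (h : HH) = (h : HH)
      have h1 := h.2 _ hone
      have e : π0 (τ 1) = π0 (τ 1 - 1) + π0 1 := by rw [← map_add, sub_add_cancel]
      rw [e, map_one π0]
      show π0 (τ 1 - 1) (h : HH) + (h : HH) = (h : HH)
      rw [h1, zero_add])
    (by
      intro y z
      ext h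
      show π0 (τ (y * z)) (h : HH) = π0 (τ y) (π0 (τ z) (h : HH))
      have h1 := h.2 _ (hmul y z)
      have e : π0 (τ (y * z)) = π0 (τ (y * z) - τ y * τ z) + π0 (τ y) * π0 (τ z) := by
        rw [← map_mul π0, ← map_add π0, sub_add_cancel]
      rw [e]
      show π0 (τ (y * z) - τ y * τ z) (h : HH) + π0 (τ y) (π0 (τ z) (h : HH)) = _
      rw [h1, zero_add])
  let W : G →L[ℂ] K := W0.codRestrict K hWK
  let W' : K →L[ℂ] G := W0'.comp K.subtypeL
  refine ⟨K, inferInstance, inferInstance, π, W, W', ?_, ?_⟩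
  · rw [fr_iff]
    refine ⟨r, ?_⟩
    refine rk_lim (fun n => ((T n * R n - 1 : G →L[ℂ] G) : G →ₗ[ℂ] G)) _ r ?_ (Eventually.of_forall hTR)
    intro x g
    obtain ⟨z, hz⟩ := mkb (fun n => R n x) (C * ‖x‖) (fun n => hRx n x)
    have h1 := hW0' z g
    rw [← hW0 x z hz] at h1
    have h2 : Tendsto (fun n => ⟪g, T n (z n)⟫_ℂ - ⟪g, x⟫_ℂ) (hyperfilter ℕ : Filter ℕ)
        (𝓝 (⟪g, W0' (W0 x)⟫_ℂ - ⟪g, x⟫_ℂ)) := h1.sub_const _
    have e1 : ⟪g, (((W'.comp W - 1 : G →L[ℂ] G) : G →ₗ[ℂ] G)) x⟫_ℂ = ⟪g, W0' (W0 x)⟫_ℂ - ⟪g, x⟫_ℂ := by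
      show ⟪g, W0' (W0 x) - x⟫_ℂ = _
      rw [inner_sub_right]
    rw [e1]
    refine h2.congr (fun n => ?_)
    show _ = ⟪g, T n (R n x) - x⟫_ℂ
    rw [inner_sub_right, hz n]
  · intro y
    obtain ⟨L, hL1, hL2⟩ := hL y
    refine ⟨L, hL1, ?_⟩
    apply rk_subtype
    have hA : ∀ n, ‖(L * R n - R n * L : G →L[ℂ] G)‖ ≤ 2 * ‖L‖ * C := by
      intro n
      have a1 : ‖(L * R n : G →L[ℂ] G)‖ ≤ ‖L‖ * C :=
        (norm_mul_le _ _).trans (mul_le_mul_of_nonneg_left (hR n) (norm_nonneg _))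
      have a2 : ‖(R n * L : G →L[ℂ] G)‖ ≤ C * ‖L‖ :=
        (norm_mul_le _ _).trans (mul_le_mul_of_nonneg_right (hR n) (norm_nonneg _))
      calc _ ≤ ‖(L * R n : G →L[ℂ] G)‖ + ‖(R n * L : G →L[ℂ] G)‖ := norm_sub_le _ _
        _ ≤ _ := by linarith
    have key := seqmap_rk c hn (fun n => (L * R n - R n * L : G →L[ℂ] G)) (2 * ‖L‖ * C) hA r hL2
      ((π0 (τ y)).comp W0 - W0.comp L) ?_
    · exact key
    · intro x z hz
      show π0 (τ y) (W0 x) - W0 (L x) = c z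
      obtain ⟨z1, hz1⟩ := mkb (fun n => R n x) (C * ‖x‖) (fun n => hRx n x)
      obtain ⟨z2, hz2⟩ := mkb (fun n => R n (L x)) (C * ‖L x‖) (fun n => hRx n (L x))
      obtain ⟨z3, hz3⟩ := mkb (fun n => L (R n x)) (‖L‖ * (C * ‖x‖)) (fun n =>
        (L.le_opNorm _).trans (mul_le_mul_of_nonneg_left (hRx n x) (norm_nonneg _)))
      have e1 : π0 (τ y) (W0 x) = π0 L (W0 x) := by
        have h1 := hWK x _ hL1
        rw [map_sub] at h1
        have h2 : π0 L (W0 x) - π0 (τ y) (W0 x) = 0 := h1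
        exact (sub_eq_zero.mp h2).symm
      rw [e1, hW0 x z1 hz1, hπ0 L z1 z3 (fun n => by rw [hz3 n, hz1 n]), hW0 (L x) z2 hz2,
        ← map_sub]
      congr 1
      ext n
      show (z3 - z2 : lp (fun _ : ℕ => G) ∞) n = z n
      rw [hz n, lp.coeFn_sub, Pi.sub_apply, hz3 n, hz2 n]
      rfl

-- J17
theorem li_perturb {Y : Type} [AddCommGroup Y] [Module ℂ Y] {ι : Type} [Fintype ι] [DecidableEq ι]
    (v u : ι → Y) (hv : LinearIndependent ℂ v) :
    ∃ t : ℂ, t ≠ 0 ∧ LinearIndependent ℂ (fun i => v i + t • u i) := by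
  -- a linear map which is a left inverse on the span
  have hinj : LinearMap.ker (Fintype.linearCombination ℂ v) = ⊥ :=
    LinearMap.ker_eq_bot.mpr (linearIndependent_iff_injective_fintypeLinearCombination.mp hv)
  obtain ⟨φ, hφ⟩ := (Fintype.linearCombination ℂ v).exists_leftInverse_of_injective hinj
  have hφv : ∀ i, φ (v i) = Pi.single i (1 : ℂ) := by
    intro i
    have h1 : Fintype.linearCombination ℂ v (Pi.single i (1 : ℂ)) = v i := by
      rw [Fintype.linearCombination_apply_single, one_smul]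
    rw [← h1]
    exact LinearMap.congr_fun hφ _
  have hopen : IsOpen {f : ι → (ι → ℂ) | LinearIndependent ℂ f} := isOpen_setOf_linearIndependent
  have hcont : Continuous (fun t : ℂ => fun i => φ (v i) + t • φ (u i)) := by
    fun_prop
  have h0 : (fun i => φ (v i) + (0 : ℂ) • φ (u i)) ∈ {f : ι → (ι → ℂ) | LinearIndependent ℂ f} := by
    show LinearIndependent ℂ (fun i => φ (v i) + (0 : ℂ) • φ (u i))
    have : (fun i => φ (v i) + (0 : ℂ) • φ (u i)) = fun i => Pi.single i (1 : ℂ) := by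
      funext i
      rw [zero_smul, add_zero, hφv]
    rw [this]
    have h2 := (Pi.basisFun ℂ ι).linearIndependent
    have h3 : (fun i => Pi.single i (1 : ℂ)) = (Pi.basisFun ℂ ι : ι → (ι → ℂ)) := by
      funext i
      rw [Pi.basisFun_apply]
    rw [h3]
    exact h2
  have hev : ∀ᶠ t in 𝓝 (0 : ℂ), LinearIndependent ℂ (fun i => φ (v i) + t • φ (u i)) :=
    (hcont.continuousAt).eventually (hopen.mem_nhds h0)
  have hev2 : ∀ᶠ t in 𝓝[≠] (0 : ℂ), LinearIndependent ℂ (fun i => φ (v i) + t • φ (u i)) :=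
    hev.filter_mono nhdsWithin_le_nhds
  obtain ⟨t, ht, ht0⟩ := (hev2.and self_mem_nhdsWithin).exists
  refine ⟨t, ht0, ?_⟩
  apply LinearIndependent.of_comp φ
  have : (φ ∘ fun i => v i + t • u i) = fun i => φ (v i) + t • φ (u i) := by
    funext i
    simp
  rw [this]
  exact ht

theorem maxrank {P X Y : Type} [AddCommGroup P] [Module ℂ P] [AddCommGroup X] [Module ℂ X] [AddCommGroup Y]
    [Module ℂ Y] (M : P →ₗ[ℂ] (X →ₗ[ℂ] Y)) (r : ℕ) (h : ∀ p, Rk (M p) r) :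
    ∃ p0, ∀ p x, M p0 x = 0 → M p x ∈ LinearMap.range (M p0) := by
  classical
  have hfin : ∀ p, FiniteDimensional ℂ (LinearMap.range (M p)) := fun p =>
    Module.rank_lt_aleph0_iff.1 (lt_of_le_of_lt (h p) (Cardinal.natCast_lt_aleph0))
  have hle : ∀ p, Module.finrank ℂ (LinearMap.range (M p)) ≤ r := fun p =>
    Module.finrank_le_of_rank_le (h p)
  obtain ⟨p0, hp0⟩ : ∃ p0, ∀ p, Module.finrank ℂ (LinearMap.range (M p)) ≤
      Module.finrank ℂ (LinearMap.range (M p0)) := by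
    have hne : (Set.range fun p => Module.finrank ℂ (LinearMap.range (M p))).Nonempty :=
      ⟨_, ⟨0, rfl⟩⟩
    have hbdd : BddAbove (Set.range fun p => Module.finrank ℂ (LinearMap.range (M p))) :=
      ⟨r, by rintro _ ⟨p, rfl⟩; exact hle p⟩
    obtain ⟨p0, hp0⟩ := Nat.sSup_mem hne hbdd
    refine ⟨p0, fun p => ?_⟩
    have h1 := le_csSup hbdd ⟨p, rfl⟩
    rw [← hp0] at h1
    exact h1
  refine ⟨p0, fun p x hx => ?_⟩
  by_contra hy
  haveI := hfin p0
  let b := Module.finBasis ℂ (LinearMap.range (M p0))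
  have hb : ∀ i, ∃ e, M p0 e = (b i : Y) := fun i => (b i).2
  choose e he using hb
  have hli : LinearIndependent ℂ (fun i => M p0 (e i)) := by
    have h1 : LinearIndependent ℂ (fun i => ((b i : LinearMap.range (M p0)) : Y)) :=
      b.linearIndependent.map' (LinearMap.range (M p0)).subtype (Submodule.ker_subtype _)
    have h2 : (fun i => M p0 (e i)) = fun i => ((b i : LinearMap.range (M p0)) : Y) := funext he
    rw [h2]; exact h1
  have hnot : M p x ∉ Submodule.span ℂ (Set.range fun i => M p0 (e i)) := by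
    intro hmem
    apply hy
    have : Submodule.span ℂ (Set.range fun i => M p0 (e i)) ≤ LinearMap.range (M p0) := by
      rw [Submodule.span_le]
      rintro _ ⟨i, rfl⟩
      exact ⟨e i, rfl⟩
    exact this hmem
  have hcons : LinearIndependent ℂ (Fin.cons (M p x) (fun i => M p0 (e i)) :
      Fin (Module.finrank ℂ (LinearMap.range (M p0)) + 1) → Y) :=
    linearIndependent_finCons.mpr ⟨hli, hnot⟩
  obtain ⟨t, ht0, ht⟩ := li_perturb _ (Fin.cons 0 (fun i => M p (e i)) :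
      Fin (Module.finrank ℂ (LinearMap.range (M p0)) + 1) → Y) hcons
  have hmem : ∀ i : Fin (Module.finrank ℂ (LinearMap.range (M p0)) + 1),
      (Fin.cons (M p x) (fun i => M p0 (e i)) :
        Fin (Module.finrank ℂ (LinearMap.range (M p0)) + 1) → Y) i +
      t • (Fin.cons 0 (fun i => M p (e i)) :
        Fin (Module.finrank ℂ (LinearMap.range (M p0)) + 1) → Y) i ∈
        LinearMap.range (M (p0 + t • p)) := by
    intro i
    refine Fin.cases ?_ (fun i => ?_) i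
    · refine ⟨t⁻¹ • x, ?_⟩
      simp [hx, smul_smul, inv_mul_cancel₀ ht0]
    · refine ⟨e i, ?_⟩
      simp
  haveI := hfin (p0 + t • p)
  have hsub : LinearIndependent ℂ (fun i =>
      (⟨_, hmem i⟩ : LinearMap.range (M (p0 + t • p)))) := by
    apply LinearIndependent.of_comp (LinearMap.range (M (p0 + t • p))).subtype
    exact ht
  have hcard := hsub.fintype_card_le_finrank
  rw [Fintype.card_fin] at hcard
  have := hp0 (p0 + t • p)
  omega

-- J18 (needs J17)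
theorem exists_inv {𝔸 G K : Type} [Ring 𝔸] [Algebra ℂ 𝔸] [NormedAddCommGroup G] [NormedSpace ℂ G]
    [NormedAddCommGroup K] [NormedSpace ℂ K] (π : 𝔸 →ₐ[ℂ] (K →L[ℂ] K)) (W : G →L[ℂ] K) (r : ℕ)
    (hL : ∀ y, ∃ L : G →L[ℂ] G, Rk (((π y).comp W - W.comp L : G →L[ℂ] K) : G →ₗ[ℂ] K) r) :
    ∃ (G1 : Submodule ℂ G) (M S : Submodule ℂ K), IsClosed (G1 : Set G) ∧ FiniteDimensional ℂ (G ⧸ G1) ∧
      FiniteDimensional ℂ S ∧ (∀ y, ∀ m ∈ M, π y m ∈ M) ∧ (∀ w ∈ G1, W w ∈ M) ∧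
      ∀ m ∈ M, ∃ w ∈ G1, ∃ s ∈ S, m = W w + s := by
  classical
  obtain ⟨Rg, hRg⟩ : ∃ Rg : Submodule ℂ K, Rg = LinearMap.range (W : G →ₗ[ℂ] K) := ⟨_, rfl⟩
  let M : 𝔸 →ₗ[ℂ] (G →ₗ[ℂ] K ⧸ Rg) :=
    { toFun := fun y => Rg.mkQ ∘ₗ (((π y).comp W : G →L[ℂ] K) : G →ₗ[ℂ] K)
      map_add' := by
        intro y z
        ext x
        simp
      map_smul' := by
        intro c y
        ext x
        simp }
  have hM : ∀ y x, M y x = Rg.mkQ (π y (W x)) := fun y x => rfl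
  have hMN : ∀ (y : 𝔸) (L : G →L[ℂ] G), M y = Rg.mkQ ∘ₗ
      (((π y).comp W - W.comp L : G →L[ℂ] K) : G →ₗ[ℂ] K) := by
    intro y L
    ext x
    rw [hM]
    have h1 : Rg.mkQ (W (L x)) = 0 := by
      rw [Submodule.mkQ_apply, Submodule.Quotient.mk_eq_zero, hRg]
      exact ⟨L x, rfl⟩
    have h2 : (Rg.mkQ ∘ₗ (((π y).comp W - W.comp L : G →L[ℂ] K) : G →ₗ[ℂ] K)) x =
        Rg.mkQ (π y (W x) - W (L x)) := rfl
    rw [h2, map_sub, h1, sub_zero]
  have hRk : ∀ y, Rk (M y) r := by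
    intro y
    obtain ⟨L, hLy⟩ := hL y
    rw [hMN y L]
    exact Rk.comp_left hLy _
  obtain ⟨y0, hy0⟩ := maxrank M r hRk
  have hfdr : FiniteDimensional ℂ (LinearMap.range (M y0)) :=
    Module.rank_lt_aleph0_iff.1 (lt_of_le_of_lt (hRk y0) (Cardinal.natCast_lt_aleph0))
  obtain ⟨G1, hG1⟩ : ∃ G1 : Submodule ℂ G, G1 = LinearMap.ker (M y0) := ⟨_, rfl⟩
  have hG1m : ∀ x, x ∈ G1 ↔ M y0 x = 0 := by
    intro x
    rw [hG1]
    exact LinearMap.mem_ker
  have hquot : FiniteDimensional ℂ (G ⧸ G1) := by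
    rw [hG1]
    exact Module.Finite.equiv (M y0).quotKerEquivRange.symm
  have hclosed : IsClosed (G1 : Set G) := by
    obtain ⟨L0, hL0⟩ := hL y0
    obtain ⟨N, hN⟩ : ∃ N : G →L[ℂ] K, N = (π y0).comp W - W.comp L0 := ⟨_, rfl⟩
    rw [← hN] at hL0
    have hfdN : FiniteDimensional ℂ (LinearMap.range (N : G →ₗ[ℂ] K)) := by
      have := fr_iff.2 ⟨r, hL0⟩
      exact this
    have hfd2 : FiniteDimensional ℂ (Rg ⊓ LinearMap.range (N : G →ₗ[ℂ] K) : Submodule ℂ K) :=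
      Submodule.finiteDimensional_of_le inf_le_right
    have hcl : IsClosed ((Rg ⊓ LinearMap.range (N : G →ₗ[ℂ] K) : Submodule ℂ K) : Set K) :=
      Submodule.closed_of_finiteDimensional _
    have heq : (G1 : Set G) = N ⁻¹' ((Rg ⊓ LinearMap.range (N : G →ₗ[ℂ] K) : Submodule ℂ K) :
        Set K) := by
      ext x
      rw [SetLike.mem_coe, hG1m, hMN y0 L0, ← hN]
      have h2 : (Rg.mkQ ∘ₗ (N : G →ₗ[ℂ] K)) x = Rg.mkQ (N x) := rfl
      rw [h2, Submodule.mkQ_apply, Submodule.Quotient.mk_eq_zero, Set.mem_preimage,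
        SetLike.mem_coe, Submodule.mem_inf]
      constructor
      · intro h
        exact ⟨h, ⟨x, rfl⟩⟩
      · intro h
        exact h.1
    rw [heq]
    exact hcl.preimage N.continuous
  obtain ⟨Ms, hMs⟩ : ∃ Ms : Submodule ℂ K, Ms =
    Submodule.span ℂ {m | ∃ y : 𝔸, ∃ w ∈ G1, m = π y (W w)} := ⟨_, rfl⟩
  have hMsle : Ms ≤ (LinearMap.range (M y0)).comap Rg.mkQ := by
    rw [hMs, Submodule.span_le]
    rintro m ⟨y, w, hw, rfl⟩
    show Rg.mkQ (π y (W w)) ∈ LinearMap.range (M y0)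
    rw [← hM]
    exact hy0 y w ((hG1m w).1 hw)
  -- sections
  obtain ⟨sec, hsec⟩ := Rg.mkQ.exists_rightInverse_of_surjective
    (LinearMap.range_eq_top.2 Rg.mkQ_surjective)
  have hsec' : ∀ z, Rg.mkQ (sec z) = z := by
    intro z
    have := LinearMap.congr_fun hsec z
    simpa using this
  obtain ⟨S2, hS2⟩ := Submodule.exists_isCompl G1
  have hfdS2 : FiniteDimensional ℂ S2 :=
    Module.Finite.equiv (Submodule.quotientEquivOfIsCompl G1 S2 hS2)
  refine ⟨G1, Ms, (LinearMap.range (M y0)).map sec ⊔ S2.map (W : G →ₗ[ℂ] K), hclosed, hquot,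
    ?_, ?_, ?_, ?_⟩
  · have h1 : FiniteDimensional ℂ ((LinearMap.range (M y0)).map sec : Submodule ℂ K) :=
      inferInstance
    have h2 : FiniteDimensional ℂ (S2.map (W : G →ₗ[ℂ] K) : Submodule ℂ K) := inferInstance
    infer_instance
  · intro y m hm
    rw [hMs] at hm ⊢
    induction hm using Submodule.span_induction with
    | mem x hx =>
      obtain ⟨z, w, hw, rfl⟩ := hx
      apply Submodule.subset_span
      refine ⟨y * z, w, hw, ?_⟩
      rw [map_mul]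
      rfl
    | zero => rw [map_zero]; exact Submodule.zero_mem _
    | add a b _ _ ha hb => rw [map_add]; exact Submodule.add_mem _ ha hb
    | smul c a _ ha => rw [map_smul]; exact Submodule.smul_mem _ _ ha
  · intro w hw
    rw [hMs]
    apply Submodule.subset_span
    refine ⟨1, w, hw, ?_⟩
    rw [map_one]
    rfl
  · intro m hm
    have h1 : Rg.mkQ m ∈ LinearMap.range (M y0) := hMsle hm
    have h2 : m - sec (Rg.mkQ m) ∈ Rg := by
      rw [← Submodule.Quotient.mk_eq_zero, ← Submodule.mkQ_apply, map_sub, hsec', sub_self]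
    obtain ⟨v, hv⟩ := hRg.le h2
    have h3 : v ∈ G1 ⊔ S2 := by
      rw [hS2.sup_eq_top]
      trivial
    obtain ⟨w, hw, v2, hv2, hwv⟩ := Submodule.mem_sup.1 h3
    refine ⟨w, hw, sec (Rg.mkQ m) + W v2, ?_, ?_⟩
    · exact Submodule.add_mem_sup ⟨_, h1, rfl⟩ ⟨v2, hv2, rfl⟩
    · have h4 : W v = m - sec (Rg.mkQ m) := hv
      rw [← hwv, map_add] at h4
      have h5 : m = (W w + W v2) + sec (Rg.mkQ m) := by
        rw [h4]
        abel
      conv_lhs => rw [h5]
      abel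

-- J19 (needs J18)
theorem proj_fr {G : Type} [NormedAddCommGroup G] [InnerProductSpace ℂ G] (G1 : Submodule ℂ G)
    [G1.HasOrthogonalProjection] (hq : FiniteDimensional ℂ (G ⧸ G1)) : FR (G1.starProjection - 1) := by
  haveI := hq
  set A : G →ₗ[ℂ] G := ((G1.starProjection - 1 : G →L[ℂ] G) : G →ₗ[ℂ] G) with hA
  have hk : G1 ≤ LinearMap.ker A := by
    intro x hx
    rw [LinearMap.mem_ker]
    show G1.starProjection x - x = 0
    rw [Submodule.starProjection_eq_self_iff.2 hx, sub_self]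
  have hr : LinearMap.range A = LinearMap.range (G1.liftQ A hk) := by
    rw [Submodule.range_liftQ]
  unfold FR
  rw [← hA, hr]
  infer_instance

theorem fr_of_subtype {X K : Type} [NormedAddCommGroup X] [NormedSpace ℂ X] [NormedAddCommGroup K] [NormedSpace ℂ K]
    (M : Submodule ℂ K) (A : X →L[ℂ] M) (h : FR (M.subtypeL.comp A)) : FR A := by
  unfold FR at *
  haveI := h
  have h1 : ∀ x ∈ LinearMap.range (A : X →ₗ[ℂ] M), M.subtype x ∈ LinearMap.range ((M.subtypeL.comp A : X →L[ℂ] K) : X →ₗ[ℂ] K) := by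
    rintro _ ⟨x, rfl⟩
    exact ⟨x, rfl⟩
  apply FiniteDimensional.of_injective (M.subtype.restrict h1)
  intro x y hxy
  apply Subtype.ext
  apply Subtype.ext
  have := congrArg Subtype.val hxy
  exact this

theorem complete_of {M G : Type} [NormedAddCommGroup M] [NormedSpace ℂ M] [NormedAddCommGroup G] [NormedSpace ℂ G]
    [CompleteSpace G] (J : M →L[ℂ] G) (J' : G →L[ℂ] M) (h : FR (J'.comp J - 1)) : CompleteSpace M := by
  haveI : FiniteDimensional ℂ (LinearMap.range ((J'.comp J - 1 : M →L[ℂ] M) : M →ₗ[ℂ] M)) := h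
  set E := LinearMap.range ((J'.comp J - 1 : M →L[ℂ] M) : M →ₗ[ℂ] M) with hE
  haveI : CompleteSpace E := FiniteDimensional.complete ℂ E
  apply Metric.complete_of_cauchySeq_tendsto
  intro u hu
  have h1 : CauchySeq (fun n => J (u n)) := hu.map J.uniformContinuous
  obtain ⟨g, hg⟩ := cauchySeq_tendsto_of_complete h1
  set D : M →L[ℂ] E := (J'.comp J - 1 : M →L[ℂ] M).codRestrict E (fun x => ⟨x, rfl⟩) with hD
  have h2 : CauchySeq (fun n => D (u n)) := hu.map D.uniformContinuous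
  obtain ⟨e, he⟩ := cauchySeq_tendsto_of_complete h2
  refine ⟨J' g - (e : M), ?_⟩
  have h3 : Tendsto (fun n => J' (J (u n)) - ((D (u n) : E) : M)) atTop (𝓝 (J' g - (e : M))) :=
    ((J'.continuous.tendsto g).comp hg).sub ((continuous_subtype_val.tendsto e).comp he)
  refine h3.congr (fun n => ?_)
  show J' (J (u n)) - (J' (J (u n)) - u n) = u n
  abel

theorem separable_of {M G : Type} [NormedAddCommGroup M] [NormedSpace ℂ M] [NormedAddCommGroup G] [NormedSpace ℂ G]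
    [TopologicalSpace.SeparableSpace G] (J : M →L[ℂ] G) (J' : G →L[ℂ] M) (h : FR (J'.comp J - 1)) :
    TopologicalSpace.SeparableSpace M := by
  haveI : FiniteDimensional ℂ (LinearMap.range ((J'.comp J - 1 : M →L[ℂ] M) : M →ₗ[ℂ] M)) := h
  set E := LinearMap.range ((J'.comp J - 1 : M →L[ℂ] M) : M →ₗ[ℂ] M) with hE
  haveI : ProperSpace E := FiniteDimensional.proper ℂ E
  haveI : TopologicalSpace.SeparableSpace E := inferInstance
  have hc : Continuous (fun p : G × E => J' p.1 - (p.2 : M)) :=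
    (J'.continuous.comp continuous_fst).sub (continuous_subtype_val.comp continuous_snd)
  have hs : Function.Surjective (fun p : G × E => J' p.1 - (p.2 : M)) := by
    intro m
    refine ⟨(J m, ⟨(J'.comp J - 1 : M →L[ℂ] M) m, ⟨m, rfl⟩⟩), ?_⟩
    show J' (J m) - (J' (J m) - m) = m
    abel
  exact hs.denseRange.separableSpace hc

theorem exists_rep {𝔸 G K : Type} [Ring 𝔸] [Algebra ℂ 𝔸] [NormedAddCommGroup G] [InnerProductSpace ℂ G] [CompleteSpace G]
    [TopologicalSpace.SeparableSpace G]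
    [NormedAddCommGroup K] [NormedSpace ℂ K] (τ : 𝔸 →ₗ[ℂ] (G →L[ℂ] G)) (π : 𝔸 →ₐ[ℂ] (K →L[ℂ] K)) (W : G →L[ℂ] K)
    (W' : K →L[ℂ] G) (hW : FR (W'.comp W - 1)) (r : ℕ)
    (hL : ∀ y, ∃ L : G →L[ℂ] G, FR (L - τ y) ∧ Rk (((π y).comp W - W.comp L : G →L[ℂ] K) : G →ₗ[ℂ] K) r) :
    ∃ (M : Type) (_ : NormedAddCommGroup M) (_ : NormedSpace ℂ M) (_ : CompleteSpace M)
      (_ : TopologicalSpace.SeparableSpace M) (Θ : 𝔸 →ₐ[ℂ] (M →L[ℂ] M)) (J : M →L[ℂ] G) (J' : G →L[ℂ] M),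
      FR (J.comp J' - 1) ∧ FR (J'.comp J - 1) ∧ ∀ y, FR ((J.comp (Θ y)).comp J' - τ y) := by
  obtain ⟨G1, M, S, hcl, hfd, hSfd, hMinv, hWM, hMS⟩ := exists_inv π W r (fun y => by
    obtain ⟨L, -, h⟩ := hL y
    exact ⟨L, h⟩)
  haveI : CompleteSpace G1 := hcl.completeSpace_coe
  haveI := hSfd
  set P : G →L[ℂ] G := G1.starProjection with hP
  have hPmem : ∀ x, P x ∈ G1 := fun x => Submodule.starProjection_apply_mem G1 x
  have hPself : ∀ x ∈ G1, P x = x := fun x hx => Submodule.starProjection_eq_self_iff.2 hx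
  have hPfr : FR (P - 1) := proj_fr G1 hfd
  set J : M →L[ℂ] G := W'.comp M.subtypeL with hJ
  set J' : G →L[ℂ] M := (W.comp P).codRestrict M (fun x => hWM _ (hPmem x)) with hJ'
  have hJ'c : ∀ x, ((J' x : M) : K) = W (P x) := fun x => rfl
  have h1 : FR (J.comp J' - 1) := by
    have : J.comp J' - 1 = (W'.comp W - 1).comp P + (P - 1) := by
      ext x
      show W' (W (P x)) - x = (W' (W (P x)) - P x) + (P x - x)
      abel
    rw [this]
    exact (hW.comp_right P).add hPfr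
  have h2 : FR (J'.comp J - 1) := by
    apply fr_of_subtype
    haveI : FiniteDimensional ℂ (LinearMap.range ((W'.comp W - 1 : G →L[ℂ] G) : G →ₗ[ℂ] G)) := hW
    refine FR.of_le (((LinearMap.range ((W'.comp W - 1 : G →L[ℂ] G) : G →ₗ[ℂ] G)).map
      ((W.comp P : G →L[ℂ] K) : G →ₗ[ℂ] K)) ⊔ (S.map (((W.comp P).comp W' : K →L[ℂ] K) : K →ₗ[ℂ] K) ⊔ S)) ?_
    intro m
    obtain ⟨w, hw, s, hs, hm⟩ := hMS m.1 m.2
    have e : (M.subtypeL.comp (J'.comp J - 1)) m =
        W (P (W' (W w) - w)) + (W (P (W' s)) - s) := by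
      show W (P (W' m.1)) - m.1 = _
      rw [hm, map_add, map_add, map_add, map_sub, map_sub, hPself w hw]
      abel
    rw [e]
    apply Submodule.add_mem_sup
    · exact ⟨W' (W w) - w, ⟨w, rfl⟩, rfl⟩
    · rw [sub_eq_add_neg]
      apply Submodule.add_mem_sup
      · exact ⟨s, hs, rfl⟩
      · exact S.neg_mem hs
  haveI hcomp : CompleteSpace M := complete_of J J' h2
  haveI hsep : TopologicalSpace.SeparableSpace M := separable_of J J' h2
  let Θ : 𝔸 →ₐ[ℂ] (M →L[ℂ] M) := AlgHom.ofLinearMap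
    { toFun := fun y => ((π y).comp M.subtypeL).codRestrict M (fun m => hMinv y m.1 m.2)
      map_add' := fun y z => by
        ext m
        show π (y + z) m.1 = π y m.1 + π z m.1
        rw [map_add]; rfl
      map_smul' := fun c y => by
        ext m
        show π (c • y) m.1 = c • π y m.1
        rw [map_smul]; rfl }
    (by
      ext m
      show π 1 m.1 = m.1
      rw [map_one]; rfl)
    (fun y z => by
      ext m
      show π (y * z) m.1 = π y (π z m.1)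
      rw [map_mul]; rfl)
  refine ⟨M, inferInstance, inferInstance, hcomp, hsep, Θ, J, J', h1, h2, fun y => ?_⟩
  obtain ⟨L, hL1, hL2⟩ := hL y
  have hL3 : FR ((π y).comp W - W.comp L) := fr_iff.2 ⟨r, hL2⟩
  have : (J.comp (Θ y)).comp J' - τ y = (W'.comp ((π y).comp W - W.comp L)).comp P +
      ((W'.comp W - 1).comp (L.comp P) + (L.comp (P - 1) + (L - τ y))) := by
    ext x
    show W' (π y (W (P x))) - τ y x = W' (π y (W (P x)) - W (L (P x))) +
      ((W' (W (L (P x))) - L (P x)) + (L (P x - x) + (L x - τ y x)))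
    rw [map_sub, map_sub]
    abel
  rw [this]
  exact ((hL3.comp_left W').comp_right P).add ((hW.comp_right _).add ((hPfr.comp_left L).add hL1))

/-! ### final part of B -/

section final

variable {E : Type} [NormedAddCommGroup E] [InnerProductSpace ℂ E] [CompleteSpace E]

-- C1
theorem hom_bdd (κ : E ≃ₗᵢ[ℂ] L2 E) {Y : Type} [NormedAddCommGroup Y] [NormedSpace ℂ Y]
    (Θ : (E →L[ℂ] E) →ₐ[ℂ] (Y →L[ℂ] Y)) : ∃ C : ℝ, ∀ y, ‖Θ y‖ ≤ C * ‖y‖ := by
  obtain ⟨n, hn⟩ := bergman κ (fun n y => ‖Θ y‖ ≤ 2 ^ n)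
    (fun m n y hmn h => h.trans (pow_le_pow_right₀ one_le_two hmn))
    (fun y => by
      obtain ⟨n, hn⟩ := pow_unbounded_of_one_lt ‖Θ y‖ (one_lt_two : (1:ℝ) < 2)
      exact ⟨n, hn.le⟩)
    (fun m n y z hy hz => by
      rw [map_mul, pow_add]
      exact (norm_mul_le _ _).trans (mul_le_mul hy hz (norm_nonneg _) (by positivity)))
  refine ⟨2 ^ n, fun y => ?_⟩
  by_cases h0 : y = 0
  · rw [h0, map_zero, norm_zero, norm_zero, mul_zero]
  · have hy : 0 < ‖y‖ := norm_pos_iff.2 h0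
    have hyc : ((‖y‖ : ℝ) : ℂ) ≠ 0 := Complex.ofReal_ne_zero.2 hy.ne'
    have h1 : ‖(((‖y‖ : ℝ) : ℂ))⁻¹ • y‖ ≤ 1 := by
      rw [norm_smul, norm_inv, Complex.norm_real, Real.norm_of_nonneg hy.le,
        inv_mul_cancel₀ hy.ne']
    have h2 := hn _ h1
    rw [map_smul, norm_smul, norm_inv, Complex.norm_real, Real.norm_of_nonneg hy.le] at h2
    rw [inv_mul_le_iff₀ hy] at h2
    linarith

-- C2
theorem no_fd (κ : E ≃ₗᵢ[ℂ] L2 E) {Z : Type} [AddCommGroup Z] [Module ℂ Z] [FiniteDimensional ℂ Z]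
    (ρ : (E →L[ℂ] E) →ₐ[ℂ] Module.End ℂ Z) : Subsingleton Z := by
  obtain ⟨uu, h1, h2, -⟩ := exists_uu
  let φ : (L2 E →L[ℂ] L2 E) → (E →L[ℂ] E) := fun W =>
    ((κ.symm.toContinuousLinearEquiv : L2 E →L[ℂ] E).comp W).comp
      (κ.toContinuousLinearEquiv : E →L[ℂ] L2 E)
  have hφm : ∀ A B, φ (A * B) = φ A * φ B := by
    intro A B
    ext v
    simp [φ]
  have hφ1 : φ 1 = 1 := by
    ext v
    simp [φ]
  have hφ0 : φ 0 = 0 := by
    ext v
    simp [φ]
  have a : ∀ n, φ (V (uu n).symm) * φ (V (uu n)) = 1 := by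
    intro n
    rw [← hφm, ← V_trans, h1 n, V_refl, hφ1]
  have b : φ (V (uu 0).symm) * φ (V (uu 1)) = 0 := by
    rw [← hφm, ← V_trans, h2 0 1 (by norm_num), V_bot, hφ0]
  have c0 : ρ (φ (V (uu 0).symm)) * ρ (φ (V (uu 0))) = 1 := by
    rw [← map_mul, a 0, map_one]
  have c1 : ρ (φ (V (uu 1).symm)) * ρ (φ (V (uu 1))) = 1 := by
    rw [← map_mul, a 1, map_one]
  have c2 : ρ (φ (V (uu 0).symm)) * ρ (φ (V (uu 1))) = 0 := by
    rw [← map_mul, b, map_zero]
  have c3 : ρ (φ (V (uu 0))) * ρ (φ (V (uu 0).symm)) = 1 := mul_eq_one_comm.1 c0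
  have c4 : ρ (φ (V (uu 1))) = 0 := by
    calc ρ (φ (V (uu 1))) = (ρ (φ (V (uu 0))) * ρ (φ (V (uu 0).symm))) * ρ (φ (V (uu 1))) := by
          rw [c3, one_mul]
      _ = 0 := by rw [mul_assoc, c2, mul_zero]
  rw [c4, mul_zero] at c1
  refine ⟨fun z w => ?_⟩
  have hz : ∀ z : Z, z = 0 := fun z => by
    have := LinearMap.congr_fun c1 z
    simpa using this.symm
  rw [hz z, hz w]

-- C3
theorem sub_trivial (κ : E ≃ₗᵢ[ℂ] L2 E) {Y : Type} [NormedAddCommGroup Y] [NormedSpace ℂ Y]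
    (Θ : (E →L[ℂ] E) →ₐ[ℂ] (Y →L[ℂ] Y)) (S : Submodule ℂ Y) (hfin : FiniteDimensional ℂ S)
    (hS : ∀ y, ∀ v ∈ S, Θ y v ∈ S) : S = ⊥ := by
  haveI := hfin
  let ρ : (E →L[ℂ] E) →ₐ[ℂ] Module.End ℂ S := AlgHom.ofLinearMap
    { toFun := fun y => (Θ y : Y →ₗ[ℂ] Y).restrict (hS y)
      map_add' := fun y z => by
        ext v
        simp [map_add]
      map_smul' := fun a y => by
        ext v
        simp [map_smul] }
    (by
      ext v
      simp)
    (fun y z => by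
      ext v
      simp)
  haveI := no_fd κ ρ
  exact (Submodule.subsingleton_iff_eq_bot).1 this

theorem quot_trivial (κ : E ≃ₗᵢ[ℂ] L2 E) {Y : Type} [NormedAddCommGroup Y] [NormedSpace ℂ Y]
    (Θ : (E →L[ℂ] E) →ₐ[ℂ] (Y →L[ℂ] Y)) (S : Submodule ℂ Y) (hfin : FiniteDimensional ℂ (Y ⧸ S))
    (hS : ∀ y, ∀ v ∈ S, Θ y v ∈ S) : S = ⊤ := by
  haveI := hfin
  let ρ : (E →L[ℂ] E) →ₐ[ℂ] Module.End ℂ (Y ⧸ S) := AlgHom.ofLinearMap
    { toFun := fun y => S.mapQ S (Θ y : Y →ₗ[ℂ] Y) (hS y)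
      map_add' := fun y z => by
        refine LinearMap.ext fun v => ?_
        obtain ⟨v, rfl⟩ := Submodule.mkQ_surjective S v
        simp [map_add]
      map_smul' := fun a y => by
        refine LinearMap.ext fun v => ?_
        obtain ⟨v, rfl⟩ := Submodule.mkQ_surjective S v
        simp [map_smul] }
    (by
      refine LinearMap.ext fun v => ?_
      obtain ⟨v, rfl⟩ := Submodule.mkQ_surjective S v
      simp)
    (fun y z => by
      refine LinearMap.ext fun v => ?_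
      obtain ⟨v, rfl⟩ := Submodule.mkQ_surjective S v
      simp)
  haveI := no_fd κ ρ
  exact (Submodule.unique_quotient_iff_eq_top).1 ⟨⟨⟨0⟩, fun _ => Subsingleton.elim _ _⟩⟩

theorem commutant (κ : E ≃ₗᵢ[ℂ] L2 E) {Y : Type} [NormedAddCommGroup Y] [NormedSpace ℂ Y] [CompleteSpace Y]
    (Θ : (E →L[ℂ] E) →ₐ[ℂ] (Y →L[ℂ] Y)) (D : Y →L[ℂ] Y) (hD : ∀ y, FR (D * Θ y - Θ y * D)) :
    ∃ D' : Y →L[ℂ] Y, (∀ y, D' * Θ y = Θ y * D') ∧ FR (D - D') := by
  classical
  let M : (E →L[ℂ] E) →ₗ[ℂ] (Y →ₗ[ℂ] Y) :=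
    { toFun := fun y => ((D * Θ y - Θ y * D : Y →L[ℂ] Y) : Y →ₗ[ℂ] Y)
      map_add' := fun y z => by
        ext v
        simp [map_add]
        abel
      map_smul' := fun a y => by
        ext v
        simp [map_smul, smul_sub] }
  have hM : ∀ y v, M y v = D (Θ y v) - Θ y (D v) := fun y v => rfl
  obtain ⟨r, hr⟩ : ∃ r : ℕ, ∀ y, ‖y‖ ≤ 1 → Rk (M y) r := by
    refine bergman κ (fun n y => Rk (M y) n) (fun m n y hmn h => h.mono hmn) (fun y => ?_) ?_
    · exact fr_iff.1 (hD y)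
    · intro m n y z hy hz
      have e : M (y * z) = (M y) ∘ₗ (Θ z : Y →ₗ[ℂ] Y) + (Θ y : Y →ₗ[ℂ] Y) ∘ₗ (M z) := by
        ext v
        rw [LinearMap.add_apply, LinearMap.comp_apply, LinearMap.comp_apply, hM]
        simp only [ContinuousLinearMap.coe_coe]
        rw [hM, hM, map_mul]
        simp
      show Rk (M (y * z)) (m + n)
      rw [e]
      exact (hy.comp_right _).add (hz.comp_left _)
  have hr' : ∀ y, Rk (M y) r := by
    intro y
    by_cases hy : y = 0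
    · exact hr y (by rw [hy]; simp)
    · have hn : (‖y‖ : ℂ) ≠ 0 := by
        exact_mod_cast norm_ne_zero_iff.2 hy
      have e : M y = (‖y‖ : ℂ) • M ((‖y‖ : ℂ)⁻¹ • y) := by
        rw [map_smul, smul_smul, mul_inv_cancel₀ hn, one_smul]
      have h1 : Rk (M ((‖y‖ : ℂ)⁻¹ • y)) r := by
        apply hr
        rw [norm_smul, norm_inv, Complex.norm_real, norm_norm, inv_mul_cancel₀ (norm_ne_zero_iff.2 hy)]
      rw [e]
      have e2 : (‖y‖ : ℂ) • M ((‖y‖ : ℂ)⁻¹ • y) =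
          ((‖y‖ : ℂ) • (LinearMap.id : Y →ₗ[ℂ] Y)) ∘ₗ M ((‖y‖ : ℂ)⁻¹ • y) := by
        ext v
        simp
      rw [e2]
      exact h1.comp_left _
  obtain ⟨y0, hy0⟩ := maxrank M r hr'
  set G1 : Submodule ℂ Y := LinearMap.ker (M y0) with hG1
  set U : Submodule ℂ Y := LinearMap.range (M y0) with hU
  haveI hUfin : FiniteDimensional ℂ U := hD y0
  have hG1c : IsClosed (G1 : Set Y) := by
    have : (G1 : Set Y) = (D * Θ y0 - Θ y0 * D : Y →L[ℂ] Y) ⁻¹' {0} := by
      ext v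
      simp only [SetLike.mem_coe, Set.mem_preimage, Set.mem_singleton_iff]
      rfl
    rw [this]
    exact isClosed_singleton.preimage (ContinuousLinearMap.continuous _)
  haveI hG1fin : FiniteDimensional ℂ (Y ⧸ G1) :=
    LinearEquiv.finiteDimensional (LinearMap.quotKerEquivRange (M y0)).symm
  -- the subspace N
  set Gen : Set (Y × Y) := {p | ∃ y : E →L[ℂ] E, ∃ w ∈ G1, p = (Θ y w, Θ y (D w))} with hGen
  set N : Submodule ℂ (Y × Y) := Submodule.span ℂ Gen with hN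
  have hNU : ∀ p ∈ N, p.2 - D p.1 ∈ U := by
    intro p hp
    induction hp using Submodule.span_induction with
    | mem p hp =>
      obtain ⟨y, w, hw, rfl⟩ := hp
      have h1 : M y w ∈ U := hy0 y w hw
      have h2 : Θ y (D w) - D (Θ y w) = - M y w := by
        rw [hM]
        abel
      show Θ y (D w) - D (Θ y w) ∈ U
      rw [h2]
      exact U.neg_mem h1
    | zero => simp
    | add p q _ _ hp hq =>
      have : (p + q).2 - D (p + q).1 = (p.2 - D p.1) + (q.2 - D q.1) := by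
        simp only [Prod.snd_add, Prod.fst_add, map_add]
        abel
      rw [this]
      exact U.add_mem hp hq
    | smul a p _ hp =>
      have : (a • p).2 - D (a • p).1 = a • (p.2 - D p.1) := by
        simp only [Prod.smul_snd, Prod.smul_fst, map_smul, smul_sub]
      rw [this]
      exact U.smul_mem a hp
  have hNinv : ∀ z, ∀ p ∈ N, ((Θ z p.1, Θ z p.2) : Y × Y) ∈ N := by
    intro z p hp
    induction hp using Submodule.span_induction with
    | mem p hp =>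
      obtain ⟨y, w, hw, rfl⟩ := hp
      apply Submodule.subset_span
      refine ⟨z * y, w, hw, ?_⟩
      rw [map_mul]
      rfl
    | zero =>
      have : ((Θ z (0 : Y × Y).1, Θ z (0 : Y × Y).2) : Y × Y) = 0 := by simp
      rw [this]
      exact N.zero_mem
    | add p q _ _ hp hq =>
      have : ((Θ z (p + q).1, Θ z (p + q).2) : Y × Y) = (Θ z p.1, Θ z p.2) + (Θ z q.1, Θ z q.2) := by
        simp [map_add]
      rw [this]
      exact N.add_mem hp hq
    | smul a p _ hp =>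
      have : ((Θ z (a • p).1, Θ z (a • p).2) : Y × Y) = a • (Θ z p.1, Θ z p.2) := by
        simp [map_smul]
      rw [this]
      exact N.smul_mem a hp
  have hNG : ∀ w ∈ G1, ((w, D w) : Y × Y) ∈ N := by
    intro w hw
    apply Submodule.subset_span
    refine ⟨1, w, hw, ?_⟩
    rw [map_one]
    rfl
  -- the kernel part
  have hker : N.comap (LinearMap.inr ℂ Y Y) = ⊥ := by
    refine sub_trivial κ Θ _ ?_ ?_
    · have hle : N.comap (LinearMap.inr ℂ Y Y) ≤ U := by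
        intro v hv
        have := hNU _ (Submodule.mem_comap.1 hv)
        simpa using this
      exact Submodule.finiteDimensional_of_le hle
    · intro y v hv
      have := hNinv y _ (Submodule.mem_comap.1 hv)
      rw [Submodule.mem_comap]
      simpa using this
  have hran : N.map (LinearMap.fst ℂ Y Y) = ⊤ := by
    refine quot_trivial κ Θ _ ?_ ?_
    · have hle : G1 ≤ N.map (LinearMap.fst ℂ Y Y) := fun w hw => ⟨(w, D w), hNG w hw, rfl⟩
      let f : (Y ⧸ G1) →ₗ[ℂ] (Y ⧸ N.map (LinearMap.fst ℂ Y Y)) := Submodule.factor hle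
      have hf : Function.Surjective f := Submodule.factor_surjective hle
      exact Module.Finite.of_surjective f hf
    · rintro y v ⟨p, hp, rfl⟩
      exact ⟨(Θ y p.1, Θ y p.2), hNinv y p hp, rfl⟩
  have huniq : ∀ x v v', ((x, v) : Y × Y) ∈ N → ((x, v') : Y × Y) ∈ N → v = v' := by
    intro x v v' h1 h2
    have h3 := N.sub_mem h1 h2
    have h4 : v - v' ∈ N.comap (LinearMap.inr ℂ Y Y) := by
      rw [Submodule.mem_comap]
      simpa using h3
    rw [hker, Submodule.mem_bot] at h4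
    exact sub_eq_zero.1 h4
  have hex : ∀ x, ∃ v, ((x, v) : Y × Y) ∈ N := by
    intro x
    have : x ∈ N.map (LinearMap.fst ℂ Y Y) := by rw [hran]; trivial
    obtain ⟨p, hp, rfl⟩ := this
    exact ⟨p.2, hp⟩
  choose F hF using hex
  let Dl : Y →ₗ[ℂ] Y :=
    { toFun := F
      map_add' := fun x y => huniq (x + y) _ _ (hF _) (by
        have := N.add_mem (hF x) (hF y)
        simpa using this)
      map_smul' := fun a x => huniq (a • x) _ _ (hF _) (by
        have := N.smul_mem a (hF x)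
        simpa using this) }
  have hDl : ∀ x, ((x, Dl x) : Y × Y) ∈ N := hF
  have hcomm : ∀ y x, Dl (Θ y x) = Θ y (Dl x) := fun y x =>
    huniq (Θ y x) _ _ (hDl _) (hNinv y _ (hDl x))
  have hDG : ∀ w ∈ G1, Dl w = D w := fun w hw => huniq w _ _ (hDl w) (hNG w hw)
  have hle : G1 ≤ LinearMap.ker (Dl - (D : Y →ₗ[ℂ] Y)) := by
    intro w hw
    rw [LinearMap.mem_ker, LinearMap.sub_apply, ContinuousLinearMap.coe_coe, hDG w hw, sub_self]
  let q : (Y ⧸ G1) →ₗ[ℂ] Y := G1.liftQ (Dl - (D : Y →ₗ[ℂ] Y)) hle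
  haveI : IsClosed (G1 : Set Y) := hG1c
  haveI : T2Space (Y ⧸ G1) := inferInstance
  have hqc : Continuous q := LinearMap.continuous_of_finiteDimensional q
  let Q : Y →L[ℂ] Y := ⟨q ∘ₗ G1.mkQ, hqc.comp (continuous_quot_mk)⟩
  have hQ : ∀ x, Q x = Dl x - D x := fun x => rfl
  refine ⟨D + Q, ?_, ?_⟩
  · intro y
    ext x
    have e : ∀ x, (D + Q) x = Dl x := by
      intro x
      rw [ContinuousLinearMap.add_apply, hQ]
      abel
    rw [ContinuousLinearMap.mul_apply, ContinuousLinearMap.mul_apply, e, e, hcomm]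
  · have e : D - (D + Q) = -Q := by abel
    rw [e]
    apply FR.neg
    exact FR.of_le (LinearMap.range q) (fun x => ⟨G1.mkQ x, rfl⟩)

-- C3'
theorem fr_comm_zero (κ : E ≃ₗᵢ[ℂ] L2 E) {Y : Type} [NormedAddCommGroup Y] [NormedSpace ℂ Y]
    (Θ : (E →L[ℂ] E) →ₐ[ℂ] (Y →L[ℂ] Y)) (D : Y →L[ℂ] Y) (hD : ∀ y, D * Θ y = Θ y * D) (hF : FR D) : D = 0 := by
  have hfin : FiniteDimensional ℂ (LinearMap.range (D : Y →ₗ[ℂ] Y)) := hF
  have hinv : ∀ y : E →L[ℂ] E, ∀ z ∈ LinearMap.range (D : Y →ₗ[ℂ] Y),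
      (Θ y : Y →ₗ[ℂ] Y) z ∈ LinearMap.range (D : Y →ₗ[ℂ] Y) := by
    rintro y _ ⟨x, rfl⟩
    refine ⟨Θ y x, ?_⟩
    have h := congrArg (fun T : Y →L[ℂ] Y => T x) (hD y)
    exact h
  let ρ : (E →L[ℂ] E) →ₐ[ℂ] Module.End ℂ (LinearMap.range (D : Y →ₗ[ℂ] Y)) :=
    { toFun := fun y => (Θ y : Y →ₗ[ℂ] Y).restrict (hinv y)
      map_one' := by
        ext z; simp [LinearMap.restrict_apply]
      map_mul' := by
        intro a b; ext z; simp [LinearMap.restrict_apply]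
      map_zero' := by
        ext z; simp [LinearMap.restrict_apply]
      map_add' := by
        intro a b; ext z; simp [LinearMap.restrict_apply]
      commutes' := by
        intro r; ext z; simp [LinearMap.restrict_apply] }
  have hsub := no_fd κ ρ
  ext x
  have h1 := hsub.elim (⟨D x, x, rfl⟩ : LinearMap.range (D : Y →ₗ[ℂ] Y)) 0
  exact congrArg Subtype.val h1

/-- rank one operator `v ↦ ⟪b, v⟫ a` -/
def ro (a b : E) : E →L[ℂ] E := (innerSL ℂ b).smulRight a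

theorem ro_apply (a b v : E) : ro a b v = ⟪b, v⟫_ℂ • a := rfl

-- C4
omit [CompleteSpace E] in
theorem hb_count [TopologicalSpace.SeparableSpace E] {w : Set E} (b : HilbertBasis w ℂ E) : Countable w := by
  have hb := b.orthonormal
  refine Pairwise.countable_of_isOpen_disjoint (s := fun i : w => Metric.ball (b i) (1 / 2)) ?_
    (fun _ => Metric.isOpen_ball) (fun i => ⟨b i, Metric.mem_ball_self (by norm_num)⟩)
  intro i j hij
  apply Metric.ball_disjoint_ball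
  have h1 : ‖b i - b j‖ ^ 2 = 2 := by
    have h2 := @norm_sub_sq ℂ E _ _ _ (b i) (b j)
    rw [h2, hb.2 hij, hb.1 i, hb.1 j]
    simp; norm_num
  rw [dist_eq_norm]
  nlinarith [norm_nonneg (b i - b j)]

theorem hb_inf (hE : ¬ FiniteDimensional ℂ E) {w : Set E} (b : HilbertBasis w ℂ E) : Infinite w := by
  by_contra h
  rw [not_infinite_iff_finite] at h
  apply hE
  have h1 := b.dense_span
  haveI : FiniteDimensional ℂ (Submodule.span ℂ (Set.range b)) :=
    FiniteDimensional.span_of_finite ℂ (Set.finite_range b)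
  have h2 : IsClosed (Submodule.span ℂ (Set.range b) : Set E) := Submodule.closed_of_finiteDimensional _
  rw [h2.submodule_topologicalClosure_eq] at h1
  rw [h1] at this
  exact Module.finite_def.2 (by
    have := Module.finite_def.1 this
    exact (Submodule.fg_top _).1 this)

theorem hb_nat [TopologicalSpace.SeparableSpace E] (hE : ¬ FiniteDimensional ℂ E) :
    Nonempty (HilbertBasis ℕ ℂ E) := by
  obtain ⟨w, b, hb⟩ := exists_hilbertBasis ℂ E
  haveI := hb_count b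
  haveI := hb_inf hE b
  obtain ⟨e⟩ : Nonempty (ℕ ≃ w) := by
    haveI := Encodable.ofCountable w
    haveI := Denumerable.ofEncodableOfInfinite w
    exact ⟨(Denumerable.eqv w).symm⟩
  have ho : Orthonormal ℂ (b ∘ e) := b.orthonormal.comp e e.injective
  refine ⟨HilbertBasis.mk ho ?_⟩
  have h1 := b.dense_span
  rw [Set.range_comp, e.surjective.range_eq, Set.image_univ, h1]

/-- transported partial permutations -/
def Uo (b : HilbertBasis ℕ ℂ E) (f : PEquiv ℕ ℕ) : E →L[ℂ] E :=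
  (b.repr.symm.toContinuousLinearEquiv : L2 ℂ →L[ℂ] E).comp
    ((V f : L2 ℂ →L[ℂ] L2 ℂ).comp (b.repr.toContinuousLinearEquiv : E →L[ℂ] L2 ℂ))

theorem Uo_apply (b : HilbertBasis ℕ ℂ E) (f : PEquiv ℕ ℕ) (v : E) :
    Uo b f v = b.repr.symm ((V f : L2 ℂ →L[ℂ] L2 ℂ) (b.repr v)) := rfl

theorem Uo_trans (b : HilbertBasis ℕ ℂ E) (f g : PEquiv ℕ ℕ) : Uo b (f.trans g) = Uo b g * Uo b f := by
  ext v
  rw [ContinuousLinearMap.mul_apply, Uo_apply, Uo_apply, Uo_apply, V_trans]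
  simp

theorem Uo_refl (b : HilbertBasis ℕ ℂ E) : Uo b (PEquiv.refl ℕ) = 1 := by
  ext v
  rw [Uo_apply, V_refl]
  simp

theorem Uo_norm (b : HilbertBasis ℕ ℂ E) (f : PEquiv ℕ ℕ) : ‖Uo b f‖ ≤ 1 := by
  refine ContinuousLinearMap.opNorm_le_bound _ zero_le_one (fun v => ?_)
  rw [Uo_apply, LinearIsometryEquiv.norm_map, one_mul]
  calc ‖(V f : L2 ℂ →L[ℂ] L2 ℂ) (b.repr v)‖ ≤ ‖(V f : L2 ℂ →L[ℂ] L2 ℂ)‖ * ‖b.repr v‖ :=
        ContinuousLinearMap.le_opNorm _ _
    _ ≤ 1 * ‖b.repr v‖ := mul_le_mul_of_nonneg_right (V_norm f) (norm_nonneg _)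
    _ = ‖v‖ := by rw [one_mul, LinearIsometryEquiv.norm_map]

theorem Uo_fin (b : HilbertBasis ℕ ℂ E) (f : PEquiv ℕ ℕ) (S : Finset ℕ)
    (hS : ∀ n m, f n = some m → n ∈ S) :
    Uo b f = ∑ n ∈ S, ro (Uo b f (b n)) (b n) := by
  have hz : ∀ v : E, (∀ n ∈ S, ⟪b n, v⟫_ℂ = 0) → Uo b f v = 0 := by
    intro v hv
    rw [Uo_apply]
    have : (V f : L2 ℂ →L[ℂ] L2 ℂ) (b.repr v) = 0 := by
      apply lp.ext
      funext m
      rw [V_apply]
      unfold pull
      cases h : f.symm m with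
      | none => rfl
      | some j =>
        have h2 : f j = some m := (PEquiv.mem_iff_mem f).1 h
        show (b.repr v) j = 0
        rw [b.repr_apply_apply]
        exact hv j (hS j m h2)
    rw [this, map_zero]
  ext v
  have h1 : Uo b f (v - ∑ n ∈ S, ⟪b n, v⟫_ℂ • b n) = 0 := by
    apply hz
    intro n hn
    rw [inner_sub_right, inner_sum]
    have : ∀ m ∈ S, ⟪b n, ⟪b m, v⟫_ℂ • b m⟫_ℂ = if n = m then ⟪b m, v⟫_ℂ else 0 := by
      intro m _
      rw [inner_smul_right, orthonormal_iff_ite.1 b.orthonormal n m]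
      split_ifs <;> simp
    rw [Finset.sum_congr rfl this, Finset.sum_ite_eq, if_pos hn, sub_self]
  rw [map_sub, sub_eq_zero, map_sum] at h1
  rw [h1, ContinuousLinearMap.sum_apply]
  apply Finset.sum_congr rfl
  intro n _
  rw [map_smul, ro_apply]

/-- injection as a partial equivalence -/
def pinj (a : ℕ → ℕ) (ha : Function.Injective a) : PEquiv ℕ ℕ where
  toFun n := some (a n)
  invFun m := open Classical in if h : ∃ n, a n = m then some h.choose else none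
  inv n m := by
    classical
    constructor
    · intro h
      by_cases h1 : ∃ k, a k = m
      · simp only [h1, dite_true, Option.mem_def, Option.some.injEq] at h
        rw [← h]
        simp [h1.choose_spec]
      · simp [h1] at h
    · intro h
      simp only [Option.mem_def, Option.some.injEq] at h
      have h1 : ∃ k, a k = m := ⟨n, h⟩
      simp only [h1, dite_true, Option.mem_def, Option.some.injEq]
      exact ha (h1.choose_spec.trans h.symm)

theorem pinj_apply (a : ℕ → ℕ) (ha : Function.Injective a) (n : ℕ) : pinj a ha n = some (a n) := rfl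

theorem pinj_symm (a : ℕ → ℕ) (ha : Function.Injective a) {m n : ℕ} (h : (pinj a ha).symm m = some n) :
    a n = m := by
  have h2 : pinj a ha n = some m := (PEquiv.mem_iff_mem (pinj a ha)).1 h
  rw [pinj_apply] at h2
  exact Option.some.inj h2

theorem pinj_trans (a : ℕ → ℕ) (ha : Function.Injective a) :
    (pinj a ha).trans (pinj a ha).symm = PEquiv.refl ℕ := by
  ext n m
  change m ∈ ((pinj a ha).trans (pinj a ha).symm) n ↔ m ∈ (PEquiv.refl ℕ) n
  rw [PEquiv.mem_trans]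
  constructor
  · rintro ⟨k, hk, hm⟩
    rw [pinj_apply] at hk
    have := pinj_symm a ha hm
    have h3 : a n = k := Option.some.inj hk
    have : n = m := ha (h3.trans this.symm)
    rw [this]; rfl
  · intro h
    have h3 : n = m := Option.some.inj h
    subst h3
    exact ⟨a n, pinj_apply a ha n, (PEquiv.mem_iff_mem (pinj a ha)).2 (pinj_apply a ha n)⟩

/-- almost disjoint branches -/
def br (x : ℕ → Bool) (n : ℕ) : ℕ := Encodable.encode (List.ofFn (fun i : Fin n => x i))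

theorem br_eq {x y : ℕ → Bool} {m n : ℕ} (h : br x m = br y n) : m = n ∧ ∀ i < m, x i = y i := by
  unfold br at h
  have h1 := Encodable.encode_injective h
  have h2 : m = n := by
    have := congrArg List.length h1
    simpa using this
  subst h2
  refine ⟨rfl, fun i hi => ?_⟩
  have h3 := List.ofFn_injective h1
  exact congrFun h3 ⟨i, hi⟩

theorem br_inj (x : ℕ → Bool) : Function.Injective (br x) := fun _ _ h => (br_eq h).1

theorem sep_nonzero [TopologicalSpace.SeparableSpace E] (hE : ¬ FiniteDimensional ℂ E) {Y : Type} [NormedAddCommGroup Y]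
    [NormedSpace ℂ Y] [TopologicalSpace.SeparableSpace Y] (Θ : (E →L[ℂ] E) →ₗ[ℂ] (Y →L[ℂ] Y))
    (hmul : ∀ y z, Θ (y * z) = Θ y * Θ z) (C : ℝ) (hC : ∀ y, ‖Θ y‖ ≤ C * ‖y‖) (h1 : Θ 1 ≠ 0) (f : E) (hf : ‖f‖ = 1) :
    Θ (ro f f) ≠ 0 := by
  intro h0
  have hro : ∀ a b : E, Θ (ro a b) = 0 := by
    intro a b
    have e : ro a b = ro a f * ro f f * ro f b := by
      ext v
      rw [ContinuousLinearMap.mul_apply, ContinuousLinearMap.mul_apply, ro_apply, ro_apply, ro_apply, ro_apply]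
      simp [inner_smul_right, inner_self_eq_norm_sq_to_K, hf]
    rw [e, hmul, hmul, h0]
    simp
  obtain ⟨b⟩ := hb_nat hE
  set g : (ℕ → Bool) → PEquiv ℕ ℕ := fun x => pinj (br x) (br_inj x) with hg
  have hgs : ∀ x, Uo b (g x).symm * Uo b (g x) = 1 := by
    intro x
    rw [← Uo_trans, pinj_trans, Uo_refl]
  have hkill : ∀ x y, x ≠ y → Θ (Uo b (g x).symm * Uo b (g y)) = 0 := by
    intro x y hxy
    obtain ⟨N, hN⟩ : ∃ N, x N ≠ y N := by
      by_contra hcon
      push Not at hcon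
      exact hxy (funext hcon)
    rw [← Uo_trans, Uo_fin b ((g y).trans (g x).symm) (Finset.range (N + 1)) ?_, map_sum]
    · exact Finset.sum_eq_zero (fun n _ => hro _ _)
    · intro n m hnm
      have h2 : m ∈ ((g y).trans (g x).symm) n := hnm
      rw [PEquiv.mem_trans] at h2
      obtain ⟨k, hk, hm⟩ := h2
      have h3 : br y n = k := Option.some.inj hk
      have h4 : br x m = k := pinj_symm (br x) (br_inj x) hm
      have h5 := br_eq (h3.trans h4.symm)
      rw [Finset.mem_range]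
      by_contra hcon
      push Not at hcon
      exact hN (h5.2 N (by omega)).symm
  set p : (ℕ → Bool) → (E →L[ℂ] E) := fun x => Uo b (g x) * Uo b (g x).symm with hp
  have hpp : ∀ x, p x * p x = p x := by
    intro x
    calc p x * p x = Uo b (g x) * (Uo b (g x).symm * Uo b (g x)) * Uo b (g x).symm := by
          simp only [hp, mul_assoc]
      _ = p x := by rw [hgs, mul_one]
  have hpn : ∀ x, ‖p x‖ ≤ 1 := by
    intro x
    calc ‖p x‖ ≤ ‖Uo b (g x)‖ * ‖Uo b (g x).symm‖ := norm_mul_le _ _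
      _ ≤ 1 * 1 := mul_le_mul (Uo_norm b _) (Uo_norm b _) (norm_nonneg _) zero_le_one
      _ = 1 := one_mul 1
  have hpq : ∀ x y, x ≠ y → Θ (p x) * Θ (p y) = 0 := by
    intro x y hxy
    rw [← hmul]
    have e : p x * p y = Uo b (g x) * (Uo b (g x).symm * Uo b (g y)) * Uo b (g y).symm := by
      simp only [hp, mul_assoc]
    rw [e, hmul, hmul, hkill x y hxy]
    simp
  have hp0 : ∀ x, Θ (p x) ≠ 0 := by
    intro x hx
    apply h1
    have e : (1 : E →L[ℂ] E) = Uo b (g x).symm * p x * Uo b (g x) := by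
      calc (1 : E →L[ℂ] E) = (Uo b (g x).symm * Uo b (g x)) * (Uo b (g x).symm * Uo b (g x)) := by
            rw [hgs, mul_one]
        _ = _ := by simp only [hp, mul_assoc]
    rw [e, hmul, hmul, hx]
    simp
  have hη : ∀ x, ∃ η : Y, Θ (p x) η = η ∧ ‖η‖ = 1 := by
    intro x
    obtain ⟨ζ, hζ⟩ : ∃ ζ, Θ (p x) ζ ≠ 0 := by
      by_contra hcon
      push Not at hcon
      exact hp0 x (ContinuousLinearMap.ext hcon)
    have hid : Θ (p x) (Θ (p x) ζ) = Θ (p x) ζ := by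
      have := hmul (p x) (p x)
      rw [hpp] at this
      conv_rhs => rw [this]
      rfl
    refine ⟨((‖Θ (p x) ζ‖ : ℂ)⁻¹) • Θ (p x) ζ, ?_, ?_⟩
    · rw [map_smul, hid]
    · rw [norm_smul, norm_inv, Complex.norm_real, norm_norm]
      exact inv_mul_cancel₀ (norm_ne_zero_iff.2 hζ)
  choose η hη1 hη2 using hη
  have hsep : ∀ x y, x ≠ y → 1 ≤ (max C 0) * ‖η x - η y‖ := by
    intro x y hxy
    have e1 : Θ (p x) (η y) = 0 := by
      have := hpq x y hxy
      have h3 := congrArg (fun T : Y →L[ℂ] Y => T (η y)) this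
      simp only [ContinuousLinearMap.mul_apply, ContinuousLinearMap.zero_apply] at h3
      rwa [hη1 y] at h3
    have e2 : Θ (p x) (η x - η y) = η x := by rw [map_sub, hη1, e1, sub_zero]
    calc (1 : ℝ) = ‖Θ (p x) (η x - η y)‖ := by rw [e2, hη2]
      _ ≤ ‖Θ (p x)‖ * ‖η x - η y‖ := ContinuousLinearMap.le_opNorm _ _
      _ ≤ max C 0 * ‖η x - η y‖ := by
        apply mul_le_mul_of_nonneg_right _ (norm_nonneg _)
        calc ‖Θ (p x)‖ ≤ C * ‖p x‖ := hC _
          _ ≤ max C 0 * ‖p x‖ := mul_le_mul_of_nonneg_right (le_max_left _ _) (norm_nonneg _)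
          _ ≤ max C 0 * 1 := mul_le_mul_of_nonneg_left (hpn x) (le_max_right _ _)
          _ = max C 0 := mul_one _
  have hc0 : 0 ≤ max C 0 := le_max_right _ _
  have hcount : Countable (ℕ → Bool) := by
    refine Pairwise.countable_of_isOpen_disjoint
      (s := fun x : ℕ → Bool => Metric.ball (η x) (1 / (2 * (max C 0 + 1)))) ?_
      (fun _ => Metric.isOpen_ball) (fun x => ⟨η x, Metric.mem_ball_self (by positivity)⟩)
    intro x y hxy
    apply Metric.ball_disjoint_ball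
    rw [dist_eq_norm]
    have h2 := hsep x y hxy
    have e : 1 / (2 * (max C 0 + 1)) + 1 / (2 * (max C 0 + 1)) = 1 / (max C 0 + 1) := by
      field_simp; norm_num
    rw [e, div_le_iff₀ (by positivity)]
    nlinarith [norm_nonneg (η x - η y)]
  obtain ⟨F, hF⟩ := hcount.exists_injective_nat
  classical
  refine Function.cantor_injective (fun S : Set ℕ => F (fun n => decide (n ∈ S))) ?_
  intro S T hST
  have h2 := hF hST
  ext n
  have h3 := congrFun h2 n
  simpa using h3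

-- C5
theorem itw_ro_norm (a b : E) : ‖ro a b‖ ≤ ‖a‖ * ‖b‖ := by
  unfold ro
  rw [ContinuousLinearMap.norm_smulRight_apply, innerSL_apply_norm, mul_comm]

theorem itw_ro_add (a a' b : E) : ro (a + a') b = ro a b + ro a' b := by
  ext v
  simp only [ro_apply, ContinuousLinearMap.add_apply, smul_add]

theorem itw_ro_smul (c : ℂ) (a b : E) : ro (c • a) b = c • ro a b := by
  ext v
  simp only [ro_apply, ContinuousLinearMap.smul_apply]
  rw [smul_comm]

theorem itw_ro_add_right (a b b' : E) : ro a (b + b') = ro a b + ro a b' := by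
  ext v
  simp only [ro_apply, ContinuousLinearMap.add_apply, inner_add_left, add_smul]

theorem itw_ro_smul_right (c : ℂ) (a b : E) : ro a (c • b) = (starRingEnd ℂ c) • ro a b := by
  ext v
  simp only [ro_apply, ContinuousLinearMap.smul_apply, inner_smul_left, mul_smul]

theorem itw_ro_mul (a b a' b' : E) : ro a b * ro a' b' = ⟪b, a'⟫_ℂ • ro a b' := by
  ext v
  change ro a b (ro a' b' v) = _
  simp only [ro_apply, ContinuousLinearMap.smul_apply, map_smul, inner_smul_right, mul_smul]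
  rw [smul_comm]

theorem itw_mul_ro (y : E →L[ℂ] E) (a b : E) : y * ro a b = ro (y a) b := by
  ext v
  change y (ro a b v) = _
  simp only [ro_apply, map_smul]

theorem itw_ro_mul' (y : E →L[ℂ] E) (a b : E) :
    ro a b * y = ro a (ContinuousLinearMap.adjoint y b) := by
  ext v
  change ro a b (y v) = _
  simp only [ro_apply, ContinuousLinearMap.adjoint_inner_left]

/-- Riesz for conjugate linear functionals -/
theorem itw_riesz (F : E → ℂ) (hadd : ∀ w w', F (w + w') = F w + F w')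
    (hsmul : ∀ (c : ℂ) w, F (c • w) = starRingEnd ℂ c * F w) (K : ℝ) (hK : 0 ≤ K)
    (hb : ∀ w, ‖F w‖ ≤ K * ‖w‖) : ∃ u : E, (∀ w, ⟪w, u⟫_ℂ = F w) ∧ ‖u‖ ≤ K := by
  let φ : E →L[ℂ] ℂ := LinearMap.mkContinuous
    { toFun := fun w => starRingEnd ℂ (F w)
      map_add' := fun w w' => by rw [hadd, map_add]
      map_smul' := fun c w => by
        rw [hsmul, map_mul, Complex.conj_conj, RingHom.id_apply, smul_eq_mul] } K (fun w => by
        change ‖starRingEnd ℂ (F w)‖ ≤ K * ‖w‖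
        rw [RCLike.norm_conj]
        exact hb w)
  refine ⟨(InnerProductSpace.toDual ℂ E).symm φ, fun w => ?_, ?_⟩
  · rw [← inner_conj_symm, InnerProductSpace.toDual_symm_apply]
    change starRingEnd ℂ (starRingEnd ℂ (F w)) = F w
    exact Complex.conj_conj _
  · rw [LinearIsometryEquiv.norm_map]
    exact LinearMap.mkContinuous_norm_le _ hK _

theorem intertwiner (κ : E ≃ₗᵢ[ℂ] L2 E) [TopologicalSpace.SeparableSpace E] (hE : ¬ FiniteDimensional ℂ E)
    {Y : Type} [NormedAddCommGroup Y] [NormedSpace ℂ Y] [CompleteSpace Y]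
    [TopologicalSpace.SeparableSpace Y] (Θ : (E →L[ℂ] E) →ₐ[ℂ] (Y →L[ℂ] Y)) (P : Y →L[ℂ] Y) (hP : P * P = P)
    (hP0 : P ≠ 0) (hcomm : ∀ y, P * Θ y = Θ y * P)
    (hmin : ∀ D : Y →L[ℂ] Y, (∀ y, D * Θ y = Θ y * D) → ∃ c : ℂ, P * D * P = c • P) :
    ∃ (j : E →L[ℂ] Y) (j' : Y →L[ℂ] E), j'.comp j = 1 ∧ j.comp j' = P ∧ ∀ y, (Θ y).comp j = j.comp y := by
  obtain ⟨C0, hC0⟩ := hom_bdd κ Θ
  obtain ⟨C, hCdef⟩ : ∃ C, C = |C0| := ⟨_, rfl⟩
  have hCn : 0 ≤ C := hCdef ▸ abs_nonneg _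
  have hC : ∀ y, ‖Θ y‖ ≤ C * ‖y‖ := fun y =>
    (hC0 y).trans (mul_le_mul_of_nonneg_right (hCdef ▸ le_abs_self _) (norm_nonneg _))
  -- a unit vector
  obtain ⟨f, hf⟩ : ∃ f : E, ‖f‖ = 1 := by
    have hnt : ∃ x : E, x ≠ 0 := by
      by_contra h
      push Not at h
      apply hE
      have : Subsingleton E := ⟨fun a b => by rw [h a, h b]⟩
      infer_instance
    obtain ⟨x, hx⟩ := hnt
    refine ⟨((‖x‖⁻¹ : ℝ) : ℂ) • x, ?_⟩
    rw [norm_smul, Complex.norm_real, norm_inv, norm_norm]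
    exact inv_mul_cancel₀ (norm_ne_zero_iff.2 hx)
  have hff : ⟪f, f⟫_ℂ = 1 := by
    rw [inner_self_eq_norm_sq_to_K, hf]; simp
  have hroff : ro f f * ro f f = ro f f := by rw [itw_ro_mul, hff, one_smul]
  -- nonzero corner
  have hne : Θ (ro f f) * P ≠ 0 := by
    let ΘP : (E →L[ℂ] E) →ₗ[ℂ] (Y →L[ℂ] Y) :=
      { toFun := fun y => Θ y * P
        map_add' := fun y z => by rw [map_add, add_mul]
        map_smul' := fun c y => by rw [map_smul, smul_mul_assoc, RingHom.id_apply] }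
    have := sep_nonzero hE ΘP (fun y z => ?_) (C * ‖P‖) (fun y => ?_) ?_ f hf
    · exact this
    · change Θ (y * z) * P = Θ y * P * (Θ z * P)
      rw [map_mul]
      calc Θ y * Θ z * P = Θ y * (Θ z * (P * P)) := by rw [hP, mul_assoc]
        _ = Θ y * ((Θ z * P) * P) := by rw [mul_assoc (Θ z)]
        _ = Θ y * ((P * Θ z) * P) := by rw [hcomm]
        _ = Θ y * P * (Θ z * P) := by simp only [mul_assoc]
    · change ‖Θ y * P‖ ≤ C * ‖P‖ * ‖y‖
      calc ‖Θ y * P‖ ≤ ‖Θ y‖ * ‖P‖ := norm_mul_le _ _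
        _ ≤ C * ‖y‖ * ‖P‖ := mul_le_mul_of_nonneg_right (hC y) (norm_nonneg _)
        _ = C * ‖P‖ * ‖y‖ := by ring
    · change Θ 1 * P ≠ 0
      rw [map_one, one_mul]
      exact hP0
  obtain ⟨ζ, hζ⟩ : ∃ ζ, (Θ (ro f f) * P) ζ ≠ 0 := by
    by_contra h
    push Not at h
    exact hne (ContinuousLinearMap.ext h)
  obtain ⟨η, hηdef⟩ : ∃ η, η = (Θ (ro f f) * P) ζ := ⟨_, rfl⟩
  have hη0 : η ≠ 0 := hηdef ▸ hζ
  have hPη : P η = η := by
    rw [hηdef]
    change (P * (Θ (ro f f) * P)) ζ = (Θ (ro f f) * P) ζ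
    rw [← mul_assoc, hcomm, mul_assoc, hP]
  have hΘη : Θ (ro f f) η = η := by
    rw [hηdef]
    change (Θ (ro f f) * (Θ (ro f f) * P)) ζ = (Θ (ro f f) * P) ζ
    rw [← mul_assoc, ← map_mul, hroff]
  obtain ⟨η', hη'⟩ := SeparatingDual.exists_eq_one (R := ℂ) hη0
  -- j
  let j : E →L[ℂ] Y := LinearMap.mkContinuous
    { toFun := fun a => Θ (ro a f) η
      map_add' := fun a b => by rw [itw_ro_add, map_add, ContinuousLinearMap.add_apply]
      map_smul' := fun c a => by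
        rw [itw_ro_smul, map_smul, ContinuousLinearMap.smul_apply, RingHom.id_apply] }
    (C * ‖η‖) (fun a => by
      change ‖Θ (ro a f) η‖ ≤ _
      calc ‖Θ (ro a f) η‖ ≤ ‖Θ (ro a f)‖ * ‖η‖ := ContinuousLinearMap.le_opNorm _ _
        _ ≤ (C * (‖a‖ * ‖f‖)) * ‖η‖ := by
          refine mul_le_mul_of_nonneg_right ?_ (norm_nonneg _)
          exact (hC _).trans (mul_le_mul_of_nonneg_left (itw_ro_norm a f) hCn)
        _ = C * ‖η‖ * ‖a‖ := by rw [hf]; ring)
  have hj : ∀ a, j a = Θ (ro a f) η := fun a => rfl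
  -- j'
  have hrz : ∀ ζ : Y, ∃ u : E, (∀ w, ⟪w, u⟫_ℂ = η' (Θ (ro f w) ζ)) ∧ ‖u‖ ≤ ‖η'‖ * C * ‖ζ‖ := by
    intro ζ
    refine itw_riesz (fun w => η' (Θ (ro f w) ζ)) (fun w w' => ?_) (fun c w => ?_) _ (by positivity)
      (fun w => ?_)
    · simp only [itw_ro_add_right, map_add, ContinuousLinearMap.add_apply]
    · simp only [itw_ro_smul_right, map_smul, ContinuousLinearMap.smul_apply, smul_eq_mul]
    · calc ‖η' (Θ (ro f w) ζ)‖ ≤ ‖η'‖ * ‖Θ (ro f w) ζ‖ := ContinuousLinearMap.le_opNorm _ _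
        _ ≤ ‖η'‖ * ((C * (‖f‖ * ‖w‖)) * ‖ζ‖) := by
          refine mul_le_mul_of_nonneg_left ?_ (norm_nonneg _)
          refine (ContinuousLinearMap.le_opNorm _ _).trans ?_
          refine mul_le_mul_of_nonneg_right ?_ (norm_nonneg _)
          exact (hC _).trans (mul_le_mul_of_nonneg_left (itw_ro_norm f w) hCn)
        _ = ‖η'‖ * C * ‖ζ‖ * ‖w‖ := by rw [hf]; ring
  choose u hu hun using hrz
  let j' : Y →L[ℂ] E := LinearMap.mkContinuous
    { toFun := u
      map_add' := fun a b => by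
        refine ext_inner_left ℂ fun w => ?_
        rw [inner_add_right, hu, hu, hu, map_add, map_add]
      map_smul' := fun c a => by
        refine ext_inner_left ℂ fun w => ?_
        rw [RingHom.id_apply, inner_smul_right, hu, hu, map_smul, map_smul, smul_eq_mul] }
    (‖η'‖ * C) hun
  have hj' : ∀ ζ w, ⟪w, j' ζ⟫_ℂ = η' (Θ (ro f w) ζ) := fun ζ w => hu ζ w
  have e6 : ∀ a, j' (j a) = a := by
    intro a
    refine ext_inner_left ℂ fun w => ?_
    rw [hj', hj]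
    change η' ((Θ (ro f w) * Θ (ro a f)) η) = _
    rw [← map_mul, itw_ro_mul, map_smul, ContinuousLinearMap.smul_apply, hΘη, map_smul, hη']
    simp
  have e7 : ∀ y a, Θ y (j a) = j (y a) := by
    intro y a
    rw [hj, hj]
    change (Θ y * Θ (ro a f)) η = _
    rw [← map_mul, itw_mul_ro]
  have e8 : ∀ y ζ, j' (Θ y ζ) = y (j' ζ) := by
    intro y ζ
    refine ext_inner_left ℂ fun w => ?_
    rw [hj', ← ContinuousLinearMap.adjoint_inner_left, hj']
    change η' ((Θ (ro f w) * Θ y) ζ) = _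
    rw [← map_mul, itw_ro_mul']
  have e9 : ∀ a, P (j a) = j a := by
    intro a
    rw [hj]
    change (P * Θ (ro a f)) η = _
    rw [hcomm]
    change Θ (ro a f) (P η) = _
    rw [hPη]
  obtain ⟨c, hc⟩ := hmin (j.comp j') (fun y => by
    ext ζ
    change j (j' (Θ y ζ)) = Θ y (j (j' ζ))
    rw [e8, e7])
  have hjf : j f ≠ 0 := by
    intro h
    have := e6 f
    rw [h, map_zero] at this
    rw [← this, norm_zero] at hf
    exact zero_ne_one hf
  have hc1 : c = 1 := by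
    have h1 : (P * (j.comp j') * P) (j f) = (c • P) (j f) := by rw [hc]
    change P (j (j' (P (j f)))) = c • P (j f) at h1
    rw [e9, e9, e6] at h1
    have h2 : (1 - c) • j f = 0 := by rw [sub_smul, one_smul, ← h1, sub_self]
    rcases smul_eq_zero.1 h2 with h3 | h3
    · exact (sub_eq_zero.1 h3).symm
    · exact absurd h3 hjf
  rw [hc1, one_smul] at hc
  refine ⟨j, j'.comp P, ?_, ?_, fun y => ?_⟩
  · ext a
    change j' (P (j a)) = a
    rw [e9, e6]
  · ext ζ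
    have h1 : (P * (j.comp j') * P) ζ = P ζ := by rw [hc]
    change P (j (j' (P ζ))) = P ζ at h1
    rw [e9] at h1
    exact h1
  · ext a
    exact e7 y a

end final

end Pool.Agent.Helper192.GI
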