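import Mathlib
import Pool.Agent.Helper192.GI.Steps

set_option autoImplicit false
set_option linter.unusedVariables false
set_option linter.unusedSectionVars false

open scoped InnerProductSpace Topology ENNReal
open Filter

noncomputable section

namespace Pool.Agent.Helper192.GI

section Q

variable {X Y Z : Type*} [NormedAddCommGroup X] [NormedSpace ℂ X] [NormedAddCommGroup Y] [NormedSpace ℂ Y]
  [NormedAddCommGroup Z] [NormedSpace ℂ Z]

/-- equality modulo finite rank -/
def Q (A B : X →L[ℂ] Y) : Prop := FR (A - B)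

theorem Q.refl (A : X →L[ℂ] Y) : Q A A := by
  unfold Q
  rw [sub_self]
  exact FR.zero

theorem Q.of_eq {A B : X →L[ℂ] Y} (h : A = B) : Q A B := h ▸ Q.refl A

theorem Q.symm {A B : X →L[ℂ] Y} (h : Q A B) : Q B A := FR.symm h

theorem Q.trans {A B C : X →L[ℂ] Y} (h : Q A B) (h' : Q B C) : Q A C := FR.trans h h'

theorem Q.comp {A A' : Y →L[ℂ] Z} {B B' : X →L[ℂ] Y} (h : Q A A') (h' : Q B B') : Q (A.comp B) (A'.comp B') := by
  have h1 : A.comp B - A'.comp B' = (A - A').comp B + A'.comp (B - B') := by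
    ext v
    simp
  unfold Q
  rw [h1]
  exact (FR.comp_right h B).add (FR.comp_left h' A')

theorem Q.sub {A A' B B' : X →L[ℂ] Y} (h : Q A A') (h' : Q B B') : Q (A - B) (A' - B') := by
  have h1 : A - B - (A' - B') = (A - A') - (B - B') := by abel
  unfold Q
  rw [h1]
  exact FR.sub h h'

theorem Q.smul {A A' : X →L[ℂ] Y} (c : ℂ) (h : Q A A') : Q (c • A) (c • A') := by
  unfold Q
  rw [← smul_sub]
  exact FR.smul c h

theorem Q.fr {A B : X →L[ℂ] Y} (h : Q A B) (hB : FR B) : FR A := by
  have := FR.add h hB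
  rwa [sub_add_cancel] at this

instance : Trans (Q : (X →L[ℂ] Y) → (X →L[ℂ] Y) → Prop) (Q : (X →L[ℂ] Y) → (X →L[ℂ] Y) → Prop)
    (Q : (X →L[ℂ] Y) → (X →L[ℂ] Y) → Prop) := ⟨Q.trans⟩

end Q

section scalar

variable {E : Type} [NormedAddCommGroup E] [InnerProductSpace ℂ E] [CompleteSpace E]

theorem scalar_of_comm (hE : ¬ FiniteDimensional ℂ E) (T : E →L[ℂ] E) (h : ∀ y : E →L[ℂ] E, T * y = y * T) :
    ∃ c : ℂ, T = c • 1 := by
  have hne : ∃ f : E, f ≠ 0 := by
    by_contra hcon
    push Not at hcon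
    haveI : Subsingleton E := ⟨fun a b => by rw [hcon a, hcon b]⟩
    exact hE inferInstance
  obtain ⟨f, hf⟩ := hne
  refine ⟨⟪f, T f⟫_ℂ * (⟪f, f⟫_ℂ)⁻¹, ?_⟩
  ext a
  have h1 := congrArg (fun S : E →L[ℂ] E => S f) (h (ro a f))
  have h2 : ⟪f, f⟫_ℂ • T a = ⟪f, T f⟫_ℂ • a := by
    simpa [ro_apply] using h1
  have h3 : ⟪f, f⟫_ℂ ≠ 0 := inner_self_ne_zero.2 hf
  show T a = (⟪f, T f⟫_ℂ * (⟪f, f⟫_ℂ)⁻¹) • a
  rw [mul_comm, mul_smul, ← h2, smul_smul, inv_mul_cancel₀ h3, one_smul]

end scalar

section final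

variable {E : Type} [NormedAddCommGroup E] [InnerProductSpace ℂ E] [CompleteSpace E]

theorem amp_inc {X : Type} [NormedAddCommGroup X] [InnerProductSpace ℂ X] [CompleteSpace X] (y : X →L[ℂ] X) (n : ℕ) :
    (amp y).comp (inc n) = (inc n).comp y := by
  ext v m
  simp only [ContinuousLinearMap.comp_apply, amp_apply, inc, lp.singleContinuousLinearMap_apply, lp.coeFn_single]
  by_cases hm : m = n
  · subst hm
    simp
  · simp [hm]

theorem ev_amp {X : Type} [NormedAddCommGroup X] [InnerProductSpace ℂ X] [CompleteSpace X] (y : X →L[ℂ] X) (n : ℕ) :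
    (ev n).comp (amp y) = y.comp (ev n) := by
  ext v
  rfl

theorem ev_inc {X : Type} [NormedAddCommGroup X] [InnerProductSpace ℂ X] [CompleteSpace X] (n : ℕ) :
    (ev n : L2 X →L[ℂ] X).comp (inc n) = ContinuousLinearMap.id ℂ X := by
  ext v
  simp [inc]

theorem partB0 (κ : E ≃ₗᵢ[ℂ] L2 E) (κ2 : E ≃ₗᵢ[ℂ] L2 (L2 E)) [TopologicalSpace.SeparableSpace E]
    (hE : ¬ FiniteDimensional ℂ E)
    (τ : (L2 (L2 E) →L[ℂ] L2 (L2 E)) →ₗ[ℂ] (L2 (L2 E) →L[ℂ] L2 (L2 E))) (hτ : NA τ) :
    ∃ A A' : L2 (L2 E) →L[ℂ] L2 (L2 E), FR (A * A' - 1) ∧ FR (A' * A - 1) ∧ ∀ X, FR (τ X - A * X * A') := by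
  haveI : TopologicalSpace.SeparableSpace (L2 (L2 E)) := κ2.surjective.denseRange.separableSpace κ2.continuous
  obtain ⟨r, C, R, T, hR, hT, hR0, hTR, hL⟩ := exists_RT κ τ hτ
  -- the linear map tau'
  let a2 : (E →L[ℂ] E) →ₐ[ℂ] (L2 (L2 E) →L[ℂ] L2 (L2 E)) := ampHom.comp ampHom
  have ha2 : ∀ y, a2 y = amp (amp y) := fun _ => rfl
  let τ' : (E →L[ℂ] E) →ₗ[ℂ] (L2 (L2 E) →L[ℂ] L2 (L2 E)) := τ ∘ₗ a2.toLinearMap
  have hτ' : ∀ y, τ' y = τ (a2 y) := fun _ => rfl
  obtain ⟨K, _, _, π, W, W', hW, hLK⟩ := exists_rep0 τ' (fun y z => by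
      rw [hτ', hτ', hτ', map_mul]; exact hτ.mul _ _) (by rw [hτ', map_one]; exact hτ.one) r C R T hR hT hR0 hTR hL
  obtain ⟨M, _, _, _, _, Θ, J, J', hJJ, hJ'J, hΘ⟩ := exists_rep τ' π W W' hW r hLK
  replace hJJ : Q (J.comp J') 1 := hJJ
  replace hJ'J : Q (J'.comp J) 1 := hJ'J
  replace hΘ : ∀ y, Q ((J.comp (Θ y)).comp J') (τ (a2 y)) := hΘ
  have qmul : ∀ X Y, Q (τ (X.comp Y)) ((τ X).comp (τ Y)) := fun X Y => hτ.mul X Y
  have qone : Q (τ 1) 1 := hτ.one
  -- block inclusion
  let ι : E →L[ℂ] L2 (L2 E) := (inc 0).comp (inc 0)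
  let ι' : L2 (L2 E) →L[ℂ] E := (ev 0).comp (ev 0)
  have hιι : ι'.comp ι = ContinuousLinearMap.id ℂ E := by
    have h1 : ι'.comp ι = ((ev 0 : L2 E →L[ℂ] E).comp (((ev 0 : L2 (L2 E) →L[ℂ] L2 E).comp
        (inc 0 : L2 E →L[ℂ] L2 (L2 E))).comp (inc 0 : E →L[ℂ] L2 E))) := rfl
    rw [h1, ev_inc, ContinuousLinearMap.id_comp, ev_inc]
  have haι : ∀ y, (a2 y).comp ι = ι.comp y := by
    intro y
    show (amp (amp y)).comp ((inc 0).comp (inc 0)) = ((inc 0).comp (inc 0)).comp y
    rw [← ContinuousLinearMap.comp_assoc, amp_inc, ContinuousLinearMap.comp_assoc, amp_inc, ContinuousLinearMap.comp_assoc]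
  have hι'a : ∀ y, ι'.comp (a2 y) = y.comp ι' := by
    intro y
    show ((ev 0).comp (ev 0)).comp (amp (amp y)) = y.comp ((ev 0).comp (ev 0))
    rw [ContinuousLinearMap.comp_assoc, ev_amp, ← ContinuousLinearMap.comp_assoc, ev_amp, ContinuousLinearMap.comp_assoc]
  let k : L2 (L2 E) →L[ℂ] E := (κ2.symm.toContinuousLinearEquiv : L2 (L2 E) →L[ℂ] E)
  let k' : E →L[ℂ] L2 (L2 E) := (κ2.toContinuousLinearEquiv : E →L[ℂ] L2 (L2 E))
  have hkk : k'.comp k = ContinuousLinearMap.id ℂ _ := by
    ext1 v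
    exact κ2.apply_symm_apply v
  have hkk' : k.comp k' = ContinuousLinearMap.id ℂ _ := by
    ext1 v
    exact κ2.symm_apply_apply v
  let s : L2 (L2 E) →L[ℂ] L2 (L2 E) := ι.comp k
  let s' : L2 (L2 E) →L[ℂ] L2 (L2 E) := k'.comp ι'
  let e : L2 (L2 E) →L[ℂ] L2 (L2 E) := ι.comp ι'
  have hs's : s'.comp s = 1 := by
    show (k'.comp ι').comp (ι.comp k) = 1
    rw [ContinuousLinearMap.comp_assoc, ← ContinuousLinearMap.comp_assoc ι' ι k, hιι, ContinuousLinearMap.id_comp, hkk]
    rfl
  have hss' : s.comp s' = e := by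
    show (ι.comp k).comp (k'.comp ι') = e
    rw [ContinuousLinearMap.comp_assoc, ← ContinuousLinearMap.comp_assoc k k' ι', hkk', ContinuousLinearMap.id_comp]
  have hee : e.comp e = e := by
    show (ι.comp ι').comp (ι.comp ι') = e
    rw [ContinuousLinearMap.comp_assoc, ← ContinuousLinearMap.comp_assoc ι' ι ι', hιι, ContinuousLinearMap.id_comp]
  have hes : e.comp s = s := by
    rw [← hss', ContinuousLinearMap.comp_assoc, hs's]
    rfl
  have hea : ∀ y, e.comp (a2 y) = (a2 y).comp e := by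
    intro y
    show (ι.comp ι').comp (a2 y) = (a2 y).comp (ι.comp ι')
    rw [ContinuousLinearMap.comp_assoc, hι'a, ← ContinuousLinearMap.comp_assoc, ← haι, ContinuousLinearMap.comp_assoc]
  -- calculus for Theta
  have hJΘ : ∀ y, Q (J.comp (Θ y)) ((τ (a2 y)).comp J) := by
    intro y
    have h1 : Q (J.comp (Θ y)) ((J.comp (Θ y)).comp (J'.comp J)) := by
      have := (Q.refl (J.comp (Θ y))).comp hJ'J.symm
      exact this
    refine h1.trans ?_
    rw [← ContinuousLinearMap.comp_assoc]
    exact (hΘ y).comp (Q.refl J)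
  have hΘJ : ∀ y, Q ((Θ y).comp J') (J'.comp (τ (a2 y))) := by
    intro y
    have h1 : Q ((Θ y).comp J') ((J'.comp J).comp ((Θ y).comp J')) := by
      have := hJ'J.symm.comp (Q.refl ((Θ y).comp J'))
      exact this
    refine h1.trans ?_
    have h2 : (J'.comp J).comp ((Θ y).comp J') = J'.comp ((J.comp (Θ y)).comp J') := by
      simp only [ContinuousLinearMap.comp_assoc]
    rw [h2]
    exact (Q.refl J').comp (hΘ y)
  let D0 : M →L[ℂ] M := (J'.comp (τ e)).comp J
  have hD0 : ∀ y, FR (D0 * Θ y - Θ y * D0) := by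
    intro y
    have h1 : Q (D0.comp (Θ y)) ((J'.comp ((τ e).comp (τ (a2 y)))).comp J) := by
      have : Q (D0.comp (Θ y)) ((J'.comp (τ e)).comp ((τ (a2 y)).comp J)) := by
        show Q (((J'.comp (τ e)).comp J).comp (Θ y)) _
        rw [ContinuousLinearMap.comp_assoc (J'.comp (τ e)) J (Θ y)]
        exact (Q.refl _).comp (hJΘ y)
      simpa only [ContinuousLinearMap.comp_assoc] using this
    have h2 : Q ((Θ y).comp D0) ((J'.comp ((τ (a2 y)).comp (τ e))).comp J) := by
      have : Q ((Θ y).comp D0) ((J'.comp (τ (a2 y))).comp ((τ e).comp J)) := by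
        show Q ((Θ y).comp ((J'.comp (τ e)).comp J)) _
        have h3 : (Θ y).comp ((J'.comp (τ e)).comp J) = ((Θ y).comp J').comp ((τ e).comp J) := by
          simp only [ContinuousLinearMap.comp_assoc]
        rw [h3]
        exact (hΘJ y).comp (Q.refl _)
      simpa only [ContinuousLinearMap.comp_assoc] using this
    have h3 : Q ((τ e).comp (τ (a2 y))) ((τ (a2 y)).comp (τ e)) := by
      refine (qmul e (a2 y)).symm.trans ?_
      rw [hea y]
      exact qmul _ _
    exact h1.trans ((((Q.refl J').comp h3).comp (Q.refl J)).trans h2.symm)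
  obtain ⟨P, hPc, hPD⟩ := commutant κ Θ D0 hD0
  replace hPD : Q D0 P := hPD
  have hD0D0 : Q (D0.comp D0) D0 := by
    have h1 : D0.comp D0 = ((J'.comp (τ e)).comp (J.comp J')).comp ((τ e).comp J) := by
      simp only [D0, ContinuousLinearMap.comp_assoc]
    have h2 : Q (D0.comp D0) (((J'.comp (τ e)).comp (1 : L2 (L2 E) →L[ℂ] L2 (L2 E))).comp ((τ e).comp J)) := by
      rw [h1]
      exact ((Q.refl _).comp hJJ).comp (Q.refl _)
    refine h2.trans ?_
    have h3 : ((J'.comp (τ e)).comp (1 : L2 (L2 E) →L[ℂ] L2 (L2 E))).comp ((τ e).comp J) =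
        (J'.comp ((τ e).comp (τ e))).comp J := by
      have : (1 : L2 (L2 E) →L[ℂ] L2 (L2 E)) = ContinuousLinearMap.id ℂ _ := rfl
      rw [this, ContinuousLinearMap.comp_id]
      simp only [ContinuousLinearMap.comp_assoc]
    rw [h3]
    refine ((Q.refl J').comp ?_).comp (Q.refl J)
    refine (qmul e e).symm.trans ?_
    rw [hee]
    exact Q.refl _
  have hPP : P * P = P := by
    have h1 : P * P - P = 0 := by
      refine fr_comm_zero κ Θ _ (fun y => ?_) ?_
      · rw [sub_mul, mul_sub, mul_assoc, hPc y, ← mul_assoc, hPc y, mul_assoc]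
      · have h2 : Q (P.comp P) P := ((hPD.symm.comp hPD.symm).trans hD0D0).trans hPD
        exact h2
    exact sub_eq_zero.1 h1
  have hP0 : P ≠ 0 := by
    intro h0
    have h1 : FR D0 := by
      rw [h0] at hPD
      exact hPD.fr FR.zero
    have h2 : Q (τ e) ((J.comp D0).comp J') := by
      have h3 : (J.comp D0).comp J' = (J.comp J').comp ((τ e).comp (J.comp J')) := by
        simp only [D0, ContinuousLinearMap.comp_assoc]
      rw [h3]
      have h4 : Q ((1 : L2 (L2 E) →L[ℂ] L2 (L2 E)).comp ((τ e).comp 1)) ((J.comp J').comp ((τ e).comp (J.comp J'))) :=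
        hJJ.symm.comp ((Q.refl _).comp hJJ.symm)
      exact h4
    have h5 : FR e := (hτ.fr e).2 (h2.fr ((h1.comp_left J).comp_right J'))
    have h6 : FR ((ι'.comp e).comp ι) := (h5.comp_left ι').comp_right ι
    have h7 : (ι'.comp e).comp ι = ContinuousLinearMap.id ℂ E := by
      have h71 : (ι'.comp e).comp ι = (ι'.comp ι).comp (ι'.comp ι) := rfl
      rw [h71, hιι]
      rfl
    rw [h7] at h6
    apply hE
    have h8 : LinearMap.range ((ContinuousLinearMap.id ℂ E : E →L[ℂ] E) : E →ₗ[ℂ] E) = ⊤ := by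
      rw [LinearMap.range_eq_top]
      exact fun x => ⟨x, rfl⟩
    unfold FR at h6
    rw [h8] at h6
    haveI := h6
    exact (Submodule.topEquiv : (⊤ : Submodule ℂ E) ≃ₗ[ℂ] E).finiteDimensional
  have hmin : ∀ D : M →L[ℂ] M, (∀ y, D * Θ y = Θ y * D) → ∃ c : ℂ, P * D * P = c • P := by
    intro D hDc
    obtain ⟨X, hX⟩ := hτ.surj ((J.comp D).comp J')
    replace hX : Q ((J.comp D).comp J') (τ X) := hX
    have hXa : ∀ y, FR (X * a2 y - a2 y * X) := by
      intro y
      rw [hτ.fr, map_sub]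
      have h1 : Q (τ (X.comp (a2 y))) (τ ((a2 y).comp X)) := by
        have h2 : Q (τ (X.comp (a2 y))) (((J.comp D).comp J').comp (((J.comp (Θ y)).comp J'))) :=
          (qmul _ _).trans (hX.symm.comp (hΘ y).symm)
        have h3 : Q (τ ((a2 y).comp X)) ((((J.comp (Θ y)).comp J')).comp ((J.comp D).comp J')) :=
          (qmul _ _).trans ((hΘ y).symm.comp hX.symm)
        have h4 : Q (((J.comp D).comp J').comp (((J.comp (Θ y)).comp J'))) ((J.comp (D.comp (Θ y))).comp J') := by
          have h5 : ((J.comp D).comp J').comp (((J.comp (Θ y)).comp J')) =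
              (J.comp D).comp ((J'.comp J).comp ((Θ y).comp J')) := by
            simp only [ContinuousLinearMap.comp_assoc]
          rw [h5]
          have h6 : Q ((J.comp D).comp ((J'.comp J).comp ((Θ y).comp J'))) ((J.comp D).comp ((1 : M →L[ℂ] M).comp ((Θ y).comp J'))) :=
            (Q.refl _).comp (hJ'J.comp (Q.refl _))
          refine h6.trans (Q.of_eq ?_)
          have : (1 : M →L[ℂ] M) = ContinuousLinearMap.id ℂ _ := rfl
          rw [this, ContinuousLinearMap.id_comp]
          simp only [ContinuousLinearMap.comp_assoc]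
        have h4' : Q ((((J.comp (Θ y)).comp J')).comp ((J.comp D).comp J')) ((J.comp ((Θ y).comp D)).comp J') := by
          have h5 : (((J.comp (Θ y)).comp J')).comp ((J.comp D).comp J') =
              (J.comp (Θ y)).comp ((J'.comp J).comp (D.comp J')) := by
            simp only [ContinuousLinearMap.comp_assoc]
          rw [h5]
          have h6 : Q ((J.comp (Θ y)).comp ((J'.comp J).comp (D.comp J'))) ((J.comp (Θ y)).comp ((1 : M →L[ℂ] M).comp (D.comp J'))) :=
            (Q.refl _).comp (hJ'J.comp (Q.refl _))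
          refine h6.trans (Q.of_eq ?_)
          have : (1 : M →L[ℂ] M) = ContinuousLinearMap.id ℂ _ := rfl
          rw [this, ContinuousLinearMap.id_comp]
          simp only [ContinuousLinearMap.comp_assoc]
        have h7 : D.comp (Θ y) = (Θ y).comp D := hDc y
        rw [h7] at h4
        exact (h2.trans h4).trans (h3.trans h4').symm
      exact h1
    obtain ⟨N, hNc, hXN⟩ := commutant κ a2 X hXa
    replace hXN : Q X N := hXN
    have hNc' : ∀ y, N.comp (a2 y) = (a2 y).comp N := hNc
    obtain ⟨c, hc⟩ := scalar_of_comm hE ((ι'.comp N).comp ι) (fun y => by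
      show ((ι'.comp N).comp ι).comp y = y.comp ((ι'.comp N).comp ι)
      rw [ContinuousLinearMap.comp_assoc, ← haι, ← ContinuousLinearMap.comp_assoc (ι'.comp N), ContinuousLinearMap.comp_assoc ι',
        hNc', ← ContinuousLinearMap.comp_assoc ι', hι'a]
      simp only [ContinuousLinearMap.comp_assoc])
    have heNe : (e.comp N).comp e = c • e := by
      have h1 : (e.comp N).comp e = ι.comp (((ι'.comp N).comp ι).comp ι') := by
        show ((ι.comp ι').comp N).comp (ι.comp ι') = _
        simp only [ContinuousLinearMap.comp_assoc]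
      rw [h1, hc]
      ext1 v
      show ι (c • (ι' v)) = c • ι (ι' v)
      rw [map_smul]
    refine ⟨c, ?_⟩
    have hτXN : Q (τ X) (τ N) := by
      have h1 : FR (τ (X - N)) := (hτ.fr _).1 hXN
      rw [map_sub] at h1
      exact h1
    have h1 : Q ((D0.comp D).comp D0) (c • D0) := by
      have h2 : (D0.comp D).comp D0 = (J'.comp (((τ e).comp ((J.comp D).comp J')).comp (τ e))).comp J := by
        simp only [D0, ContinuousLinearMap.comp_assoc]
      rw [h2]
      have h3 : Q (((τ e).comp ((J.comp D).comp J')).comp (τ e)) (τ ((e.comp N).comp e)) := by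
        refine (((Q.refl _).comp (hX.trans hτXN)).comp (Q.refl _)).trans ?_
        refine Q.symm ((qmul _ _).trans ?_)
        exact (qmul _ _).comp (Q.refl _)
      refine (((Q.refl J').comp h3).comp (Q.refl J)).trans (Q.of_eq ?_)
      rw [heNe, map_smul]
      ext1 v
      simp [D0]
    have h4 : P * D * P - c • P = 0 := by
      refine fr_comm_zero κ Θ _ (fun y => ?_) ?_
      · rw [sub_mul, mul_sub, mul_assoc, hPc y, ← mul_assoc, mul_assoc P D, hDc y, ← mul_assoc, hPc y,
          smul_mul_assoc, mul_smul_comm, hPc y]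
        simp only [mul_assoc]
      · have h5 : Q ((P.comp D).comp P) (c • P) :=
          (((hPD.symm.comp (Q.refl D)).comp hPD.symm).trans h1).trans (hPD.smul c)
        exact h5
    exact sub_eq_zero.1 h4
  obtain ⟨j, j', hj'j, hjj', hΘj⟩ := intertwiner κ hE Θ P hPP hP0 hPc hmin
  have hMJ : Q ((J.comp P).comp J') ((τ e)) := by
    have h1 : Q ((J.comp P).comp J') ((J.comp D0).comp J') := ((Q.refl J).comp hPD.symm).comp (Q.refl J')
    refine h1.trans ?_
    have h3 : (J.comp D0).comp J' = (J.comp J').comp ((τ e).comp (J.comp J')) := by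
      simp only [D0, ContinuousLinearMap.comp_assoc]
    rw [h3]
    have h4 : Q ((J.comp J').comp ((τ e).comp (J.comp J'))) ((1 : L2 (L2 E) →L[ℂ] L2 (L2 E)).comp ((τ e).comp 1)) :=
      hJJ.comp ((Q.refl _).comp hJJ)
    exact h4
  refine ⟨(((τ s').comp J).comp j).comp k, k'.comp (j'.comp (J'.comp (τ s))), ?_, ?_, ?_⟩
  · -- A A' = 1
    have h1 : ((((τ s').comp J).comp j).comp k).comp (k'.comp (j'.comp (J'.comp (τ s)))) =
        (τ s').comp (((J.comp P).comp J').comp (τ s)) := by
      rw [← hjj']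
      have : ((((τ s').comp J).comp j).comp k).comp (k'.comp (j'.comp (J'.comp (τ s)))) =
        (((τ s').comp J).comp j).comp ((k.comp k').comp (j'.comp (J'.comp (τ s)))) := by
        simp only [ContinuousLinearMap.comp_assoc]
      rw [this, hkk', ContinuousLinearMap.id_comp]
      simp only [ContinuousLinearMap.comp_assoc]
    show Q (((((τ s').comp J).comp j).comp k).comp (k'.comp (j'.comp (J'.comp (τ s))))) 1
    rw [h1]
    refine ((Q.refl _).comp (hMJ.comp (Q.refl _))).trans ?_
    refine ((Q.refl (τ s')).comp (qmul e s).symm).trans ?_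
    rw [hes]
    refine (qmul s' s).symm.trans ?_
    rw [hs's]
    exact qone
  · show Q ((k'.comp (j'.comp (J'.comp (τ s)))).comp ((((τ s').comp J).comp j).comp k)) 1
    have h1 : (k'.comp (j'.comp (J'.comp (τ s)))).comp ((((τ s').comp J).comp j).comp k) =
        k'.comp ((j'.comp (((J'.comp ((τ s).comp (τ s'))).comp J).comp j)).comp k) := by
      simp only [ContinuousLinearMap.comp_assoc]
    rw [h1]
    have h2 : Q ((J'.comp ((τ s).comp (τ s'))).comp J) P := by
      refine Q.trans ?_ hPD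
      refine ((Q.refl _).comp ?_).comp (Q.refl _)
      refine (qmul s s').symm.trans ?_
      rw [hss']
      exact Q.refl _
    have h3 : Q (k'.comp ((j'.comp (((J'.comp ((τ s).comp (τ s'))).comp J).comp j)).comp k))
        (k'.comp ((j'.comp (P.comp j)).comp k)) :=
      (Q.refl _).comp (((Q.refl _).comp (h2.comp (Q.refl _))).comp (Q.refl _))
    refine h3.trans (Q.of_eq ?_)
    have h4 : j'.comp (P.comp j) = ContinuousLinearMap.id ℂ E := by
      rw [← hjj']
      have : j'.comp ((j.comp j').comp j) = (j'.comp j).comp (j'.comp j) := by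
        simp only [ContinuousLinearMap.comp_assoc]
      rw [this, hj'j]
      rfl
    rw [h4, ContinuousLinearMap.id_comp, hkk]
    rfl
  · intro X
    show Q (τ X) (((((((τ s').comp J).comp j).comp k)).comp X).comp (k'.comp (j'.comp (J'.comp (τ s)))))
    let y : E →L[ℂ] E := (k.comp X).comp k'
    have h1 : X = (s'.comp (a2 y)).comp s := by
      have h2 : (s'.comp (a2 y)).comp s = s'.comp ((a2 y).comp (ι.comp k)) := by
        simp only [s, ContinuousLinearMap.comp_assoc]
      rw [h2, ← ContinuousLinearMap.comp_assoc, ← ContinuousLinearMap.comp_assoc, ContinuousLinearMap.comp_assoc s', haι]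
      have h3 : (s'.comp (ι.comp y)).comp k = ((s'.comp (ι.comp k)).comp X).comp (k'.comp k) := by
        simp only [y, ContinuousLinearMap.comp_assoc]
      rw [h3, hkk]
      have h4 : s'.comp (ι.comp k) = 1 := hs's
      rw [h4]
      rfl
    have h2 : Q (τ X) (((τ s').comp (τ (a2 y))).comp (τ s)) := by
      conv_lhs => rw [h1]
      exact (qmul _ _).trans ((qmul _ _).comp (Q.refl _))
    have h3 : Q (τ s) ((J.comp P).comp (J'.comp (τ s))) := by
      have h4 : Q (τ s) ((τ e).comp (τ s)) := by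
        have := qmul e s
        rwa [hes] at this
      refine h4.trans ?_
      have h5 : (J.comp P).comp (J'.comp (τ s)) = ((J.comp P).comp J').comp (τ s) := by
        simp only [ContinuousLinearMap.comp_assoc]
      rw [h5]
      exact hMJ.symm.comp (Q.refl _)
    have h6 : Q (((τ s').comp (τ (a2 y))).comp (τ s)) (((τ s').comp (τ (a2 y))).comp ((J.comp P).comp (J'.comp (τ s)))) :=
      (Q.refl _).comp h3
    refine (h2.trans h6).trans ?_
    have h7 : ((τ s').comp (τ (a2 y))).comp ((J.comp P).comp (J'.comp (τ s))) =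
        ((τ s').comp ((τ (a2 y)).comp J)).comp (P.comp (J'.comp (τ s))) := by
      simp only [ContinuousLinearMap.comp_assoc]
    rw [h7]
    refine (((Q.refl _).comp (hJΘ y).symm).comp (Q.refl _)).trans (Q.of_eq ?_)
    rw [← hjj']
    have h8 : ((τ s').comp (J.comp (Θ y))).comp ((j.comp j').comp (J'.comp (τ s))) =
        ((τ s').comp J).comp (((Θ y).comp j).comp (j'.comp (J'.comp (τ s)))) := by
      simp only [ContinuousLinearMap.comp_assoc]
    rw [h8, hΘj y]
    simp only [y, ContinuousLinearMap.comp_assoc]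

end final

theorem partB {H : Type} [NormedAddCommGroup H] [InnerProductSpace ℂ H] [CompleteSpace H]
    [TopologicalSpace.SeparableSpace H] (hH : ¬ FiniteDimensional ℂ H)
    (τ : (H →L[ℂ] H) →ₗ[ℂ] (H →L[ℂ] H)) (hτ : NA τ) :
    ∃ A A' : H →L[ℂ] H, FR (A * A' - 1) ∧ FR (A' * A - 1) ∧ ∀ X, FR (τ X - A * X * A') := by
  obtain ⟨⟨κ⟩, ⟨κ2⟩⟩ := exists_iso hH
  let k : L2 (L2 H) →L[ℂ] H := (κ2.symm.toContinuousLinearEquiv : L2 (L2 H) →L[ℂ] H)
  let k' : H →L[ℂ] L2 (L2 H) := (κ2.toContinuousLinearEquiv : H →L[ℂ] L2 (L2 H))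
  have hkk : k'.comp k = ContinuousLinearMap.id ℂ _ := by
    ext1 v
    exact κ2.apply_symm_apply v
  have hkk' : k.comp k' = ContinuousLinearMap.id ℂ _ := by
    ext1 v
    exact κ2.symm_apply_apply v
  let σ : (L2 (L2 H) →L[ℂ] L2 (L2 H)) →ₗ[ℂ] (L2 (L2 H) →L[ℂ] L2 (L2 H)) :=
    { toFun := fun X => (k'.comp (τ ((k.comp X).comp k'))).comp k
      map_add' := fun X Y => by
        have h1 : (k.comp (X + Y)).comp k' = (k.comp X).comp k' + (k.comp Y).comp k' := by
          ext1 v
          simp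
        rw [h1, map_add]
        ext1 v
        simp
      map_smul' := fun c X => by
        have h1 : (k.comp (c • X)).comp k' = c • (k.comp X).comp k' := by
          ext1 v
          simp
        rw [h1, map_smul]
        ext1 v
        simp }
  have hσ : ∀ X, σ X = (k'.comp (τ ((k.comp X).comp k'))).comp k := fun _ => rfl
  have frk : ∀ X : L2 (L2 H) →L[ℂ] L2 (L2 H), FR X ↔ FR ((k.comp X).comp k') := by
    intro X
    constructor
    · intro h
      exact (h.comp_left k).comp_right k'
    · intro h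
      have h1 := (h.comp_left k').comp_right k
      have h2 : (k'.comp ((k.comp X).comp k')).comp k = ((k'.comp k).comp X).comp (k'.comp k) := by
        simp only [ContinuousLinearMap.comp_assoc]
      rw [h2, hkk, ContinuousLinearMap.id_comp, ContinuousLinearMap.comp_id] at h1
      exact h1
  have frk' : ∀ X : H →L[ℂ] H, FR X ↔ FR ((k'.comp X).comp k) := by
    intro X
    constructor
    · intro h
      exact (h.comp_left k').comp_right k
    · intro h
      have h1 := (h.comp_left k).comp_right k'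
      have h2 : (k.comp ((k'.comp X).comp k)).comp k' = ((k.comp k').comp X).comp (k.comp k') := by
        simp only [ContinuousLinearMap.comp_assoc]
      rw [h2, hkk', ContinuousLinearMap.id_comp, ContinuousLinearMap.comp_id] at h1
      exact h1
  have hNA : NA σ := by
    refine ⟨fun X Y => ?_, ?_, fun X => ?_, fun A => ?_⟩
    · have h1 : (k.comp (X * Y)).comp k' = ((k.comp X).comp k') * ((k.comp Y).comp k') := by
        show (k.comp (X.comp Y)).comp k' = ((k.comp X).comp k').comp ((k.comp Y).comp k')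
        have h2 : ((k.comp X).comp k').comp ((k.comp Y).comp k') = (k.comp X).comp ((k'.comp k).comp (Y.comp k')) := by
          simp only [ContinuousLinearMap.comp_assoc]
        rw [h2, hkk, ContinuousLinearMap.id_comp]
        simp only [ContinuousLinearMap.comp_assoc]
      have h3 : σ (X * Y) - σ X * σ Y = (k'.comp (τ (((k.comp X).comp k') * ((k.comp Y).comp k')) -
          τ ((k.comp X).comp k') * τ ((k.comp Y).comp k'))).comp k := by
        rw [hσ, hσ, hσ, h1]
        ext1 v
        show _ = k' ((τ (((k.comp X).comp k') * ((k.comp Y).comp k')) -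
          τ ((k.comp X).comp k') * τ ((k.comp Y).comp k')) (k v))
        have h4 : ∀ w, k (k' w) = w := fun w => congrArg (fun T : H →L[ℂ] H => T w) hkk'
        simp [h4]
      rw [h3]
      exact (frk' _).1 (hτ.mul _ _)
    · have h1 : (k.comp (1 : L2 (L2 H) →L[ℂ] L2 (L2 H))).comp k' = 1 := by
        show (k.comp (ContinuousLinearMap.id ℂ _)).comp k' = 1
        rw [ContinuousLinearMap.comp_id, hkk']
        rfl
      have h3 : σ 1 - 1 = (k'.comp (τ 1 - 1)).comp k := by
        rw [hσ, h1]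
        ext1 v
        have h4 : ∀ w, k' (k w) = w := fun w => congrArg (fun T : L2 (L2 H) →L[ℂ] L2 (L2 H) => T w) hkk
        simp [h4]
      rw [h3]
      exact (frk' _).1 hτ.one
    · rw [hσ, ← frk', ← hτ.fr, ← frk]
    · obtain ⟨X, hX⟩ := hτ.surj ((k.comp A).comp k')
      refine ⟨(k'.comp X).comp k, ?_⟩
      rw [hσ]
      have h1 : (k.comp ((k'.comp X).comp k)).comp k' = X := by
        have h2 : (k.comp ((k'.comp X).comp k)).comp k' = ((k.comp k').comp X).comp (k.comp k') := by
          simp only [ContinuousLinearMap.comp_assoc]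
        rw [h2, hkk', ContinuousLinearMap.id_comp, ContinuousLinearMap.comp_id]
      rw [h1, frk]
      have h3 : (k.comp (A - (k'.comp (τ X)).comp k)).comp k' = (k.comp A).comp k' - τ X := by
        ext1 v
        have h4 : ∀ w, k (k' w) = w := fun w => congrArg (fun T : H →L[ℂ] H => T w) hkk'
        simp [h4]
      rw [h3]
      exact hX
  obtain ⟨A, A', h1, h2, h3⟩ := partB0 κ κ2 hH σ hNA
  have e1 : ∀ A B : L2 (L2 H) →L[ℂ] L2 (L2 H), (k.comp (A * B)).comp k' = ((k.comp A).comp k') * ((k.comp B).comp k') := by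
    intro A B
    show (k.comp (A.comp B)).comp k' = ((k.comp A).comp k').comp ((k.comp B).comp k')
    have h2 : ((k.comp A).comp k').comp ((k.comp B).comp k') = (k.comp A).comp ((k'.comp k).comp (B.comp k')) := by
      simp only [ContinuousLinearMap.comp_assoc]
    rw [h2, hkk, ContinuousLinearMap.id_comp]
    simp only [ContinuousLinearMap.comp_assoc]
  have e2 : (k.comp (1 : L2 (L2 H) →L[ℂ] L2 (L2 H))).comp k' = 1 := by
    show (k.comp (ContinuousLinearMap.id ℂ _)).comp k' = 1
    rw [ContinuousLinearMap.comp_id, hkk']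
    rfl
  have e3 : ∀ A B : L2 (L2 H) →L[ℂ] L2 (L2 H), (k.comp (A - B)).comp k' = (k.comp A).comp k' - (k.comp B).comp k' := by
    intro A B
    ext1 v
    simp
  refine ⟨(k.comp A).comp k', (k.comp A').comp k', ?_, ?_, fun X => ?_⟩
  · rw [← e1, ← e2, ← e3]
    exact (frk _).1 h1
  · rw [← e1, ← e2, ← e3]
    exact (frk _).1 h2
  · have h4 := (frk _).1 (h3 ((k'.comp X).comp k))
    rw [e3, e1, e1, hσ] at h4
    have h5 : (k.comp ((k'.comp X).comp k)).comp k' = X := by
      have h2 : (k.comp ((k'.comp X).comp k)).comp k' = ((k.comp k').comp X).comp (k.comp k') := by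
        simp only [ContinuousLinearMap.comp_assoc]
      rw [h2, hkk', ContinuousLinearMap.id_comp, ContinuousLinearMap.comp_id]
    have h6 : ∀ Z : H →L[ℂ] H, (k.comp ((k'.comp Z).comp k)).comp k' = Z := by
      intro Z
      have h2 : (k.comp ((k'.comp Z).comp k)).comp k' = ((k.comp k').comp Z).comp (k.comp k') := by
        simp only [ContinuousLinearMap.comp_assoc]
      rw [h2, hkk', ContinuousLinearMap.id_comp, ContinuousLinearMap.comp_id]
    rw [h6, h6] at h4
    exact h4

end Pool.Agent.Helper192.GI
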